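import Pool.Agent.Helper89.TQ.Spec

/-!
MP_5465ec_co, Q2: the part BRIDGE.
-/

set_option autoImplicit false

namespace Pool.Agent.Helper78.TQ

open Finset Pool.Agent.R6.Trade Pool.Agent.Helper89.TQ

variable {N : Type} [Fintype N] [DecidableEq N] {W : Finset N → Prop} {τ : N → Fin 3}

omit [Fintype N] in
lemma vec_insert {S : Finset N} {u : N} (hu : u ∉ S) (i : Fin 3) :
    vec τ (insert u S) i = vec τ S i + if τ u = i then 1 else 0 := by
  unfold vec
  rw [filter_insert]
  split_ifs with h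
  · rw [card_insert_of_notMem (fun h' => hu (mem_filter.1 h').1)]
  · rfl

lemma exists_of_lt {S : Finset N} {i : Fin 3} (h : vec τ S i < nn τ i) :
    ∃ u, τ u = i ∧ u ∉ S := by
  by_contra hcon
  push Not at hcon
  have h1 : (univ.filter fun v => τ v = i) ⊆ S.filter (fun v => τ v = i) := by
    intro v hv
    have hv' := (mem_filter.1 hv).2
    exact mem_filter.2 ⟨hcon v hv', hv'⟩
  have h2 := card_le_card h1
  unfold vec nn at h
  omega

omit [Fintype N] in
lemma exists_of_pos {S : Finset N} {i : Fin 3} (h : 0 < vec τ S i) : ∃ u ∈ S, τ u = i := by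
  obtain ⟨u, hu⟩ := card_pos.1 h
  exact ⟨u, (mem_filter.1 hu).1, (mem_filter.1 hu).2⟩

lemma add_step (hW : IsSimple W) {S : Finset N} {i : Fin 3} (h : W S)
    (hi : vec τ S i < nn τ i) :
    ∃ S', W S' ∧ ∀ l, vec τ S' l = vec τ S l + if i = l then 1 else 0 := by
  obtain ⟨u, hu, huS⟩ := exists_of_lt hi
  refine ⟨insert u S, hW.2.2 _ _ (subset_insert u S) h, fun l => ?_⟩
  rw [vec_insert huS, hu]

lemma swap_step (hτ : ∀ u v, AtLeast W u v ↔ τ u ≤ τ v) {S : Finset N} {i j : Fin 3}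
    (hij : i ≤ j) (h : W S) (hi : vec τ S i < nn τ i) (hj : 0 < vec τ S j) :
    ∃ S', W S' ∧ ∀ l, vec τ S' l + (if j = l then 1 else 0) =
      vec τ S l + if i = l then 1 else 0 := by
  obtain ⟨u, hu, huS⟩ := exists_of_lt hi
  obtain ⟨v, hvS, hv⟩ := exists_of_pos hj
  have h1 : u ∉ S.erase v := fun h' => huS (mem_of_mem_erase h')
  refine ⟨insert u (S.erase v), (hτ u v).2 (by rw [hu, hv]; exact hij) _ h1 (notMem_erase v S)
    (by rwa [insert_erase hvS]), fun l => ?_⟩
  have h2 := vec_insert (τ := τ) (notMem_erase v S) l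
  rw [insert_erase hvS, hv] at h2
  rw [vec_insert h1, hu, h2]
  omega

/-- the potential -/
def pot (x : Fin 3 → ℕ) : ℕ := 3 * x 0 + 2 * x 1 + x 2

/-- shift monotonicity -/
theorem BR1 (hW : IsSimple W) (hτ : ∀ u v, AtLeast W u v ↔ τ u ≤ τ v) (T : Finset N) (k : ℕ) :
    ∀ S, W S → GE (vec τ T) (vec τ S) → pot (vec τ T) = pot (vec τ S) + k → W T := by
  induction k using Nat.strong_induction_on with
  | _ k ih =>
    intro S hS hge hp
    unfold GE at hge
    unfold pot at hp
    have hT0 := vec_le τ T 0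
    have hT1 := vec_le τ T 1
    have hT2 := vec_le τ T 2
    have key : ∀ S', W S' → (vec τ S' 0 ≤ vec τ T 0 ∧ vec τ S' 0 + vec τ S' 1 ≤
        vec τ T 0 + vec τ T 1 ∧ vec τ S' 0 + vec τ S' 1 + vec τ S' 2 ≤
        vec τ T 0 + vec τ T 1 + vec τ T 2) → 3 * vec τ S 0 + 2 * vec τ S 1 + vec τ S 2 <
        3 * vec τ S' 0 + 2 * vec τ S' 1 + vec τ S' 2 → W T := by
      intro S' hS' hge' hlt
      refine ih (3 * vec τ T 0 + 2 * vec τ T 1 + vec τ T 2 -
        (3 * vec τ S' 0 + 2 * vec τ S' 1 + vec τ S' 2)) (by omega) S' hS' hge' ?_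
      unfold pot
      omega
    by_cases hk : k = 0
    · refine win_of_vec_eq hW.2.2 τ (fun a b hab => (hτ a b).2 hab.le) _ S T rfl ?_ hS
      funext l
      fin_cases l
      · show vec τ S 0 = vec τ T 0
        omega
      · show vec τ S 1 = vec τ T 1
        omega
      · show vec τ S 2 = vec τ T 2
        omega
    have h01 : ¬ (0 : Fin 3) = 1 := by decide
    have h02 : ¬ (0 : Fin 3) = 2 := by decide
    have h12 : ¬ (1 : Fin 3) = 2 := by decide
    have h10 : ¬ (1 : Fin 3) = 0 := by decide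
    have h20 : ¬ (2 : Fin 3) = 0 := by decide
    have h21 : ¬ (2 : Fin 3) = 1 := by decide
    have add : ∀ i : Fin 3, vec τ S i < nn τ i → ∃ S', W S' ∧
        vec τ S' 0 = vec τ S 0 + (if i = 0 then 1 else 0) ∧
        vec τ S' 1 = vec τ S 1 + (if i = 1 then 1 else 0) ∧
        vec τ S' 2 = vec τ S 2 + (if i = 2 then 1 else 0) := by
      intro i hi
      obtain ⟨S', h1, h2⟩ := add_step hW hS hi
      exact ⟨S', h1, h2 0, h2 1, h2 2⟩
    have swp : ∀ i j : Fin 3, i ≤ j → vec τ S i < nn τ i → 0 < vec τ S j → ∃ S', W S' ∧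
        vec τ S' 0 + (if j = 0 then 1 else 0) = vec τ S 0 + (if i = 0 then 1 else 0) ∧
        vec τ S' 1 + (if j = 1 then 1 else 0) = vec τ S 1 + (if i = 1 then 1 else 0) ∧
        vec τ S' 2 + (if j = 2 then 1 else 0) = vec τ S 2 + (if i = 2 then 1 else 0) := by
      intro i j hij hi hj
      obtain ⟨S', h1, h2⟩ := swap_step hτ hij hS hi hj
      exact ⟨S', h1, h2 0, h2 1, h2 2⟩
    rcases Nat.lt_or_ge (vec τ S 0) (vec τ T 0) with h0 | h0
    · rcases Nat.lt_or_ge (vec τ S 0 + vec τ S 1) (vec τ T 0 + vec τ T 1) with h1 | h1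
      · rcases Nat.lt_or_ge (vec τ S 0 + vec τ S 1 + vec τ S 2)
          (vec τ T 0 + vec τ T 1 + vec τ T 2) with h2 | h2
        · obtain ⟨S', hS', e0, e1, e2⟩ := add 0 (by omega)
          simp only [h01, h02, if_true, if_false] at e0 e1 e2
          exact key S' hS' ⟨by omega, by omega, by omega⟩ (by omega)
        · obtain ⟨S', hS', e0, e1, e2⟩ := swp 0 2 (by decide) (by omega) (by omega)
          simp only [h01, h02, h20, h21, if_true, if_false] at e0 e1 e2
          exact key S' hS' ⟨by omega, by omega, by omega⟩ (by omega)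
      · obtain ⟨S', hS', e0, e1, e2⟩ := swp 0 1 (by decide) (by omega) (by omega)
        simp only [h01, h02, h10, h12, if_true, if_false] at e0 e1 e2
        exact key S' hS' ⟨by omega, by omega, by omega⟩ (by omega)
    · rcases Nat.lt_or_ge (vec τ S 0 + vec τ S 1) (vec τ T 0 + vec τ T 1) with h1 | h1
      · rcases Nat.lt_or_ge (vec τ S 0 + vec τ S 1 + vec τ S 2)
          (vec τ T 0 + vec τ T 1 + vec τ T 2) with h2 | h2
        · obtain ⟨S', hS', e0, e1, e2⟩ := add 1 (by omega)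
          simp only [h10, h12, if_true, if_false] at e0 e1 e2
          exact key S' hS' ⟨by omega, by omega, by omega⟩ (by omega)
        · obtain ⟨S', hS', e0, e1, e2⟩ := swp 1 2 (by decide) (by omega) (by omega)
          simp only [h10, h12, h20, h21, if_true, if_false] at e0 e1 e2
          exact key S' hS' ⟨by omega, by omega, by omega⟩ (by omega)
      · obtain ⟨S', hS', e0, e1, e2⟩ := add 2 (by omega)
        simp only [h20, h21, if_true, if_false] at e0 e1 e2
        exact key S' hS' ⟨by omega, by omega, by omega⟩ (by omega)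

/-- shift monotonicity -/
theorem mono (hW : IsSimple W) (hτ : ∀ u v, AtLeast W u v ↔ τ u ≤ τ v) {S T : Finset N}
    (hS : W S) (h : GE (vec τ T) (vec τ S)) : W T := by
  refine BR1 hW hτ T (pot (vec τ T) - pot (vec τ S)) S hS h ?_
  unfold GE at h
  unfold pot
  omega

theorem GE_trans {x y z : Fin 3 → ℕ} (h1 : GE x y) (h2 : GE y z) : GE x z := by
  unfold GE at *
  omega

theorem GE_refl (x : Fin 3 → ℕ) : GE x x := ⟨le_refl _, le_refl _, le_refl _⟩

theorem eq_of {x y : Fin 3 → ℕ} (h1 : GE x y) (h2 : pot x ≤ pot y) : x = y := by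
  unfold GE at h1
  unfold pot at h2
  funext l
  fin_cases l
  · show x 0 = y 0
    omega
  · show x 1 = y 1
    omega
  · show x 2 = y 2
    omega

/-- every winning vector is above a minimal one -/
theorem exists_min (S : Finset N) (hS : W S) : ∃ v, MinWin W τ v ∧ GE (vec τ S) v := by
  classical
  have hex : ∃ k, ∃ S', W S' ∧ GE (vec τ S) (vec τ S') ∧ pot (vec τ S') = k :=
    ⟨_, S, hS, GE_refl _, rfl⟩
  obtain ⟨S', h1, h2, h3⟩ := Nat.find_spec hex
  refine ⟨vec τ S', ⟨⟨S', h1, rfl⟩, fun S'' hS'' hge => ?_⟩, h2⟩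
  refine (eq_of hge ?_).symm
  rw [h3]
  exact Nat.find_min' hex ⟨S'', hS'', GE_trans h2 hge, rfl⟩

theorem main : S_BRIDGE := by
  intro N _ _ W τ a b hW hsurj hτ hab hmin
  have ha := (hmin a).2 (Or.inl rfl)
  have hb := (hmin b).2 (Or.inr rfl)
  obtain ⟨⟨A, hA, hAa⟩, hamin⟩ := ha
  obtain ⟨⟨B, hB, hBb⟩, hbmin⟩ := hb
  have hwin : ∀ S, W S ↔ Win a b (vec τ S) := by
    intro S
    constructor
    · intro hS
      obtain ⟨v, hv, hge⟩ := exists_min (τ := τ) S hS
      rcases (hmin v).1 hv with rfl | rfl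
      · exact Or.inl hge
      · exact Or.inr hge
    · rintro (h | h)
      · rw [← hAa] at h
        exact mono hW hτ hA h
      · rw [← hBb] at h
        exact mono hW hτ hB h
  have types : ∀ i j : Fin 3, i < j → ∃ x : Fin 3 → ℕ, x i + 1 ≤ nn τ i ∧ x j + 1 ≤ nn τ j ∧
      (∃ y : Fin 3 → ℕ, (∀ l, y l = x l + if i = l then 1 else 0) ∧ Win a b y) ∧
      (∃ z : Fin 3 → ℕ, (∀ l, z l = x l + if j = l then 1 else 0) ∧ ¬ Win a b z) := by
    intro i j hij
    obtain ⟨u, hu⟩ := hsurj i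
    obtain ⟨v, hv⟩ := hsurj j
    have hn : ¬ AtLeast W v u := by
      rw [hτ, hu, hv]
      exact not_le.2 hij
    unfold AtLeast at hn
    push Not at hn
    obtain ⟨S, hvS, huS, h1, h2⟩ := hn
    have e1 : ∀ l, vec τ (insert u S) l = vec τ S l + if i = l then 1 else 0 := by
      intro l
      rw [vec_insert huS, hu]
    have e2 : ∀ l, vec τ (insert v S) l = vec τ S l + if j = l then 1 else 0 := by
      intro l
      rw [vec_insert hvS, hv]
    refine ⟨vec τ S, ?_, ?_, ⟨_, e1, (hwin _).1 h1⟩, ⟨_, e2, fun h => h2 ((hwin _).2 h)⟩⟩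
    · have h3 := e1 i
      rw [if_pos rfl] at h3
      rw [← h3]
      exact vec_le _ _ _
    · have h3 := e2 j
      rw [if_pos rfl] at h3
      rw [← h3]
      exact vec_le _ _ _
  have h01 : ¬ (0 : Fin 3) = 1 := by decide
  have h02 : ¬ (0 : Fin 3) = 2 := by decide
  have h12 : ¬ (1 : Fin 3) = 2 := by decide
  have h10 : ¬ (1 : Fin 3) = 0 := by decide
  have h20 : ¬ (2 : Fin 3) = 0 := by decide
  have h21 : ¬ (2 : Fin 3) = 1 := by decide
  refine ⟨fun i => hAa ▸ vec_le τ A i, fun i => hBb ▸ vec_le τ B i, ?_, ?_, ?_, ?_, hwin⟩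
  · intro h
    exact hab ((hamin B hB (hBb.symm ▸ h)).symm.trans hBb)
  · intro h
    exact hab ((hAa.symm).trans (hbmin A hA (hAa.symm ▸ h)))
  · obtain ⟨x, hx0, hx1, ⟨y, hy, hyw⟩, ⟨z, hz, hzw⟩⟩ := types 0 1 (by decide)
    have y0 := hy 0
    have y1 := hy 1
    have y2 := hy 2
    have z0 := hz 0
    have z1 := hz 1
    have z2 := hz 2
    simp only [h01, h02, h10, h12, if_true, if_false] at y0 y1 y2 z0 z1 z2
    unfold Win GE at hyw hzw
    omega
  · obtain ⟨x, hx0, hx1, ⟨y, hy, hyw⟩, ⟨z, hz, hzw⟩⟩ := types 1 2 (by decide)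
    have y0 := hy 0
    have y1 := hy 1
    have y2 := hy 2
    have z0 := hz 0
    have z1 := hz 1
    have z2 := hz 2
    simp only [h20, h21, h10, h12, if_true, if_false] at y0 y1 y2 z0 z1 z2
    unfold Win GE at hyw hzw
    omega

end Pool.Agent.Helper78.TQ
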