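import Pool.Agent.Helper89.TQ.Ctx

set_option autoImplicit false
set_option linter.all false
set_option maxHeartbeats 4000000
set_option maxRecDepth 10000

namespace Pool.Agent.Helper78.TQ

open Pool.Agent.Helper89.TQ

theorem c0_11_13_23_k0 {n1 n2 n3 A1 A2 A3 B1 B2 B3 m11_1 m11_2 m11_3 m13_1 m13_2 m13_3 m22_1 m22_2 m22_3 m23_1 m23_2 m23_3 m33_1 m33_2 m33_3 : ℤ}
    (C : Ctx0 n1 n2 n3 A1 A2 A3 B1 B2 B3 m11_1 m11_2 m11_3 m13_1 m13_2 m13_3 m22_1 m22_2 m22_3 m23_1 m23_2 m23_3 m33_1 m33_2 m33_3)
    (e0 : 0 < B1)
    (e1 : 0 < A1)
    (e2 : 0 < B3)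
    (e3 : 0 < A2)
    (s1 : 0 * A1 + 3 * B1 ≤ m11_1 + m13_1 + m23_1)
    (s2 : 0 * A2 + 3 * B2 ≤ m11_2 + m13_2 + m23_2)
    (s3 : 0 * A3 + 3 * B3 ≤ m11_3 + m13_3 + m23_3) : False := by
  have g_t12 : (0 < A1 ∧ A2 < A1 + n2) ∨ (0 < B1 ∧ B2 < B1 + n2) := by
    have h := C.t12
    clear * - h
    omega
  have g_t23 : (A1 < A2 ∧ A3 < A2 + n3) ∨ (B1 < B2 ∧ B3 < B2 + n3) := by
    have h := C.t23
    clear * - h
    omega
  have g_f13_2 : (m13_1 = -1 + A1) ∨ (m13_1 = -1 + B3) := by
    have h := C.f13_2
    clear * - h
    omega
  have g_f13_5 : (m13_2 = m13_1 + n2) ∨ (m13_2 = -1 + B3) := by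
    have h := C.f13_5
    clear * - h
    omega
  have g_f22_2 : (m22_1 = n1) ∨ (m22_1 = -1 + B2) := by
    have h := C.f22_2
    clear * - h
    omega
  have g_f22_5 : (m22_2 = m22_1 + n2) ∨ (m22_2 = -1 + B2) := by
    have h := C.f22_5
    clear * - h
    omega
  have g_f23_3 : (m23_1 = n1) ∨ (m23_1 = -1 + A2) ∨ (m23_1 = -1 + B3) := by
    have h := C.f23_3
    clear * - h
    omega
  have g_f23_7 : (m23_2 = m23_1 + n2) ∨ (m23_2 = -1 + A2) ∨ (m23_2 = -1 + B3) := by
    have h := C.f23_7
    clear * - h
    omega
  have g_p11_13B : (0 ≥ B1) ∨ (0 ≥ A1) ∨ (0 ≥ B3) ∨ (2 * B1 > m11_1 + m13_1) ∨ (2 * B2 > m11_2 + m13_2) ∨ (2 * B3 > m11_3 + m13_3) := by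
    have h := C.p11_13B
    clear * - h
    omega
  have g_p11_22B : (0 ≥ B1) ∨ (0 ≥ B2) ∨ (2 * B1 > m11_1 + m22_1) ∨ (2 * B2 > m11_2 + m22_2) ∨ (2 * B3 > m11_3 + m22_3) := by
    have h := C.p11_22B
    clear * - h
    omega
  have g_p11_23B : (0 ≥ B1) ∨ (0 ≥ A2) ∨ (0 ≥ B3) ∨ (2 * B1 > m11_1 + m23_1) ∨ (2 * B2 > m11_2 + m23_2) ∨ (2 * B3 > m11_3 + m23_3) := by
    have h := C.p11_23B
    clear * - h
    omega
  have g_p13_22B : (0 ≥ A1) ∨ (0 ≥ B3) ∨ (0 ≥ B2) ∨ (2 * B1 > m13_1 + m22_1) ∨ (2 * B2 > m13_2 + m22_2) ∨ (2 * B3 > m13_3 + m22_3) := by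
    have h := C.p13_22B
    clear * - h
    omega
  have b_a1 := C.a1
  have b_a2 := C.a2
  have b_a3 := C.a3
  have b_a4 := C.a4
  have b_b1 := C.b1
  have b_b2 := C.b2
  have b_b3 := C.b3
  have b_b5 := C.b5
  have b_o0 := C.o0
  have b_o1 := C.o1
  have b_o2 := C.o2
  have b_f11_0 := C.f11_0
  have b_f11_1 := C.f11_1
  have b_f11_2 := C.f11_2
  have b_f13_0 := C.f13_0
  have b_f13_3 := C.f13_3
  have b_f13_4 := C.f13_4
  have b_f13_7 := C.f13_7
  have b_f22_1 := C.f22_1
  have b_f22_4 := C.f22_4
  have b_f22_6 := C.f22_6
  have b_f23_0 := C.f23_0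
  have b_f23_1 := C.f23_1
  have b_f23_5 := C.f23_5
  have b_f23_9 := C.f23_9
  clear C
  rcases g_f13_5 with g_f13_5 | g_f13_5
  · rcases g_f22_2 with g_f22_2 | g_f22_2
    · rcases g_f22_5 with g_f22_5 | g_f22_5
      · clear * - b_b1 b_b3 b_f22_4 g_f22_2 g_f22_5
        omega
      · rcases g_t12 with ⟨g_t12, g_t12'⟩ | ⟨g_t12, g_t12'⟩
        · rcases g_f13_2 with g_f13_2 | g_f13_2
          · rcases g_p13_22B with g_p13_22B | g_p13_22B | g_p13_22B | g_p13_22B | g_p13_22B | g_p13_22B
            · clear * - e1 g_p13_22B
              omega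
            · clear * - e2 g_p13_22B
              omega
            · clear * - b_a1 b_f22_1 b_o0 e0 g_f22_2 g_p13_22B
              omega
            · clear * - b_a1 b_o0 g_f13_2 g_f22_2 g_p13_22B
              omega
            · clear * - b_f11_0 b_f11_1 b_f23_5 b_o0 g_f13_2 g_f13_5 g_f22_5 g_p13_22B g_t12' s2
              omega
            · rcases g_p11_22B with g_p11_22B | g_p11_22B | g_p11_22B | g_p11_22B | g_p11_22B
              · clear * - e0 g_p11_22B
                omega
              · clear * - b_a1 b_f22_1 b_o0 e0 g_f22_2 g_p11_22B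
                omega
              · clear * - b_a1 b_f11_0 b_o0 g_f22_2 g_p11_22B
                omega
              · clear * - b_f11_2 b_f22_6 b_f23_9 g_f22_5 g_p11_22B g_p13_22B s3
                omega
              · clear * - b_b5 b_f13_7 b_f22_6 b_f23_9 g_f22_5 g_p11_22B s3
                omega
          · clear * - b_a2 b_a4 b_f13_0 b_o2 g_f13_2
            omega
        · rcases g_p11_22B with g_p11_22B | g_p11_22B | g_p11_22B | g_p11_22B | g_p11_22B
          · clear * - e0 g_p11_22B
            omega
          · clear * - b_a1 b_f22_1 e1 g_f22_2 g_p11_22B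
            omega
          · clear * - b_a1 b_f11_0 b_o0 g_f22_2 g_p11_22B
            omega
          · rcases g_p13_22B with g_p13_22B | g_p13_22B | g_p13_22B | g_p13_22B | g_p13_22B | g_p13_22B
            · clear * - e1 g_p13_22B
              omega
            · clear * - e2 g_p13_22B
              omega
            · clear * - b_a1 b_f22_1 b_o0 e0 g_f22_2 g_p13_22B
              omega
            · clear * - b_f11_0 b_f23_0 g_f22_2 g_p13_22B s1
              omega
            · rcases g_f13_2 with g_f13_2 | g_f13_2
              · clear * - b_o0 g_f13_2 g_f13_5 g_f22_5 g_p13_22B g_t12'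
                omega
              · clear * - b_a4 b_f11_0 b_f11_1 b_f22_1 b_f23_0 b_f23_5 b_o2 g_f13_2 g_f13_5 g_f22_2 g_f22_5 g_p13_22B g_t12' s1 s2
                omega
            · clear * - b_f11_2 b_f22_6 b_f23_9 g_f22_5 g_p11_22B g_p13_22B s3
              omega
          · clear * - b_b5 b_f13_7 b_f22_6 b_f23_9 g_f22_5 g_p11_22B s3
            omega
    · rcases g_f13_2 with g_f13_2 | g_f13_2
      · rcases g_f22_5 with g_f22_5 | g_f22_5
        · rcases g_t12 with ⟨g_t12, g_t12'⟩ | ⟨g_t12, g_t12'⟩
          · clear * - b_a2 b_f22_4 g_f22_2 g_f22_5 g_t12'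
            omega
          · clear * - b_b2 b_f22_4 g_f22_2 g_f22_5 g_t12'
            omega
        · rcases g_t12 with ⟨g_t12, g_t12'⟩ | ⟨g_t12, g_t12'⟩
          · rcases g_p11_13B with g_p11_13B | g_p11_13B | g_p11_13B | g_p11_13B | g_p11_13B | g_p11_13B
            · clear * - e0 g_p11_13B
              omega
            · clear * - e1 g_p11_13B
              omega
            · clear * - e2 g_p11_13B
              omega
            · rcases g_p11_23B with g_p11_23B | g_p11_23B | g_p11_23B | g_p11_23B | g_p11_23B | g_p11_23B
              · clear * - e0 g_p11_23B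
                omega
              · clear * - e3 g_p11_23B
                omega
              · clear * - e2 g_p11_23B
                omega
              · clear * - b_f11_0 g_p11_13B g_p11_23B s1
                omega
              · rcases g_f23_7 with g_f23_7 | g_f23_7 | g_f23_7
                · clear * - b_f11_0 b_f11_1 b_f13_3 g_f23_7 g_p11_13B g_p11_23B s1 s2
                  omega
                · rcases g_p13_22B with g_p13_22B | g_p13_22B | g_p13_22B | g_p13_22B | g_p13_22B | g_p13_22B
                  · clear * - e1 g_p13_22B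
                    omega
                  · clear * - e2 g_p13_22B
                    omega
                  · clear * - b_f11_0 b_f11_1 b_f13_3 b_f23_1 e0 g_f23_7 g_p11_13B g_p11_23B g_p13_22B s1 s2
                    omega
                  · clear * - b_f11_0 b_f11_1 b_f13_3 b_f23_1 g_f22_2 g_f23_7 g_p11_13B g_p11_23B g_p13_22B s1 s2
                    omega
                  · clear * - g_f22_5 g_p11_23B g_p13_22B s2
                    omega
                  · clear * - b_f11_2 b_f22_6 b_f23_9 b_o1 g_f22_5 g_f23_7 g_p11_23B g_p13_22B s3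
                    omega
                · clear * - b_b3 b_f11_0 b_f11_1 b_f13_4 g_f23_7 g_p11_23B s2
                  omega
              · clear * - b_f13_7 g_p11_23B s3
                omega
            · clear * - b_b3 b_f11_0 b_f11_1 b_f23_5 g_f13_2 g_f13_5 g_p11_13B g_t12' s2
              omega
            · clear * - b_f23_9 g_p11_13B s3
              omega
          · rcases g_f23_7 with g_f23_7 | g_f23_7 | g_f23_7
            · rcases g_f23_3 with g_f23_3 | g_f23_3 | g_f23_3
              · clear * - b_a1 b_a3 b_f23_5 g_f23_3 g_f23_7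
                omega
              · clear * - b_b2 b_f23_5 g_f23_3 g_f23_7 g_t12'
                omega
              · clear * - b_a4 b_b2 b_f23_5 b_o2 g_f23_3 g_f23_7 g_t12'
                omega
            · rcases g_f23_3 with g_f23_3 | g_f23_3 | g_f23_3
              · rcases g_p11_23B with g_p11_23B | g_p11_23B | g_p11_23B | g_p11_23B | g_p11_23B | g_p11_23B
                · clear * - e0 g_p11_23B
                  omega
                · clear * - e3 g_p11_23B
                  omega
                · clear * - e2 g_p11_23B
                  omega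
                · clear * - b_a1 b_f11_0 b_o0 g_f23_3 g_p11_23B
                  omega
                · rcases g_p13_22B with g_p13_22B | g_p13_22B | g_p13_22B | g_p13_22B | g_p13_22B | g_p13_22B
                  · clear * - e1 g_p13_22B
                    omega
                  · clear * - e2 g_p13_22B
                    omega
                  · clear * - b_a1 b_f11_0 b_f11_1 b_f13_0 b_f13_3 b_f23_1 e0 g_f23_3 g_f23_7 g_p11_23B g_p13_22B s2
                    omega
                  · clear * - b_a1 b_f11_0 b_f11_1 b_f13_0 b_f13_3 b_f23_1 g_f22_2 g_f23_3 g_f23_7 g_p11_23B g_p13_22B s1 s2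
                    omega
                  · clear * - g_f22_5 g_p11_23B g_p13_22B s2
                    omega
                  · clear * - b_f11_2 b_f22_6 b_f23_9 b_o1 g_f22_5 g_f23_7 g_p11_23B g_p13_22B s3
                    omega
                · clear * - b_f13_7 g_p11_23B s3
                  omega
              · rcases g_p11_23B with g_p11_23B | g_p11_23B | g_p11_23B | g_p11_23B | g_p11_23B | g_p11_23B
                · clear * - e0 g_p11_23B
                  omega
                · clear * - e3 g_p11_23B
                  omega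
                · clear * - e2 g_p11_23B
                  omega
                · clear * - b_a2 b_f11_0 b_f13_0 g_f23_3 g_p11_23B s1
                  omega
                · rcases g_p13_22B with g_p13_22B | g_p13_22B | g_p13_22B | g_p13_22B | g_p13_22B | g_p13_22B
                  · clear * - e1 g_p13_22B
                    omega
                  · clear * - e2 g_p13_22B
                    omega
                  · clear * - b_a2 b_f11_0 b_f11_1 b_f13_0 b_f13_3 e0 g_f23_7 g_p11_23B g_p13_22B s2
                    omega
                  · clear * - b_a2 b_f11_0 b_f11_1 b_f13_0 b_f13_3 b_f23_1 g_f22_2 g_f23_7 g_p11_23B g_p13_22B s1 s2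
                    omega
                  · clear * - g_f22_5 g_p11_23B g_p13_22B s2
                    omega
                  · clear * - b_f11_2 b_f22_6 b_f23_9 b_o1 g_f22_5 g_f23_7 g_p11_23B g_p13_22B s3
                    omega
                · clear * - b_f13_7 g_p11_23B s3
                  omega
              · clear * - b_a4 b_f23_1 b_o2 g_f23_3
                omega
            · clear * - b_a4 b_f23_5 b_o2 g_f23_7
              omega
      · clear * - b_a2 b_a4 b_f13_0 b_o2 g_f13_2
        omega
  · rcases g_p11_23B with g_p11_23B | g_p11_23B | g_p11_23B | g_p11_23B | g_p11_23B | g_p11_23B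
    · clear * - e0 g_p11_23B
      omega
    · clear * - e3 g_p11_23B
      omega
    · clear * - e2 g_p11_23B
      omega
    · rcases g_f23_3 with g_f23_3 | g_f23_3 | g_f23_3
      · clear * - b_a1 b_f11_0 b_f13_0 g_f23_3 g_p11_23B s1
        omega
      · clear * - b_a2 b_f11_0 b_f13_0 g_f23_3 g_p11_23B s1
        omega
      · clear * - b_a2 b_a4 b_f11_0 b_f13_0 b_o2 g_f23_3 g_p11_23B s1
        omega
    · rcases g_t23 with ⟨g_t23, g_t23'⟩ | ⟨g_t23, g_t23'⟩
      · rcases g_f22_5 with g_f22_5 | g_f22_5
        · rcases g_f22_2 with g_f22_2 | g_f22_2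
          · clear * - b_a1 b_f13_0 b_f13_3 b_f22_4 g_f22_2 g_f22_5 g_p11_23B s2
            omega
          · clear * - b_a4 b_f13_0 b_f13_3 b_f22_4 b_o2 g_f13_5 g_f22_2 g_f22_5 g_t23
            omega
        · rcases g_f22_2 with g_f22_2 | g_f22_2
          · rcases g_p11_22B with g_p11_22B | g_p11_22B | g_p11_22B | g_p11_22B | g_p11_22B
            · clear * - e0 g_p11_22B
              omega
            · clear * - b_a1 b_f22_1 e1 g_f22_2 g_p11_22B
              omega
            · clear * - b_a1 b_f11_0 b_o0 g_f22_2 g_p11_22B
              omega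
            · rcases g_p13_22B with g_p13_22B | g_p13_22B | g_p13_22B | g_p13_22B | g_p13_22B | g_p13_22B
              · clear * - e1 g_p13_22B
                omega
              · clear * - e2 g_p13_22B
                omega
              · clear * - b_a1 b_f22_1 b_o0 e0 g_f22_2 g_p13_22B
                omega
              · clear * - b_f11_0 b_f23_0 g_f22_2 g_p13_22B s1
                omega
              · clear * - g_f22_5 g_p11_23B g_p13_22B s2
                omega
              · clear * - b_f11_2 b_f22_6 b_f23_9 g_f22_5 g_p11_22B g_p13_22B s3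
                omega
            · clear * - b_b5 b_f13_7 b_f22_6 b_f23_9 g_f22_5 g_p11_22B s3
              omega
          · rcases g_p11_13B with g_p11_13B | g_p11_13B | g_p11_13B | g_p11_13B | g_p11_13B | g_p11_13B
            · clear * - e0 g_p11_13B
              omega
            · clear * - e1 g_p11_13B
              omega
            · clear * - e2 g_p11_13B
              omega
            · rcases g_f23_7 with g_f23_7 | g_f23_7 | g_f23_7
              · clear * - b_f11_0 b_f11_1 b_f13_3 g_f23_7 g_p11_13B g_p11_23B s1 s2
                omega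
              · rcases g_p13_22B with g_p13_22B | g_p13_22B | g_p13_22B | g_p13_22B | g_p13_22B | g_p13_22B
                · clear * - e1 g_p13_22B
                  omega
                · clear * - e2 g_p13_22B
                  omega
                · clear * - b_f11_0 b_f11_1 b_f13_0 b_f13_3 e0 e2 g_f13_5 g_f23_7 g_p11_23B g_p13_22B g_t23
                  omega
                · clear * - b_f11_0 b_f11_1 b_f13_3 b_o0 g_f22_2 g_f23_7 g_p11_23B g_p13_22B g_t23 s2
                  omega
                · clear * - g_f22_5 g_p11_23B g_p13_22B s2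
                  omega
                · clear * - b_f11_2 b_f22_6 b_f23_9 b_o1 g_f22_5 g_f23_7 g_p11_23B g_p13_22B s3
                  omega
              · clear * - b_b3 b_f11_0 b_f11_1 b_f13_4 g_f23_7 g_p11_23B s2
                omega
            · clear * - b_b3 b_f11_0 b_f11_1 g_p11_13B g_p11_23B s2
              omega
            · clear * - b_f23_9 g_p11_13B s3
              omega
      · rcases g_f22_2 with g_f22_2 | g_f22_2
        · rcases g_f22_5 with g_f22_5 | g_f22_5
          · clear * - b_a1 b_f13_0 b_f13_3 b_f22_4 g_f22_2 g_f22_5 g_p11_23B s2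
            omega
          · rcases g_p13_22B with g_p13_22B | g_p13_22B | g_p13_22B | g_p13_22B | g_p13_22B | g_p13_22B
            · clear * - e1 g_p13_22B
              omega
            · clear * - e2 g_p13_22B
              omega
            · clear * - b_a1 b_f22_1 e1 g_f22_2 g_p13_22B
              omega
            · clear * - b_f11_0 b_f23_0 g_f22_2 g_p13_22B s1
              omega
            · clear * - g_f22_5 g_p11_23B g_p13_22B s2
              omega
            · rcases g_p11_22B with g_p11_22B | g_p11_22B | g_p11_22B | g_p11_22B | g_p11_22B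
              · clear * - e0 g_p11_22B
                omega
              · clear * - b_a1 b_f22_1 b_o0 e0 g_f22_2 g_p11_22B
                omega
              · clear * - b_a1 b_f11_0 b_o0 g_f22_2 g_p11_22B
                omega
              · clear * - b_f11_2 b_f22_6 b_f23_9 g_f22_5 g_p11_22B g_p13_22B s3
                omega
              · clear * - b_f13_7 b_f22_6 b_f23_9 g_f22_5 g_p11_22B g_t23' s3
                omega
        · rcases g_f22_5 with g_f22_5 | g_f22_5
          · clear * - b_b3 b_f22_4 g_f22_2 g_f22_5 g_t23
            omega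
          · rcases g_p11_13B with g_p11_13B | g_p11_13B | g_p11_13B | g_p11_13B | g_p11_13B | g_p11_13B
            · clear * - e0 g_p11_13B
              omega
            · clear * - e1 g_p11_13B
              omega
            · clear * - e2 g_p11_13B
              omega
            · rcases g_f23_7 with g_f23_7 | g_f23_7 | g_f23_7
              · clear * - b_f11_0 b_f11_1 b_f13_3 g_f23_7 g_p11_13B g_p11_23B s1 s2
                omega
              · rcases g_p13_22B with g_p13_22B | g_p13_22B | g_p13_22B | g_p13_22B | g_p13_22B | g_p13_22B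
                · clear * - e1 g_p13_22B
                  omega
                · clear * - e2 g_p13_22B
                  omega
                · clear * - b_f11_0 b_f11_1 b_f13_3 b_f23_1 e0 e2 g_f13_5 g_f23_7 g_p11_13B g_p11_23B g_p13_22B s1
                  omega
                · clear * - b_f11_0 b_f11_1 b_f13_3 b_f23_1 g_f22_2 g_f23_7 g_p11_13B g_p11_23B g_p13_22B s1 s2
                  omega
                · clear * - g_f22_5 g_p11_23B g_p13_22B s2
                  omega
                · clear * - b_f11_2 b_f22_6 b_f23_9 b_o1 g_f22_5 g_f23_7 g_p11_23B g_p13_22B s3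
                  omega
              · clear * - b_b3 b_f11_0 b_f11_1 b_f13_4 g_f23_7 g_p11_23B s2
                omega
            · clear * - b_b3 b_f11_0 b_f11_1 g_p11_13B g_p11_23B s2
              omega
            · clear * - b_f23_9 g_p11_13B s3
              omega
    · clear * - b_f13_7 g_p11_23B s3
      omega

end Pool.Agent.Helper78.TQ
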