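import Pool.Agent.Helper89.TQ.Ctx

set_option autoImplicit false
set_option linter.all false
set_option maxHeartbeats 4000000
set_option maxRecDepth 10000

namespace Pool.Agent.Helper78.TQ

open Pool.Agent.Helper89.TQ

theorem c0_11_13_23_k3 {n1 n2 n3 A1 A2 A3 B1 B2 B3 m11_1 m11_2 m11_3 m13_1 m13_2 m13_3 m22_1 m22_2 m22_3 m23_1 m23_2 m23_3 m33_1 m33_2 m33_3 : ℤ}
    (C : Ctx0 n1 n2 n3 A1 A2 A3 B1 B2 B3 m11_1 m11_2 m11_3 m13_1 m13_2 m13_3 m22_1 m22_2 m22_3 m23_1 m23_2 m23_3 m33_1 m33_2 m33_3)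
    (e0 : 0 < B1)
    (e1 : 0 < A1)
    (e2 : 0 < B3)
    (e3 : 0 < A2)
    (s1 : 3 * A1 + 0 * B1 ≤ m11_1 + m13_1 + m23_1)
    (s2 : 3 * A2 + 0 * B2 ≤ m11_2 + m13_2 + m23_2)
    (s3 : 3 * A3 + 0 * B3 ≤ m11_3 + m13_3 + m23_3) : False := by
  have g_f13_8 : (m13_3 = m13_2 + n3) ∨ (m13_3 = -1 + B3) := by
    have h := C.f13_8
    clear * - h
    omega
  have g_f23_7 : (m23_2 = m23_1 + n2) ∨ (m23_2 = -1 + A2) ∨ (m23_2 = -1 + B3) := by
    have h := C.f23_7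
    clear * - h
    omega
  have g_f23_10 : (m23_3 = m23_2 + n3) ∨ (m23_3 = -1 + B3) := by
    have h := C.f23_10
    clear * - h
    omega
  have g_p13_23A : (0 ≥ A1) ∨ (0 ≥ B3) ∨ (0 ≥ A2) ∨ (2 * A1 > m13_1 + m23_1) ∨ (2 * A2 > m13_2 + m23_2) ∨ (2 * A3 > m13_3 + m23_3) := by
    have h := C.p13_23A
    clear * - h
    omega
  have g_tmpp : (1 + A1 > n1) ∨ (2 + A1 > A2) ∨ (1 > B1) ∨ (2 + B2 > B1 + n2) := by
    have h := C.tmpp
    clear * - h
    omega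
  have b_b5 := C.b5
  have b_o0 := C.o0
  have b_o1 := C.o1
  have b_o2 := C.o2
  have b_f11_0 := C.f11_0
  have b_f11_1 := C.f11_1
  have b_f11_2 := C.f11_2
  have b_f13_0 := C.f13_0
  have b_f13_3 := C.f13_3
  have b_f13_4 := C.f13_4
  have b_f13_7 := C.f13_7
  have b_f23_0 := C.f23_0
  have b_f23_1 := C.f23_1
  have b_f23_5 := C.f23_5
  clear C
  rcases g_tmpp with g_tmpp | g_tmpp | g_tmpp | g_tmpp
  · clear * - b_f11_0 b_f13_0 b_f23_0 b_o0 g_tmpp s1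
    omega
  · clear * - b_f11_0 b_f13_0 b_f23_1 b_o0 g_tmpp s1
    omega
  · clear * - e0 g_tmpp
    omega
  · rcases g_f13_8 with g_f13_8 | g_f13_8
    · clear * - b_b5 b_f11_0 b_f11_1 b_f13_7 b_f23_5 b_o1 g_f13_8 g_tmpp s2
      omega
    · rcases g_p13_23A with g_p13_23A | g_p13_23A | g_p13_23A | g_p13_23A | g_p13_23A | g_p13_23A
      · clear * - e1 g_p13_23A
        omega
      · clear * - e2 g_p13_23A
        omega
      · clear * - e3 g_p13_23A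
        omega
      · clear * - b_f11_0 b_o0 g_p13_23A s1
        omega
      · clear * - b_f11_0 b_f11_1 b_o1 g_p13_23A g_tmpp s2
        omega
      · rcases g_f23_10 with g_f23_10 | g_f23_10
        · rcases g_f23_7 with g_f23_7 | g_f23_7 | g_f23_7
          · clear * - b_f11_0 b_f11_1 b_f11_2 b_f13_0 b_f13_3 b_o1 b_o2 g_f13_8 g_f23_10 g_f23_7 g_p13_23A g_tmpp s1 s2 s3
            omega
          · clear * - b_f11_0 b_f11_1 b_f11_2 b_o1 b_o2 g_f13_8 g_f23_10 g_f23_7 g_p13_23A g_tmpp s3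
            omega
          · clear * - b_f11_0 b_f11_1 b_f11_2 b_f13_4 b_o1 b_o2 g_f13_8 g_f23_10 g_f23_7 g_p13_23A g_tmpp s2 s3
            omega
        · clear * - b_o2 g_f13_8 g_f23_10 g_p13_23A
          omega

end Pool.Agent.Helper78.TQ
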