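import Pool.Agent.Helper89.TQ.Ctx

set_option autoImplicit false
set_option linter.all false
set_option maxHeartbeats 4000000
set_option maxRecDepth 10000

namespace Pool.Agent.Helper78.TQ

open Pool.Agent.Helper89.TQ

theorem c0_11_22_23_k3 {n1 n2 n3 A1 A2 A3 B1 B2 B3 m11_1 m11_2 m11_3 m13_1 m13_2 m13_3 m22_1 m22_2 m22_3 m23_1 m23_2 m23_3 m33_1 m33_2 m33_3 : ℤ}
    (C : Ctx0 n1 n2 n3 A1 A2 A3 B1 B2 B3 m11_1 m11_2 m11_3 m13_1 m13_2 m13_3 m22_1 m22_2 m22_3 m23_1 m23_2 m23_3 m33_1 m33_2 m33_3)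
    (e0 : 0 < B1)
    (e1 : 0 < B2)
    (e2 : 0 < A2)
    (e3 : 0 < B3)
    (s1 : 3 * A1 + 0 * B1 ≤ m11_1 + m22_1 + m23_1)
    (s2 : 3 * A2 + 0 * B2 ≤ m11_2 + m22_2 + m23_2)
    (s3 : 3 * A3 + 0 * B3 ≤ m11_3 + m22_3 + m23_3) : False := by
  have g_tmpp : (1 + A1 > n1) ∨ (2 + A1 > A2) ∨ (1 > B1) ∨ (2 + B2 > B1 + n2) := by
    have h := C.tmpp
    clear * - h
    omega
  have b_o0 := C.o0
  have b_o1 := C.o1
  have b_f11_0 := C.f11_0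
  have b_f11_1 := C.f11_1
  have b_f22_0 := C.f22_0
  have b_f22_1 := C.f22_1
  have b_f22_4 := C.f22_4
  have b_f23_0 := C.f23_0
  have b_f23_1 := C.f23_1
  have b_f23_5 := C.f23_5
  clear C
  rcases g_tmpp with g_tmpp | g_tmpp | g_tmpp | g_tmpp
  · clear * - b_f11_0 b_f22_0 b_f23_0 b_o0 g_tmpp s1
    omega
  · clear * - b_f11_0 b_f22_1 b_f23_1 b_o0 b_o1 g_tmpp s1
    omega
  · clear * - e0 g_tmpp
    omega
  · clear * - b_f11_0 b_f11_1 b_f22_4 b_f23_5 b_o1 g_tmpp s2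
    omega

end Pool.Agent.Helper78.TQ
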