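import Pool.Agent.Helper89.TQ.Ctx

set_option autoImplicit false
set_option linter.all false
set_option maxHeartbeats 4000000
set_option maxRecDepth 10000

namespace Pool.Agent.Helper78.TQ

open Pool.Agent.Helper89.TQ

theorem c0_11_23_33_k3 {n1 n2 n3 A1 A2 A3 B1 B2 B3 m11_1 m11_2 m11_3 m13_1 m13_2 m13_3 m22_1 m22_2 m22_3 m23_1 m23_2 m23_3 m33_1 m33_2 m33_3 : ℤ}
    (C : Ctx0 n1 n2 n3 A1 A2 A3 B1 B2 B3 m11_1 m11_2 m11_3 m13_1 m13_2 m13_3 m22_1 m22_2 m22_3 m23_1 m23_2 m23_3 m33_1 m33_2 m33_3)
    (e0 : 0 < B1)
    (e1 : 0 < A2)
    (e2 : 0 < B3)
    (e3 : 0 < A3)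
    (s1 : 3 * A1 + 0 * B1 ≤ m11_1 + m23_1 + m33_1)
    (s2 : 3 * A2 + 0 * B2 ≤ m11_2 + m23_2 + m33_2)
    (s3 : 3 * A3 + 0 * B3 ≤ m11_3 + m23_3 + m33_3) : F1 n1 n2 n3 A1 A2 A3 B1 B2 B3 ∨ F2 n1 n2 n3 A1 A2 A3 B1 B2 B3 := by
  by_contra hcon
  have g_f13_2 : (m13_1 = -1 + A1) ∨ (m13_1 = -1 + B3) := by
    have h := C.f13_2
    clear * - h
    omega
  have g_f13_5 : (m13_2 = m13_1 + n2) ∨ (m13_2 = -1 + B3) := by
    have h := C.f13_5
    clear * - h
    omega
  have g_f13_8 : (m13_3 = m13_2 + n3) ∨ (m13_3 = -1 + B3) := by
    have h := C.f13_8
    clear * - h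
    omega
  have g_f22_2 : (m22_1 = n1) ∨ (m22_1 = -1 + B2) := by
    have h := C.f22_2
    clear * - h
    omega
  have g_f22_5 : (m22_2 = m22_1 + n2) ∨ (m22_2 = -1 + B2) := by
    have h := C.f22_5
    clear * - h
    omega
  have g_f23_7 : (m23_2 = m23_1 + n2) ∨ (m23_2 = -1 + A2) ∨ (m23_2 = -1 + B3) := by
    have h := C.f23_7
    clear * - h
    omega
  have g_f23_10 : (m23_3 = m23_2 + n3) ∨ (m23_3 = -1 + B3) := by
    have h := C.f23_10
    clear * - h
    omega
  have g_f33_2 : (m33_1 = n1) ∨ (m33_1 = -1 + A3) := by
    have h := C.f33_2
    clear * - h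
    omega
  have g_f33_5 : (m33_2 = m33_1 + n2) ∨ (m33_2 = -1 + A3) := by
    have h := C.f33_5
    clear * - h
    omega
  have g_f33_8 : (m33_3 = m33_2 + n3) ∨ (m33_3 = -1 + A3) := by
    have h := C.f33_8
    clear * - h
    omega
  have g_p11_13B : (0 ≥ B1) ∨ (0 ≥ A1) ∨ (0 ≥ B3) ∨ (2 * B1 > m11_1 + m13_1) ∨ (2 * B2 > m11_2 + m13_2) ∨ (2 * B3 > m11_3 + m13_3) := by
    have h := C.p11_13B
    clear * - h
    omega
  have g_p11_22B : (0 ≥ B1) ∨ (0 ≥ B2) ∨ (2 * B1 > m11_1 + m22_1) ∨ (2 * B2 > m11_2 + m22_2) ∨ (2 * B3 > m11_3 + m22_3) := by
    have h := C.p11_22B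
    clear * - h
    omega
  have g_p11_33A : (0 ≥ B1) ∨ (0 ≥ A3) ∨ (2 * A1 > m11_1 + m33_1) ∨ (2 * A2 > m11_2 + m33_2) ∨ (2 * A3 > m11_3 + m33_3) := by
    have h := C.p11_33A
    clear * - h
    omega
  have g_p13_22A : (0 ≥ A1) ∨ (0 ≥ B3) ∨ (0 ≥ B2) ∨ (2 * A1 > m13_1 + m22_1) ∨ (2 * A2 > m13_2 + m22_2) ∨ (2 * A3 > m13_3 + m22_3) := by
    have h := C.p13_22A
    clear * - h
    omega
  have g_p13_23A : (0 ≥ A1) ∨ (0 ≥ B3) ∨ (0 ≥ A2) ∨ (2 * A1 > m13_1 + m23_1) ∨ (2 * A2 > m13_2 + m23_2) ∨ (2 * A3 > m13_3 + m23_3) := by
    have h := C.p13_23A
    clear * - h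
    omega
  have g_p22_33A : (0 ≥ B2) ∨ (0 ≥ A3) ∨ (2 * A1 > m22_1 + m33_1) ∨ (2 * A2 > m22_2 + m33_2) ∨ (2 * A3 > m22_3 + m33_3) := by
    have h := C.p22_33A
    clear * - h
    omega
  have g_tmpp : (1 + A1 > n1) ∨ (2 + A1 > A2) ∨ (1 > B1) ∨ (2 + B2 > B1 + n2) := by
    have h := C.tmpp
    clear * - h
    omega
  have g_F1 : (1 + A1 > n1) ∨ (1 - 2 * A1 + 2 * n1 > n1) ∨ (3 > n2) ∨ (3 - 2 * A1 + 2 * n1 > n3) ∨ (-A1 + A2 < -1 + n2) ∨ (-A1 + A2 > -1 + n2) ∨ (-A2 + A3 < -1 + A1 - n1 + n3) ∨ (-A2 + A3 > -1 + A1 - n1 + n3) ∨ (B1 < 2 * A1 - n1) ∨ (B1 > 2 * A1 - n1) ∨ (-B1 + B2 < -1 + n2) ∨ (-B1 + B2 > -1 + n2) ∨ (-B2 + B3 < n3) ∨ (-B2 + B3 > n3) := by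
    have h : ¬ F1 n1 n2 n3 A1 A2 A3 B1 B2 B3 := fun h => hcon (Or.inl h)
    unfold F1 at h
    clear * - h
    omega
  have b_a0 := C.a0
  have b_a1 := C.a1
  have b_a2 := C.a2
  have b_a3 := C.a3
  have b_a4 := C.a4
  have b_b2 := C.b2
  have b_b3 := C.b3
  have b_b4 := C.b4
  have b_b5 := C.b5
  have b_o0 := C.o0
  have b_o1 := C.o1
  have b_o2 := C.o2
  have b_f11_0 := C.f11_0
  have b_f11_1 := C.f11_1
  have b_f11_2 := C.f11_2
  have b_f13_0 := C.f13_0
  have b_f13_3 := C.f13_3
  have b_f13_7 := C.f13_7
  have b_f22_1 := C.f22_1
  have b_f22_4 := C.f22_4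
  have b_f22_6 := C.f22_6
  have b_f23_0 := C.f23_0
  have b_f23_1 := C.f23_1
  have b_f23_5 := C.f23_5
  have b_f23_8 := C.f23_8
  have b_f23_9 := C.f23_9
  have b_f33_0 := C.f33_0
  have b_f33_1 := C.f33_1
  have b_f33_3 := C.f33_3
  have b_f33_4 := C.f33_4
  have b_f33_7 := C.f33_7
  clear C
  rcases g_f13_2 with g_f13_2 | g_f13_2
  · rcases g_f13_5 with g_f13_5 | g_f13_5
    · rcases g_p11_33A with g_p11_33A | g_p11_33A | g_p11_33A | g_p11_33A | g_p11_33A
      · clear * - e0 g_p11_33A
        omega
      · clear * - e3 g_p11_33A
        omega
      · rcases g_f33_8 with g_f33_8 | g_f33_8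
        · rcases g_tmpp with g_tmpp | g_tmpp | g_tmpp | g_tmpp
          · clear * - b_f11_0 b_f23_0 b_f33_0 b_o0 g_tmpp s1
            omega
          · clear * - b_f23_1 g_p11_33A g_tmpp s1
            omega
          · clear * - e0 g_tmpp
            omega
          · clear * - b_b5 b_f11_0 b_f11_1 b_f23_5 b_f33_7 b_o1 b_o2 g_f33_8 g_tmpp s2
            omega
        · rcases g_f13_8 with g_f13_8 | g_f13_8
          · clear * - b_b3 b_b5 b_f13_7 b_o0 g_f13_2 g_f13_5 g_f13_8
            omega
          · rcases g_tmpp with g_tmpp | g_tmpp | g_tmpp | g_tmpp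
            · clear * - b_f23_0 g_p11_33A g_tmpp s1
              omega
            · clear * - b_f23_1 g_p11_33A g_tmpp s1
              omega
            · clear * - e0 g_tmpp
              omega
            · rcases g_f22_2 with g_f22_2 | g_f22_2
              · rcases g_f22_5 with g_f22_5 | g_f22_5
                · clear * - b_a3 b_f11_0 b_f22_4 b_f23_0 b_f33_0 b_o0 b_o1 g_f22_2 g_f22_5 s1
                  omega
                · rcases g_f33_2 with g_f33_2 | g_f33_2
                  · rcases g_f23_7 with g_f23_7 | g_f23_7 | g_f23_7
                    · clear * - b_f11_1 b_f23_5 b_f33_3 g_f23_7 g_p11_33A s1 s2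
                      omega
                    · rcases g_p22_33A with g_p22_33A | g_p22_33A | g_p22_33A | g_p22_33A | g_p22_33A
                      · clear * - b_a0 b_a1 b_f22_1 g_f22_2 g_p22_33A
                        omega
                      · clear * - e3 g_p22_33A
                        omega
                      · clear * - b_f11_0 b_f23_0 b_o0 g_f22_2 g_p22_33A s1
                        omega
                      · clear * - b_f11_0 b_f11_1 b_f23_5 g_f22_5 g_p22_33A g_tmpp s2
                        omega
                      · rcases g_p13_23A with g_p13_23A | g_p13_23A | g_p13_23A | g_p13_23A | g_p13_23A | g_p13_23A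
                        · clear * - b_o0 e0 g_p13_23A
                          omega
                        · clear * - e2 g_p13_23A
                          omega
                        · clear * - e1 g_p13_23A
                          omega
                        · clear * - g_f13_2 g_p11_33A g_p13_23A s1
                          omega
                        · rcases g_F1 with g_F1 | g_F1 | g_F1 | g_F1 | g_F1 | g_F1 | g_F1 | g_F1 | g_F1 | g_F1 | g_F1 | g_F1 | g_F1 | g_F1
                          · clear * - b_f11_0 b_f23_0 b_f33_0 b_o0 g_F1 s1
                            omega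
                          · clear * - b_f11_0 e0 g_F1 g_f33_2 g_p11_33A
                            omega
                          · clear * - b_b3 b_f11_0 b_f22_1 b_f23_0 b_f33_0 b_o0 g_F1 g_f22_2 s1
                            omega
                          · clear * - b_b5 b_f11_1 b_f11_2 b_f22_6 b_f23_9 b_f33_4 g_F1 g_f13_2 g_f13_5 g_f22_5 g_f23_7 g_f33_2 g_p11_33A g_p13_23A g_p22_33A s2 s3
                            omega
                          · clear * - g_F1 g_f13_2 g_f13_5 g_f23_7 g_p13_23A
                            omega
                          · clear * - b_f11_1 b_f23_5 b_f33_3 g_F1 g_p11_33A s2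
                            omega
                          · clear * - b_f11_0 b_f11_1 b_f22_6 b_f33_0 b_f33_3 g_F1 g_f13_2 g_f13_5 g_f22_5 g_f33_8 g_p13_23A g_p22_33A g_tmpp s2
                            omega
                          · clear * - b_b5 b_f11_1 b_f11_2 b_f22_6 b_f23_9 g_F1 g_f13_2 g_f13_5 g_f22_5 g_f23_7 g_f33_2 g_p11_33A g_p13_23A g_p22_33A s3
                            omega
                          · clear * - b_f11_0 b_f11_1 b_f33_0 b_f33_3 g_F1 g_f13_2 g_f13_5 g_f23_7 g_p13_23A s2
                            omega
                          · clear * - b_f11_0 g_F1 g_f33_2 g_p11_33A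
                            omega
                          · clear * - g_F1 g_tmpp
                            omega
                          · clear * - b_b5 b_f11_0 b_f11_1 b_f11_2 b_f22_6 b_f23_9 g_F1 g_f22_5 g_f33_8 g_p22_33A s3
                            omega
                          · clear * - b_f11_0 b_f11_1 b_f11_2 b_f22_6 b_f23_9 g_F1 g_f22_5 g_f33_8 g_p22_33A g_tmpp s3
                            omega
                          · clear * - b_b5 g_F1
                            omega
                        · clear * - b_f11_0 b_f11_1 b_f11_2 b_f22_6 b_f23_9 g_f13_8 g_f22_5 g_p13_23A g_p22_33A g_tmpp s3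
                          omega
                    · clear * - b_b4 b_f11_0 b_f11_1 b_f23_5 b_f33_4 b_o2 g_f23_7 g_tmpp s2
                      omega
                  · clear * - b_f11_0 b_f11_1 b_f22_1 b_f23_5 b_f33_0 b_f33_4 b_o1 g_f22_2 g_f33_2 g_tmpp s2
                    omega
              · rcases g_p13_22A with g_p13_22A | g_p13_22A | g_p13_22A | g_p13_22A | g_p13_22A | g_p13_22A
                · clear * - b_o0 e0 g_p13_22A
                  omega
                · clear * - e2 g_p13_22A
                  omega
                · clear * - b_b2 e0 g_p13_22A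
                  omega
                · rcases g_f22_5 with g_f22_5 | g_f22_5
                  · clear * - b_f11_1 b_f22_4 b_f23_1 b_f23_5 b_f33_3 g_f22_2 g_f22_5 g_p11_33A s1 s2
                    omega
                  · rcases g_p22_33A with g_p22_33A | g_p22_33A | g_p22_33A | g_p22_33A | g_p22_33A
                    · clear * - b_f11_1 b_f23_1 b_f23_5 b_f33_3 e0 g_p11_33A g_p22_33A g_tmpp s1 s2
                      omega
                    · clear * - e3 g_p22_33A
                      omega
                    · clear * - b_f11_0 b_f11_1 b_f23_1 b_f23_5 b_f33_3 g_f22_2 g_p11_33A g_p22_33A g_tmpp s1 s2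
                      omega
                    · clear * - b_f11_0 b_f11_1 b_f23_5 g_f22_5 g_p22_33A g_tmpp s2
                      omega
                    · rcases g_p13_23A with g_p13_23A | g_p13_23A | g_p13_23A | g_p13_23A | g_p13_23A | g_p13_23A
                      · clear * - b_f11_1 b_f23_1 b_f23_5 b_f33_3 e0 g_f13_2 g_f22_2 g_p11_33A g_p13_22A g_p13_23A g_tmpp s1 s2
                        omega
                      · clear * - e2 g_p13_23A
                        omega
                      · clear * - e1 g_p13_23A
                        omega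
                      · clear * - g_f13_2 g_p11_33A g_p13_23A s1
                        omega
                      · rcases g_F1 with g_F1 | g_F1 | g_F1 | g_F1 | g_F1 | g_F1 | g_F1 | g_F1 | g_F1 | g_F1 | g_F1 | g_F1 | g_F1 | g_F1
                        · clear * - b_f23_0 g_F1 g_p11_33A s1
                          omega
                        · rcases g_f33_2 with g_f33_2 | g_f33_2
                          · clear * - b_f11_0 e0 g_F1 g_f33_2 g_p11_33A
                            omega
                          · clear * - b_f11_1 b_f23_1 b_f33_4 g_f13_2 g_f13_5 g_f33_2 g_p11_33A g_p13_23A s1 s2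
                            omega
                        · clear * - b_f11_1 b_f23_1 b_f33_3 g_F1 g_f13_2 g_f13_5 g_p11_33A g_p13_23A s1 s2
                          omega
                        · rcases g_f33_2 with g_f33_2 | g_f33_2
                          · rcases g_f23_7 with g_f23_7 | g_f23_7 | g_f23_7
                            · clear * - b_a3 g_f13_2 g_f13_5 g_f23_7 g_p11_33A g_p13_23A s1
                              omega
                            · clear * - b_b3 b_b5 b_f11_0 b_f11_1 b_f11_2 b_f23_9 b_f33_4 b_f33_7 g_F1 g_f13_2 g_f13_5 g_f23_7 g_f33_2 g_p11_33A g_p13_23A s2 s3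
                              omega
                            · clear * - b_a1 b_f11_1 b_f11_2 b_f23_9 b_f33_4 b_f33_7 g_F1 g_f13_2 g_f13_5 g_f23_7 g_f33_2 g_p11_33A g_p13_23A s2 s3
                              omega
                          · clear * - b_f11_1 b_f23_1 b_f33_4 g_f13_2 g_f13_5 g_f33_2 g_p11_33A g_p13_23A s1 s2
                            omega
                        · rcases g_f23_7 with g_f23_7 | g_f23_7 | g_f23_7
                          · clear * - g_F1 g_f13_2 g_f13_5 g_f23_7 g_p11_33A g_p13_23A s1
                            omega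
                          · clear * - g_F1 g_f13_2 g_f13_5 g_f23_7 g_p13_23A
                            omega
                          · clear * - b_f11_0 b_f11_1 b_f23_1 b_f33_4 b_o2 g_F1 g_f13_2 g_f13_5 g_f22_2 g_f23_7 g_p11_33A g_p13_22A g_p13_23A g_tmpp s1 s2
                            omega
                        · clear * - b_f11_1 b_f23_5 b_f33_3 g_F1 g_p11_33A s2
                          omega
                        · clear * - b_f11_0 b_f11_1 b_f22_6 b_f33_0 b_f33_3 g_F1 g_f13_2 g_f13_5 g_f22_5 g_f33_8 g_p13_23A g_p22_33A g_tmpp s2
                          omega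
                        · rcases g_f23_7 with g_f23_7 | g_f23_7 | g_f23_7
                          · clear * - b_f11_1 b_f33_3 g_f13_2 g_f13_5 g_f23_7 g_p11_33A g_p13_23A s1 s2
                            omega
                          · rcases g_f33_2 with g_f33_2 | g_f33_2
                            · clear * - b_b5 b_f11_1 b_f11_2 b_f22_6 b_f23_9 g_F1 g_f13_2 g_f13_5 g_f22_5 g_f23_7 g_f33_2 g_p11_33A g_p13_23A g_p22_33A s3
                              omega
                            · clear * - b_f11_1 b_f23_1 b_f33_4 g_f13_2 g_f13_5 g_f33_2 g_p11_33A g_p13_23A s1 s2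
                              omega
                          · clear * - b_f11_0 b_f11_1 b_f11_2 b_f22_6 b_f23_1 b_f23_5 b_f23_9 b_f33_4 g_f13_2 g_f22_2 g_f22_5 g_f23_7 g_p11_33A g_p13_22A g_p22_33A g_tmpp s1 s2 s3
                            omega
                        · rcases g_f23_7 with g_f23_7 | g_f23_7 | g_f23_7
                          · clear * - b_a3 b_f11_0 b_f23_5 b_f33_0 g_F1 g_f23_7 s1
                            omega
                          · clear * - b_f11_0 b_f11_1 b_f33_0 b_f33_3 g_F1 g_f13_2 g_f13_5 g_f23_7 g_p13_23A s2
                            omega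
                          · clear * - b_a2 b_f11_0 b_f11_1 b_f11_2 b_f22_6 b_f23_5 b_f23_9 b_f33_4 g_f13_2 g_f22_2 g_f22_5 g_f23_7 g_p13_22A g_p22_33A g_tmpp s2 s3
                            omega
                        · rcases g_f33_2 with g_f33_2 | g_f33_2
                          · clear * - b_f11_0 g_F1 g_f33_2 g_p11_33A
                            omega
                          · clear * - b_f11_1 b_f23_1 b_f33_4 g_f13_2 g_f13_5 g_f33_2 g_p11_33A g_p13_23A s1 s2
                            omega
                        · clear * - g_F1 g_tmpp
                          omega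
                        · clear * - b_b5 b_f11_0 b_f11_1 b_f11_2 b_f22_6 b_f23_9 g_F1 g_f22_5 g_f33_8 g_p22_33A s3
                          omega
                        · clear * - b_f11_0 b_f11_1 b_f11_2 b_f22_6 b_f23_9 g_F1 g_f22_5 g_f33_8 g_p22_33A g_tmpp s3
                          omega
                        · clear * - b_b5 g_F1
                          omega
                      · clear * - b_f11_0 b_f11_1 b_f11_2 b_f22_6 b_f23_9 g_f13_8 g_f22_5 g_p13_23A g_p22_33A g_tmpp s3
                        omega
                · rcases g_f22_5 with g_f22_5 | g_f22_5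
                  · clear * - b_a3 b_f22_4 b_f23_1 g_f22_2 g_f22_5 g_p11_33A s1
                    omega
                  · rcases g_F1 with g_F1 | g_F1 | g_F1 | g_F1 | g_F1 | g_F1 | g_F1 | g_F1 | g_F1 | g_F1 | g_F1 | g_F1 | g_F1 | g_F1
                    · clear * - b_f23_0 g_F1 g_p11_33A s1
                      omega
                    · rcases g_f33_2 with g_f33_2 | g_f33_2
                      · clear * - b_f11_0 e0 g_F1 g_f33_2 g_p11_33A
                        omega
                      · rcases g_p13_23A with g_p13_23A | g_p13_23A | g_p13_23A | g_p13_23A | g_p13_23A | g_p13_23A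
                        · clear * - b_f11_1 b_f23_1 b_f23_5 b_f33_4 e0 g_f13_2 g_f13_5 g_f22_5 g_f33_2 g_p11_33A g_p13_22A g_p13_23A g_tmpp s1 s2
                          omega
                        · clear * - e2 g_p13_23A
                          omega
                        · clear * - e1 g_p13_23A
                          omega
                        · clear * - g_f13_2 g_p11_33A g_p13_23A s1
                          omega
                        · clear * - b_f11_1 b_f23_1 b_f33_4 g_f13_2 g_f13_5 g_f33_2 g_p11_33A g_p13_23A s1 s2
                          omega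
                        · rcases g_f23_10 with g_f23_10 | g_f23_10
                          · clear * - b_f11_0 b_f11_1 b_f11_2 b_f23_1 b_f33_4 b_f33_7 b_o2 g_f13_2 g_f13_5 g_f13_8 g_f22_5 g_f23_10 g_f33_2 g_p11_33A g_p13_22A g_p13_23A g_tmpp s1 s2 s3
                            omega
                          · clear * - b_o2 g_f13_8 g_f23_10 g_p13_23A
                            omega
                    · clear * - b_f11_1 b_f23_1 b_f23_5 b_f33_3 g_F1 g_p11_33A s1 s2
                      omega
                    · rcases g_p22_33A with g_p22_33A | g_p22_33A | g_p22_33A | g_p22_33A | g_p22_33A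
                      · clear * - b_a3 b_f23_1 e0 g_p11_33A g_p22_33A g_tmpp s1
                        omega
                      · clear * - e3 g_p22_33A
                        omega
                      · clear * - b_f11_0 b_f11_1 b_f23_1 b_f23_5 b_f33_3 g_f22_2 g_p11_33A g_p22_33A g_tmpp s1 s2
                        omega
                      · clear * - b_f11_0 b_f11_1 b_f23_5 g_f22_5 g_p22_33A g_tmpp s2
                        omega
                      · rcases g_p13_23A with g_p13_23A | g_p13_23A | g_p13_23A | g_p13_23A | g_p13_23A | g_p13_23A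
                        · clear * - b_o0 e0 g_p13_23A
                          omega
                        · clear * - e2 g_p13_23A
                          omega
                        · clear * - e1 g_p13_23A
                          omega
                        · clear * - g_f13_2 g_p11_33A g_p13_23A s1
                          omega
                        · rcases g_f23_7 with g_f23_7 | g_f23_7 | g_f23_7
                          · clear * - b_a3 g_f13_2 g_f13_5 g_f23_7 g_p11_33A g_p13_23A s1
                            omega
                          · rcases g_f33_2 with g_f33_2 | g_f33_2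
                            · clear * - b_b5 b_f11_1 b_f11_2 b_f22_6 b_f23_9 b_f33_4 g_F1 g_f13_2 g_f13_5 g_f22_5 g_f23_7 g_f33_2 g_p11_33A g_p13_23A g_p22_33A s2 s3
                              omega
                            · clear * - b_f11_1 b_f23_1 b_f33_4 g_f13_2 g_f13_5 g_f33_2 g_p11_33A g_p13_23A s1 s2
                              omega
                          · clear * - b_f11_0 b_f11_1 b_f11_2 b_f22_6 b_f23_5 b_f23_9 b_f33_4 b_o0 g_f13_2 g_f13_5 g_f22_5 g_f23_7 g_p13_23A g_p22_33A g_tmpp s2 s3
                            omega
                        · clear * - b_f11_0 b_f11_1 b_f11_2 b_f22_6 b_f23_9 g_f13_8 g_f22_5 g_p13_23A g_p22_33A g_tmpp s3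
                          omega
                    · rcases g_f23_7 with g_f23_7 | g_f23_7 | g_f23_7
                      · clear * - b_f23_5 g_F1 g_f23_7 g_p11_33A s1
                        omega
                      · rcases g_p13_23A with g_p13_23A | g_p13_23A | g_p13_23A | g_p13_23A | g_p13_23A | g_p13_23A
                        · clear * - e0 g_F1 g_f13_2 g_f13_5 g_f22_5 g_p13_22A g_p13_23A g_tmpp
                          omega
                        · clear * - e2 g_p13_23A
                          omega
                        · clear * - e1 g_p13_23A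
                          omega
                        · clear * - g_f13_2 g_p11_33A g_p13_23A s1
                          omega
                        · clear * - g_F1 g_f13_2 g_f13_5 g_f23_7 g_p13_23A
                          omega
                        · rcases g_f23_10 with g_f23_10 | g_f23_10
                          · clear * - b_f11_0 b_f11_1 b_f11_2 b_f33_7 b_o2 g_F1 g_f13_2 g_f13_5 g_f13_8 g_f22_5 g_f23_10 g_f23_7 g_p13_22A g_p13_23A g_tmpp s3
                            omega
                          · clear * - b_o2 g_f13_8 g_f23_10 g_p13_23A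
                            omega
                      · clear * - b_f11_0 b_f11_1 b_f23_5 b_f33_4 b_o2 g_F1 g_f13_2 g_f13_5 g_f22_5 g_f23_7 g_p13_22A g_tmpp s2
                        omega
                    · clear * - b_f11_1 b_f23_5 b_f33_3 g_F1 g_p11_33A s2
                      omega
                    · rcases g_p22_33A with g_p22_33A | g_p22_33A | g_p22_33A | g_p22_33A | g_p22_33A
                      · clear * - b_b2 e0 g_p22_33A
                        omega
                      · clear * - e3 g_p22_33A
                        omega
                      · clear * - b_f11_0 b_f11_1 b_f23_1 b_f23_5 b_f33_3 g_f22_2 g_p11_33A g_p22_33A g_tmpp s1 s2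
                        omega
                      · clear * - b_f11_0 b_f11_1 b_f23_5 g_f22_5 g_p22_33A g_tmpp s2
                        omega
                      · rcases g_p13_23A with g_p13_23A | g_p13_23A | g_p13_23A | g_p13_23A | g_p13_23A | g_p13_23A
                        · clear * - b_f11_0 b_f11_1 b_f22_6 b_f23_0 b_f23_5 b_f33_0 b_f33_3 e0 g_F1 g_f22_5 g_f33_8 g_p13_23A g_p22_33A g_tmpp s1 s2
                          omega
                        · clear * - e2 g_p13_23A
                          omega
                        · clear * - e1 g_p13_23A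
                          omega
                        · clear * - b_f11_0 b_f11_1 b_f22_6 b_f23_5 b_f33_0 b_f33_3 g_F1 g_f13_2 g_f22_5 g_f33_8 g_p13_23A g_p22_33A g_tmpp s1 s2
                          omega
                        · clear * - b_f11_0 b_f11_1 b_f22_6 b_f33_0 b_f33_3 g_F1 g_f13_2 g_f13_5 g_f22_5 g_f33_8 g_p13_23A g_p22_33A g_tmpp s2
                          omega
                        · clear * - b_f11_0 b_f11_1 b_f11_2 b_f22_6 b_o2 g_f13_8 g_f22_5 g_p13_23A g_p22_33A g_tmpp s3
                          omega
                    · rcases g_f23_7 with g_f23_7 | g_f23_7 | g_f23_7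
                      · clear * - b_f11_1 b_f23_5 b_f33_3 g_f23_7 g_p11_33A s1 s2
                        omega
                      · rcases g_p22_33A with g_p22_33A | g_p22_33A | g_p22_33A | g_p22_33A | g_p22_33A
                        · clear * - b_f11_1 b_f23_1 b_f23_5 b_f33_3 e0 g_p11_33A g_p22_33A g_tmpp s1 s2
                          omega
                        · clear * - e3 g_p22_33A
                          omega
                        · clear * - b_f11_0 b_f11_1 b_f23_1 b_f23_5 b_f33_3 g_f22_2 g_p11_33A g_p22_33A g_tmpp s1 s2
                          omega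
                        · clear * - b_f11_0 b_f11_1 b_f23_5 g_f22_5 g_p22_33A g_tmpp s2
                          omega
                        · rcases g_p13_23A with g_p13_23A | g_p13_23A | g_p13_23A | g_p13_23A | g_p13_23A | g_p13_23A
                          · clear * - b_o0 e0 g_p13_23A
                            omega
                          · clear * - e2 g_p13_23A
                            omega
                          · clear * - e1 g_p13_23A
                            omega
                          · clear * - g_f13_2 g_p11_33A g_p13_23A s1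
                            omega
                          · rcases g_f33_2 with g_f33_2 | g_f33_2
                            · clear * - b_b5 b_f11_1 b_f11_2 b_f22_6 b_f23_9 g_F1 g_f13_2 g_f13_5 g_f22_5 g_f23_7 g_f33_2 g_p11_33A g_p13_23A g_p22_33A s3
                              omega
                            · clear * - b_f11_1 b_f23_1 b_f33_4 g_f13_2 g_f13_5 g_f33_2 g_p11_33A g_p13_23A s1 s2
                              omega
                          · clear * - b_f11_0 b_f11_1 b_f11_2 b_f22_6 b_f23_9 g_f13_8 g_f22_5 g_p13_23A g_p22_33A g_tmpp s3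
                            omega
                      · clear * - b_b4 b_f11_0 b_f11_1 b_f23_5 b_f33_4 b_o2 g_f23_7 g_tmpp s2
                        omega
                    · rcases g_p22_33A with g_p22_33A | g_p22_33A | g_p22_33A | g_p22_33A | g_p22_33A
                      · clear * - b_b2 e0 g_p22_33A
                        omega
                      · clear * - e3 g_p22_33A
                        omega
                      · clear * - b_a3 b_f11_0 b_f23_1 g_f22_2 g_p22_33A g_tmpp s1
                        omega
                      · clear * - b_f11_0 b_f11_1 b_f23_5 g_f22_5 g_p22_33A g_tmpp s2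
                        omega
                      · rcases g_p13_23A with g_p13_23A | g_p13_23A | g_p13_23A | g_p13_23A | g_p13_23A | g_p13_23A
                        · clear * - b_f11_0 b_f23_0 b_f33_0 e0 g_F1 g_p13_23A s1
                          omega
                        · clear * - e2 g_p13_23A
                          omega
                        · clear * - e1 g_p13_23A
                          omega
                        · clear * - b_f11_0 b_f33_0 g_F1 g_f13_2 g_p13_23A s1
                          omega
                        · rcases g_f23_7 with g_f23_7 | g_f23_7 | g_f23_7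
                          · clear * - b_a3 b_f11_0 b_f23_5 b_f33_0 g_F1 g_f23_7 s1
                            omega
                          · clear * - b_f11_0 b_f11_1 b_f33_0 b_f33_3 g_F1 g_f13_2 g_f13_5 g_f23_7 g_p13_23A s2
                            omega
                          · clear * - b_a4 b_f11_0 b_f11_1 b_f11_2 b_f22_6 b_f23_5 b_f23_9 g_f22_5 g_f23_7 g_p22_33A g_tmpp s3
                            omega
                        · clear * - b_f11_0 b_f11_1 b_f11_2 b_f22_6 b_f23_9 g_f13_8 g_f22_5 g_p13_23A g_p22_33A g_tmpp s3
                          omega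
                    · rcases g_f33_2 with g_f33_2 | g_f33_2
                      · clear * - b_f11_0 g_F1 g_f33_2 g_p11_33A
                        omega
                      · rcases g_p13_23A with g_p13_23A | g_p13_23A | g_p13_23A | g_p13_23A | g_p13_23A | g_p13_23A
                        · clear * - b_f11_1 b_f23_1 b_f23_5 b_f33_4 e0 g_f13_2 g_f13_5 g_f22_5 g_f33_2 g_p11_33A g_p13_22A g_p13_23A g_tmpp s1 s2
                          omega
                        · clear * - e2 g_p13_23A
                          omega
                        · clear * - e1 g_p13_23A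
                          omega
                        · clear * - g_f13_2 g_p11_33A g_p13_23A s1
                          omega
                        · clear * - b_f11_1 b_f23_1 b_f33_4 g_f13_2 g_f13_5 g_f33_2 g_p11_33A g_p13_23A s1 s2
                          omega
                        · rcases g_f23_10 with g_f23_10 | g_f23_10
                          · clear * - b_f11_0 b_f11_1 b_f11_2 b_f23_1 b_f33_4 b_f33_7 b_o2 g_f13_2 g_f13_5 g_f13_8 g_f22_5 g_f23_10 g_f33_2 g_p11_33A g_p13_22A g_p13_23A g_tmpp s1 s2 s3
                            omega
                          · clear * - b_o2 g_f13_8 g_f23_10 g_p13_23A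
                            omega
                    · clear * - g_F1 g_tmpp
                      omega
                    · rcases g_p22_33A with g_p22_33A | g_p22_33A | g_p22_33A | g_p22_33A | g_p22_33A
                      · clear * - b_f11_1 b_f23_1 b_f23_5 b_f33_3 e0 g_F1 g_p11_33A g_p22_33A s1 s2
                        omega
                      · clear * - e3 g_p22_33A
                        omega
                      · clear * - b_f11_0 b_f11_1 b_f23_1 b_f23_5 b_f33_3 g_F1 g_f22_2 g_p11_33A g_p22_33A s1 s2
                        omega
                      · clear * - b_f11_0 b_f11_1 b_f23_5 g_F1 g_f22_5 g_p22_33A s2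
                        omega
                      · clear * - b_b5 b_f11_0 b_f11_1 b_f11_2 b_f22_6 b_f23_9 g_F1 g_f22_5 g_f33_8 g_p22_33A s3
                        omega
                    · rcases g_p22_33A with g_p22_33A | g_p22_33A | g_p22_33A | g_p22_33A | g_p22_33A
                      · clear * - b_f11_1 b_f23_1 b_f23_5 b_f33_3 e0 g_p11_33A g_p22_33A g_tmpp s1 s2
                        omega
                      · clear * - e3 g_p22_33A
                        omega
                      · clear * - b_f11_0 b_f11_1 b_f23_1 b_f23_5 b_f33_3 g_f22_2 g_p11_33A g_p22_33A g_tmpp s1 s2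
                        omega
                      · clear * - b_f11_0 b_f11_1 b_f23_5 g_f22_5 g_p22_33A g_tmpp s2
                        omega
                      · clear * - b_f22_6 b_o2 g_F1 g_f22_5 g_f33_8 g_p22_33A
                        omega
                    · clear * - b_b5 g_F1
                      omega
                · rcases g_f22_5 with g_f22_5 | g_f22_5
                  · clear * - b_b5 b_f11_1 b_f22_6 b_f23_1 b_f23_5 b_f33_3 b_o2 g_f13_8 g_f22_2 g_f22_5 g_p11_33A g_p13_22A s1 s2
                    omega
                  · clear * - b_b5 b_f22_6 b_o2 g_f13_8 g_f22_5 g_p13_22A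
                    omega
      · clear * - b_f23_5 g_p11_33A s2
        omega
      · rcases g_f33_8 with g_f33_8 | g_f33_8
        · clear * - b_f11_2 b_f23_5 b_f23_8 g_f33_8 g_p11_33A s2 s3
          omega
        · clear * - b_b3 b_b5 b_f11_0 b_f11_1 b_f11_2 b_f23_9 g_f33_8 g_p11_33A s3
          omega
    · rcases g_f13_8 with g_f13_8 | g_f13_8
      · clear * - b_a4 b_b5 b_f13_7 b_o1 b_o2 g_f13_5 g_f13_8
        omega
      · rcases g_f22_2 with g_f22_2 | g_f22_2
        · rcases g_tmpp with g_tmpp | g_tmpp | g_tmpp | g_tmpp
          · clear * - b_f11_0 b_f23_0 b_f33_0 b_o0 g_tmpp s1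
            omega
          · clear * - b_f11_0 b_f22_1 b_f23_0 b_f33_0 b_o0 b_o1 g_f22_2 g_tmpp s1
            omega
          · clear * - e0 g_tmpp
            omega
          · rcases g_f22_5 with g_f22_5 | g_f22_5
            · clear * - b_f11_0 b_f11_1 b_f13_0 b_f13_3 b_f22_4 b_f23_0 b_f23_5 b_f33_0 b_f33_4 b_o1 b_o2 g_f13_5 g_f22_2 g_f22_5 g_tmpp s1 s2
              omega
            · rcases g_p13_22A with g_p13_22A | g_p13_22A | g_p13_22A | g_p13_22A | g_p13_22A | g_p13_22A
              · clear * - b_f11_0 b_f11_1 b_f13_0 b_f13_3 b_f23_5 b_f33_4 b_o1 b_o2 e0 g_f13_5 g_p13_22A g_tmpp s2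
                omega
              · clear * - e2 g_p13_22A
                omega
              · clear * - b_f11_0 b_f11_1 b_f13_0 b_f13_3 b_f22_1 b_f23_0 b_f23_5 b_f33_0 b_f33_4 b_o1 b_o2 e0 g_f13_5 g_f22_2 g_p13_22A g_tmpp s1 s2
                omega
              · clear * - b_f11_0 b_f11_1 b_f13_3 b_f23_0 b_f23_5 b_f33_0 b_f33_4 b_o1 b_o2 g_f13_2 g_f13_5 g_f22_2 g_p13_22A g_tmpp s1 s2
                omega
              · clear * - b_f11_0 b_f11_1 b_f23_5 b_f33_4 b_o2 g_f13_5 g_f22_5 g_p13_22A g_tmpp s2
                omega
              · clear * - b_b5 b_f22_6 b_o2 g_f13_8 g_f22_5 g_p13_22A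
                omega
        · rcases g_tmpp with g_tmpp | g_tmpp | g_tmpp | g_tmpp
          · clear * - b_f11_0 b_f23_0 b_f33_0 b_o0 g_tmpp s1
            omega
          · rcases g_f22_5 with g_f22_5 | g_f22_5
            · clear * - b_f11_0 b_f13_0 b_f13_3 b_f22_4 b_f23_1 b_f33_1 b_o0 b_o2 g_f13_5 g_f22_2 g_f22_5 g_tmpp s1
              omega
            · rcases g_f33_5 with g_f33_5 | g_f33_5
              · clear * - b_f11_0 b_f13_0 b_f13_3 b_f23_1 b_f33_4 b_o0 b_o2 g_f13_5 g_f33_5 g_tmpp s1
                omega
              · rcases g_p11_22B with g_p11_22B | g_p11_22B | g_p11_22B | g_p11_22B | g_p11_22B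
                · clear * - e0 g_p11_22B
                  omega
                · clear * - b_b2 e0 g_p11_22B
                  omega
                · rcases g_f33_8 with g_f33_8 | g_f33_8
                  · clear * - b_b5 b_f23_1 b_f33_1 b_f33_7 b_o0 b_o2 g_f22_2 g_f33_5 g_f33_8 g_p11_22B g_tmpp s1
                    omega
                  · rcases g_p11_33A with g_p11_33A | g_p11_33A | g_p11_33A | g_p11_33A | g_p11_33A
                    · clear * - e0 g_p11_33A
                      omega
                    · clear * - e3 g_p11_33A
                      omega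
                    · clear * - b_f23_1 g_p11_33A g_tmpp s1
                      omega
                    · clear * - b_f11_0 b_f11_1 b_f13_0 b_f13_3 b_f23_1 b_f33_1 b_o0 b_o2 g_f13_5 g_f33_5 g_p11_33A g_tmpp s1
                      omega
                    · clear * - b_b5 b_f11_0 b_f11_1 b_f11_2 b_f13_0 b_f13_3 b_f23_1 b_f33_1 b_o0 b_o2 g_f13_5 g_f22_2 g_f33_8 g_p11_22B g_p11_33A g_tmpp s1
                      omega
                · clear * - b_f11_1 b_f13_0 b_f13_3 b_f23_1 b_f33_1 b_o1 b_o2 g_f13_5 g_f22_5 g_p11_22B g_tmpp s1
                  omega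
                · clear * - b_b5 b_f11_1 b_f11_2 b_f13_0 b_f13_3 b_f22_6 b_f23_1 b_f33_1 b_o1 b_o2 g_f13_5 g_f22_5 g_p11_22B g_tmpp s1
                  omega
          · clear * - e0 g_tmpp
            omega
          · rcases g_p11_33A with g_p11_33A | g_p11_33A | g_p11_33A | g_p11_33A | g_p11_33A
            · clear * - e0 g_p11_33A
              omega
            · clear * - e3 g_p11_33A
              omega
            · rcases g_f22_5 with g_f22_5 | g_f22_5
              · clear * - b_f11_0 b_f11_1 b_f13_0 b_f13_3 b_f22_4 b_f23_1 b_f23_5 b_f33_4 b_o1 b_o2 g_f13_5 g_f22_2 g_f22_5 g_p11_33A g_tmpp s1 s2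
                omega
              · rcases g_p13_22A with g_p13_22A | g_p13_22A | g_p13_22A | g_p13_22A | g_p13_22A | g_p13_22A
                · clear * - b_f11_0 b_f11_1 b_f13_0 b_f13_3 b_f23_5 b_f33_4 b_o1 b_o2 e0 g_f13_5 g_p13_22A g_tmpp s2
                  omega
                · clear * - e2 g_p13_22A
                  omega
                · clear * - b_f11_0 b_f11_1 b_f13_0 b_f13_3 b_f23_1 b_f23_5 b_f33_4 b_o1 b_o2 e0 g_f13_5 g_p11_33A g_p13_22A g_tmpp s1 s2
                  omega
                · rcases g_p13_23A with g_p13_23A | g_p13_23A | g_p13_23A | g_p13_23A | g_p13_23A | g_p13_23A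
                  · clear * - b_f11_0 b_f11_1 b_f13_3 b_f23_1 b_f23_5 b_f33_4 b_o2 e0 g_f13_2 g_f13_5 g_f22_2 g_p11_33A g_p13_22A g_p13_23A g_tmpp s1 s2
                    omega
                  · clear * - e2 g_p13_23A
                    omega
                  · clear * - e1 g_p13_23A
                    omega
                  · clear * - g_f13_2 g_p11_33A g_p13_23A s1
                    omega
                  · clear * - b_f11_0 b_f11_1 b_f23_1 b_f33_4 b_o2 g_f13_2 g_f13_5 g_f22_2 g_p11_33A g_p13_22A g_p13_23A g_tmpp s1 s2
                    omega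
                  · rcases g_p11_13B with g_p11_13B | g_p11_13B | g_p11_13B | g_p11_13B | g_p11_13B | g_p11_13B
                    · clear * - e0 g_p11_13B
                      omega
                    · clear * - b_f11_0 b_f11_1 b_f13_3 b_f23_1 b_f23_5 b_f33_4 b_o2 e0 g_f13_2 g_f13_5 g_f22_2 g_p11_13B g_p11_33A g_p13_22A g_tmpp s1 s2
                      omega
                    · clear * - e2 g_p11_13B
                      omega
                    · clear * - b_f11_1 b_f13_3 b_f23_1 b_f23_5 b_f33_4 b_o2 g_f13_2 g_f13_5 g_f22_2 g_p11_13B g_p11_33A g_p13_22A g_tmpp s1 s2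
                      omega
                    · clear * - b_f23_1 b_f23_5 b_f33_4 b_o2 g_f13_2 g_f13_5 g_f22_2 g_p11_13B g_p11_33A g_p13_22A s1 s2
                      omega
                    · clear * - b_f33_7 g_f13_8 g_p11_13B g_p13_23A s3
                      omega
                · clear * - b_f11_0 b_f11_1 b_f23_5 b_f33_4 b_o2 g_f13_5 g_f22_5 g_p13_22A g_tmpp s2
                  omega
                · clear * - b_b5 b_f22_6 b_o2 g_f13_8 g_f22_5 g_p13_22A
                  omega
            · clear * - b_f23_5 g_p11_33A s2
              omega
            · rcases g_f33_8 with g_f33_8 | g_f33_8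
              · clear * - b_b5 b_f11_2 b_f23_5 b_f23_9 b_o1 g_f33_8 g_p11_33A s2 s3
                omega
              · clear * - b_b3 b_b5 b_f11_0 b_f11_1 b_f11_2 b_f23_9 g_f33_8 g_p11_33A s3
                omega
  · clear * - b_a4 b_f11_0 b_f13_0 b_f23_1 b_f33_1 b_o0 b_o2 g_f13_2 s1
    omega

end Pool.Agent.Helper78.TQ
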