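import Pool.Agent.Helper89.TQ.Ctx

set_option autoImplicit false
set_option linter.all false
set_option maxHeartbeats 4000000
set_option maxRecDepth 10000

namespace Pool.Agent.Helper78.TQ

open Pool.Agent.Helper89.TQ

theorem c0_11_33_33_k2 {n1 n2 n3 A1 A2 A3 B1 B2 B3 m11_1 m11_2 m11_3 m13_1 m13_2 m13_3 m22_1 m22_2 m22_3 m23_1 m23_2 m23_3 m33_1 m33_2 m33_3 : ℤ}
    (C : Ctx0 n1 n2 n3 A1 A2 A3 B1 B2 B3 m11_1 m11_2 m11_3 m13_1 m13_2 m13_3 m22_1 m22_2 m22_3 m23_1 m23_2 m23_3 m33_1 m33_2 m33_3)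
    (e0 : 0 < B1)
    (e1 : 0 < A3)
    (s1 : 2 * A1 + 1 * B1 ≤ m11_1 + m33_1 + m33_1)
    (s2 : 2 * A2 + 1 * B2 ≤ m11_2 + m33_2 + m33_2)
    (s3 : 2 * A3 + 1 * B3 ≤ m11_3 + m33_3 + m33_3) : False := by
  have g_f13_2 : (m13_1 = -1 + A1) ∨ (m13_1 = -1 + B3) := by
    have h := C.f13_2
    clear * - h
    omega
  have g_f13_5 : (m13_2 = m13_1 + n2) ∨ (m13_2 = -1 + B3) := by
    have h := C.f13_5
    clear * - h
    omega
  have g_f13_8 : (m13_3 = m13_2 + n3) ∨ (m13_3 = -1 + B3) := by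
    have h := C.f13_8
    clear * - h
    omega
  have g_p11_33B : (0 ≥ B1) ∨ (0 ≥ A3) ∨ (2 * B1 > m11_1 + m33_1) ∨ (2 * B2 > m11_2 + m33_2) ∨ (2 * B3 > m11_3 + m33_3) := by
    have h := C.p11_33B
    clear * - h
    omega
  have g_p13_33A : (0 ≥ A1) ∨ (0 ≥ B3) ∨ (0 ≥ A3) ∨ (2 * A1 > m13_1 + m33_1) ∨ (2 * A2 > m13_2 + m33_2) ∨ (2 * A3 > m13_3 + m33_3) := by
    have h := C.p13_33A
    clear * - h
    omega
  have g_tzpm : (1 + A1 > A2) ∨ (2 + A3 > A2 + n3) ∨ (1 + B2 > B1 + n2) ∨ (2 + B2 > B3) ∨ (A2 ≥ 1 + B2 ∧ A3 ≥ -1 + B3) := by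
    have h := C.tzpm
    clear * - h
    omega
  have b_a3 := C.a3
  have b_a4 := C.a4
  have b_b2 := C.b2
  have b_b3 := C.b3
  have b_b5 := C.b5
  have b_o0 := C.o0
  have b_o1 := C.o1
  have b_o2 := C.o2
  have b_f11_0 := C.f11_0
  have b_f11_1 := C.f11_1
  have b_f11_2 := C.f11_2
  have b_f13_0 := C.f13_0
  have b_f13_7 := C.f13_7
  have b_f33_1 := C.f33_1
  have b_f33_4 := C.f33_4
  have b_f33_7 := C.f33_7
  clear C
  rcases g_f13_2 with g_f13_2 | g_f13_2
  · rcases g_p11_33B with g_p11_33B | g_p11_33B | g_p11_33B | g_p11_33B | g_p11_33B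
    · clear * - e0 g_p11_33B
      omega
    · clear * - e1 g_p11_33B
      omega
    · clear * - b_f11_0 b_o0 g_p11_33B s1
      omega
    · clear * - b_b3 b_f11_0 b_f11_1 b_o1 g_p11_33B s2
      omega
    · rcases g_f13_8 with g_f13_8 | g_f13_8
      · rcases g_f13_5 with g_f13_5 | g_f13_5
        · clear * - b_f11_0 b_f11_1 b_f11_2 b_f13_7 b_f33_7 b_o0 g_f13_2 g_f13_5 g_f13_8 s3
          omega
        · clear * - b_b5 b_f11_2 b_f13_7 b_f33_4 b_o1 g_f13_5 g_f13_8 g_p11_33B s2 s3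
          omega
      · rcases g_f13_5 with g_f13_5 | g_f13_5
        · rcases g_p13_33A with g_p13_33A | g_p13_33A | g_p13_33A | g_p13_33A | g_p13_33A | g_p13_33A
          · clear * - b_o0 e0 g_p13_33A
            omega
          · clear * - b_f33_7 e1 g_p11_33B g_p13_33A s3
            omega
          · clear * - e1 g_p13_33A
            omega
          · clear * - b_f11_0 g_f13_2 g_p13_33A s1
            omega
          · rcases g_tzpm with g_tzpm | g_tzpm | g_tzpm | g_tzpm | ⟨g_tzpm, g_tzpm'⟩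
            · clear * - b_a3 b_b2 b_f11_0 b_f11_1 g_f13_2 g_f13_5 g_p13_33A g_tzpm s2
              omega
            · clear * - b_b5 b_f11_0 b_f11_1 b_f11_2 b_f33_7 b_o0 g_f13_2 g_f13_5 g_p11_33B g_p13_33A g_tzpm s2 s3
              omega
            · clear * - b_a3 b_f11_0 b_f11_1 g_f13_2 g_f13_5 g_p13_33A g_tzpm s2
              omega
            · clear * - b_a3 b_a4 b_f11_0 b_f11_1 b_f33_7 b_o0 g_f13_2 g_f13_5 g_p11_33B g_p13_33A g_tzpm s2 s3
              omega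
            · clear * - b_f33_7 g_p11_33B g_tzpm' s3
              omega
          · clear * - g_f13_8 g_p11_33B g_p13_33A s3
            omega
        · rcases g_p13_33A with g_p13_33A | g_p13_33A | g_p13_33A | g_p13_33A | g_p13_33A | g_p13_33A
          · clear * - b_o0 e0 g_p13_33A
            omega
          · clear * - b_f11_0 b_f33_1 b_f33_7 b_o0 e0 g_p11_33B g_p13_33A s1 s3
            omega
          · clear * - e1 g_p13_33A
            omega
          · clear * - b_f11_0 g_f13_2 g_p13_33A s1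
            omega
          · clear * - b_a4 b_b5 b_f11_2 g_f13_5 g_p11_33B g_p13_33A s2 s3
            omega
          · clear * - g_f13_8 g_p11_33B g_p13_33A s3
            omega
  · clear * - b_f11_0 b_f13_0 b_f33_1 b_o2 g_f13_2 s1
    omega

end Pool.Agent.Helper78.TQ
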