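import Pool.Agent.Helper89.TQ.Ctx

set_option autoImplicit false
set_option linter.all false
set_option maxHeartbeats 4000000
set_option maxRecDepth 10000

namespace Pool.Agent.Helper78.TQ

open Pool.Agent.Helper89.TQ

theorem c0_13_22_33_k2 {n1 n2 n3 A1 A2 A3 B1 B2 B3 m11_1 m11_2 m11_3 m13_1 m13_2 m13_3 m22_1 m22_2 m22_3 m23_1 m23_2 m23_3 m33_1 m33_2 m33_3 : ℤ}
    (C : Ctx0 n1 n2 n3 A1 A2 A3 B1 B2 B3 m11_1 m11_2 m11_3 m13_1 m13_2 m13_3 m22_1 m22_2 m22_3 m23_1 m23_2 m23_3 m33_1 m33_2 m33_3)
    (e0 : 0 < A1)
    (e1 : 0 < B3)
    (e2 : 0 < B2)
    (e3 : 0 < A3)
    (s1 : 2 * A1 + 1 * B1 ≤ m13_1 + m22_1 + m33_1)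
    (s2 : 2 * A2 + 1 * B2 ≤ m13_2 + m22_2 + m33_2)
    (s3 : 2 * A3 + 1 * B3 ≤ m13_3 + m22_3 + m33_3) : False := by
  have g_t12 : (0 < A1 ∧ A2 < A1 + n2) ∨ (0 < B1 ∧ B2 < B1 + n2) := by
    have h := C.t12
    clear * - h
    omega
  have g_t23 : (A1 < A2 ∧ A3 < A2 + n3) ∨ (B1 < B2 ∧ B3 < B2 + n3) := by
    have h := C.t23
    clear * - h
    omega
  have g_f13_2 : (m13_1 = -1 + A1) ∨ (m13_1 = -1 + B3) := by
    have h := C.f13_2
    clear * - h
    omega
  have g_f13_5 : (m13_2 = m13_1 + n2) ∨ (m13_2 = -1 + B3) := by
    have h := C.f13_5
    clear * - h
    omega
  have g_f13_8 : (m13_3 = m13_2 + n3) ∨ (m13_3 = -1 + B3) := by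
    have h := C.f13_8
    clear * - h
    omega
  have g_f22_2 : (m22_1 = n1) ∨ (m22_1 = -1 + B2) := by
    have h := C.f22_2
    clear * - h
    omega
  have g_f22_5 : (m22_2 = m22_1 + n2) ∨ (m22_2 = -1 + B2) := by
    have h := C.f22_5
    clear * - h
    omega
  have g_f23_3 : (m23_1 = n1) ∨ (m23_1 = -1 + A2) ∨ (m23_1 = -1 + B3) := by
    have h := C.f23_3
    clear * - h
    omega
  have g_f33_2 : (m33_1 = n1) ∨ (m33_1 = -1 + A3) := by
    have h := C.f33_2
    clear * - h
    omega
  have g_f33_5 : (m33_2 = m33_1 + n2) ∨ (m33_2 = -1 + A3) := by
    have h := C.f33_5
    clear * - h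
    omega
  have g_f33_8 : (m33_3 = m33_2 + n3) ∨ (m33_3 = -1 + A3) := by
    have h := C.f33_8
    clear * - h
    omega
  have g_p11_13B : (0 ≥ B1) ∨ (0 ≥ A1) ∨ (0 ≥ B3) ∨ (2 * B1 > m11_1 + m13_1) ∨ (2 * B2 > m11_2 + m13_2) ∨ (2 * B3 > m11_3 + m13_3) := by
    have h := C.p11_13B
    clear * - h
    omega
  have g_p11_22B : (0 ≥ B1) ∨ (0 ≥ B2) ∨ (2 * B1 > m11_1 + m22_1) ∨ (2 * B2 > m11_2 + m22_2) ∨ (2 * B3 > m11_3 + m22_3) := by
    have h := C.p11_22B
    clear * - h
    omega
  have g_p11_33A : (0 ≥ B1) ∨ (0 ≥ A3) ∨ (2 * A1 > m11_1 + m33_1) ∨ (2 * A2 > m11_2 + m33_2) ∨ (2 * A3 > m11_3 + m33_3) := by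
    have h := C.p11_33A
    clear * - h
    omega
  have g_p11_33B : (0 ≥ B1) ∨ (0 ≥ A3) ∨ (2 * B1 > m11_1 + m33_1) ∨ (2 * B2 > m11_2 + m33_2) ∨ (2 * B3 > m11_3 + m33_3) := by
    have h := C.p11_33B
    clear * - h
    omega
  have g_p13_22B : (0 ≥ A1) ∨ (0 ≥ B3) ∨ (0 ≥ B2) ∨ (2 * B1 > m13_1 + m22_1) ∨ (2 * B2 > m13_2 + m22_2) ∨ (2 * B3 > m13_3 + m22_3) := by
    have h := C.p13_22B
    clear * - h
    omega
  have g_p13_33A : (0 ≥ A1) ∨ (0 ≥ B3) ∨ (0 ≥ A3) ∨ (2 * A1 > m13_1 + m33_1) ∨ (2 * A2 > m13_2 + m33_2) ∨ (2 * A3 > m13_3 + m33_3) := by
    have h := C.p13_33A
    clear * - h
    omega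
  have g_p22_33A : (0 ≥ B2) ∨ (0 ≥ A3) ∨ (2 * A1 > m22_1 + m33_1) ∨ (2 * A2 > m22_2 + m33_2) ∨ (2 * A3 > m22_3 + m33_3) := by
    have h := C.p22_33A
    clear * - h
    omega
  have g_tmzp : (1 + A1 > n1) ∨ (1 + A1 > A2) ∨ (1 + A2 > A3) ∨ (1 > B1) ∨ (1 + B2 > B1 + n2) ∨ (1 + B3 > B2 + n3) := by
    have h := C.tmzp
    clear * - h
    omega
  have g_tzmp : (1 + A2 > A1 + n2) ∨ (2 + A2 > A3) ∨ (1 + B1 > B2) ∨ (2 + B3 > B2 + n3) := by
    have h := C.tzmp
    clear * - h
    omega
  have g_tzpm : (1 + A1 > A2) ∨ (2 + A3 > A2 + n3) ∨ (1 + B2 > B1 + n2) ∨ (2 + B2 > B3) ∨ (A2 ≥ 1 + B2 ∧ A3 ≥ -1 + B3) := by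
    have h := C.tzpm
    clear * - h
    omega
  have g_tpmm : (1 > A1) ∨ (2 + A2 > A1 + n2) ∨ (1 + B1 > n1) ∨ (2 + B1 > B2) ∨ (A3 ≥ -1 + B3) := by
    have h := C.tpmm
    clear * - h
    omega
  have g_tpmz : (1 > A1) ∨ (2 + A2 > A1 + n2) ∨ (1 + A2 > A3) ∨ (1 + B1 > n1) ∨ (2 + B1 > B2) ∨ (1 + B3 > B2 + n3) := by
    have h := C.tpmz
    clear * - h
    omega
  have g_tpzm : (1 > A1) ∨ (1 + A2 > A1 + n2) ∨ (1 + A3 > A2 + n3) ∨ (1 + B1 > n1) ∨ (1 + B1 > B2) ∨ (1 + B2 > B3) ∨ (A3 ≥ -1 + B3) ∨ (1 + B1 ≥ A1 ∧ B2 ≥ A2) := by
    have h := C.tpzm
    clear * - h
    omega
  have b_a1 := C.a1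
  have b_a2 := C.a2
  have b_a4 := C.a4
  have b_a5 := C.a5
  have b_b1 := C.b1
  have b_b2 := C.b2
  have b_b3 := C.b3
  have b_b5 := C.b5
  have b_o0 := C.o0
  have b_o1 := C.o1
  have b_o2 := C.o2
  have b_f11_0 := C.f11_0
  have b_f11_1 := C.f11_1
  have b_f11_2 := C.f11_2
  have b_f13_0 := C.f13_0
  have b_f13_3 := C.f13_3
  have b_f13_4 := C.f13_4
  have b_f13_7 := C.f13_7
  have b_f22_0 := C.f22_0
  have b_f22_1 := C.f22_1
  have b_f22_3 := C.f22_3
  have b_f22_4 := C.f22_4
  have b_f22_6 := C.f22_6
  have b_f23_0 := C.f23_0
  have b_f23_1 := C.f23_1
  have b_f33_0 := C.f33_0
  have b_f33_1 := C.f33_1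
  have b_f33_3 := C.f33_3
  have b_f33_4 := C.f33_4
  have b_f33_7 := C.f33_7
  clear C
  rcases g_f13_2 with g_f13_2 | g_f13_2
  · rcases g_t12 with ⟨g_t12, g_t12'⟩ | ⟨g_t12, g_t12'⟩
    · rcases g_f23_3 with g_f23_3 | g_f23_3 | g_f23_3
      · rcases g_tzpm with g_tzpm | g_tzpm | g_tzpm | g_tzpm | ⟨g_tzpm, g_tzpm'⟩
        · clear * - b_a1 b_f23_1 g_f23_3 g_tzpm
          omega
        · clear * - b_f13_7 b_f22_4 b_f22_6 b_f33_7 b_o1 g_tzpm s3
          omega
        · rcases g_p13_33A with g_p13_33A | g_p13_33A | g_p13_33A | g_p13_33A | g_p13_33A | g_p13_33A
          · clear * - e0 g_p13_33A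
            omega
          · clear * - e1 g_p13_33A
            omega
          · clear * - e3 g_p13_33A
            omega
          · rcases g_p22_33A with g_p22_33A | g_p22_33A | g_p22_33A | g_p22_33A | g_p22_33A
            · clear * - e2 g_p22_33A
              omega
            · clear * - e3 g_p22_33A
              omega
            · rcases g_f22_2 with g_f22_2 | g_f22_2
              · rcases g_f33_2 with g_f33_2 | g_f33_2
                · clear * - b_a1 g_f22_2 g_f33_2 g_p22_33A
                  omega
                · clear * - b_a1 b_a4 b_f23_1 g_f22_2 g_f23_3 g_f33_2 g_p22_33A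
                  omega
              · rcases g_tpmm with g_tpmm | g_tpmm | g_tpmm | g_tpmm | g_tpmm
                · clear * - e0 g_tpmm
                  omega
                · rcases g_p13_22B with g_p13_22B | g_p13_22B | g_p13_22B | g_p13_22B | g_p13_22B | g_p13_22B
                  · clear * - e0 g_p13_22B
                    omega
                  · clear * - e1 g_p13_22B
                    omega
                  · clear * - e2 g_p13_22B
                    omega
                  · clear * - b_a2 g_f22_2 g_p13_22B g_p22_33A g_t12' g_tzpm s1
                    omega
                  · clear * - b_a1 b_f23_1 b_f33_3 g_f22_2 g_f23_3 g_p13_22B g_p22_33A g_tpmm s2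
                    omega
                  · rcases g_tpzm with g_tpzm | g_tpzm | g_tpzm | g_tpzm | g_tpzm | g_tpzm | g_tpzm | ⟨g_tpzm, g_tpzm'⟩
                    · clear * - e0 g_tpzm
                      omega
                    · clear * - g_t12' g_tpzm
                      omega
                    · clear * - b_b3 b_f13_0 b_f13_7 b_f22_4 b_f22_6 b_f33_7 g_p22_33A g_tpmm g_tpzm s1 s3
                      omega
                    · clear * - b_a1 b_f13_0 g_p22_33A g_tpzm s1
                      omega
                    · clear * - b_a2 g_t12' g_tpzm g_tzpm
                      omega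
                    · clear * - b_b3 b_f13_0 b_f13_3 b_f22_4 b_f33_4 b_f33_7 g_p13_22B g_p22_33A g_tpmm g_tpzm s1 s2 s3
                      omega
                    · clear * - b_f33_7 g_p13_22B g_tpzm s3
                      omega
                    · clear * - b_f13_0 g_p22_33A g_tpzm s1
                      omega
                · clear * - b_a1 b_f13_0 g_p22_33A g_tpmm s1
                  omega
                · clear * - b_a1 b_f23_1 g_f23_3 g_t12' g_tpmm g_tzpm
                  omega
                · rcases g_p13_22B with g_p13_22B | g_p13_22B | g_p13_22B | g_p13_22B | g_p13_22B | g_p13_22B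
                  · clear * - e0 g_p13_22B
                    omega
                  · clear * - e1 g_p13_22B
                    omega
                  · clear * - e2 g_p13_22B
                    omega
                  · clear * - b_a1 b_f23_1 g_f22_2 g_f23_3 g_p13_22B g_p22_33A g_t12' g_tzpm s1
                    omega
                  · rcases g_tzmp with g_tzmp | g_tzmp | g_tzmp | g_tzmp
                    · clear * - g_t12' g_tzmp
                      omega
                    · clear * - b_f33_4 b_o1 g_p13_22B g_tzmp s2
                      omega
                    · clear * - b_a1 b_f23_1 b_f33_3 g_f22_2 g_f23_3 g_p13_22B g_p22_33A g_tzmp g_tzpm s2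
                      omega
                    · clear * - b_f13_7 b_f22_4 b_f22_6 b_f33_7 g_tpmm g_tzmp s3
                      omega
                  · clear * - b_f33_7 g_p13_22B g_tpmm s3
                    omega
            · rcases g_f22_5 with g_f22_5 | g_f22_5
              · clear * - b_b3 b_f22_4 g_f22_5 g_p13_33A s1
                omega
              · rcases g_p13_22B with g_p13_22B | g_p13_22B | g_p13_22B | g_p13_22B | g_p13_22B | g_p13_22B
                · clear * - e0 g_p13_22B
                  omega
                · clear * - e1 g_p13_22B
                  omega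
                · clear * - e2 g_p13_22B
                  omega
                · clear * - b_f13_3 b_f22_3 g_f22_5 g_p13_22B g_p22_33A g_tzpm s2
                  omega
                · clear * - g_f22_5 g_p13_22B g_p22_33A s2
                  omega
                · rcases g_tpmm with g_tpmm | g_tpmm | g_tpmm | g_tpmm | g_tpmm
                  · clear * - e0 g_tpmm
                    omega
                  · rcases g_tpzm with g_tpzm | g_tpzm | g_tpzm | g_tpzm | g_tpzm | g_tpzm | g_tpzm | ⟨g_tpzm, g_tpzm'⟩
                    · clear * - e0 g_tpzm
                      omega
                    · clear * - g_t12' g_tpzm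
                      omega
                    · clear * - b_f13_0 b_f13_3 b_f13_7 b_f22_4 b_f22_6 b_f33_7 g_p22_33A g_tpmm g_tpzm s2 s3
                      omega
                    · clear * - b_a1 b_f13_0 b_f13_3 g_p22_33A g_tpzm g_tzpm s2
                      omega
                    · clear * - b_a2 g_t12' g_tpzm g_tzpm
                      omega
                    · clear * - b_f13_0 b_f13_3 b_f22_4 b_f33_4 b_f33_7 g_p13_22B g_p22_33A g_tpmm g_tpzm s2 s3
                      omega
                    · clear * - b_f33_7 g_p13_22B g_tpzm s3
                      omega
                    · clear * - b_f13_0 b_f13_3 g_p22_33A g_tpzm g_tzpm s2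
                      omega
                  · clear * - b_a1 b_f13_0 b_f13_3 g_p22_33A g_tpmm g_tzpm s2
                    omega
                  · clear * - b_a1 b_f23_1 g_f23_3 g_t12' g_tpmm g_tzpm
                    omega
                  · clear * - b_f33_7 g_p13_22B g_tpmm s3
                    omega
            · clear * - b_f13_7 g_p22_33A s3
              omega
          · clear * - b_f22_4 g_p13_33A s2
            omega
          · rcases g_tzmp with g_tzmp | g_tzmp | g_tzmp | g_tzmp
            · clear * - g_t12' g_tzmp
              omega
            · rcases g_p13_22B with g_p13_22B | g_p13_22B | g_p13_22B | g_p13_22B | g_p13_22B | g_p13_22B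
              · clear * - e0 g_p13_22B
                omega
              · clear * - e1 g_p13_22B
                omega
              · clear * - e2 g_p13_22B
                omega
              · clear * - b_f13_3 b_f22_3 b_f33_4 b_o1 g_p13_22B g_tzmp g_tzpm s2
                omega
              · clear * - b_f33_4 b_o1 g_p13_22B g_tzmp s2
                omega
              · rcases g_f13_8 with g_f13_8 | g_f13_8
                · clear * - b_f22_4 b_f22_6 b_f33_4 b_o1 g_f13_8 g_p13_22B g_p13_33A g_tzmp s2 s3
                  omega
                · clear * - g_f13_8 g_p13_22B g_p13_33A s3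
                  omega
            · clear * - b_a1 b_f23_1 g_f23_3 g_t12' g_tzmp g_tzpm
              omega
            · clear * - b_f22_4 b_f22_6 g_p13_33A g_tzmp s3
              omega
        · clear * - b_f13_4 b_f22_4 b_f33_4 b_o1 b_o2 g_tzpm s2
          omega
        · rcases g_f22_2 with g_f22_2 | g_f22_2
          · rcases g_p13_22B with g_p13_22B | g_p13_22B | g_p13_22B | g_p13_22B | g_p13_22B | g_p13_22B
            · clear * - e0 g_p13_22B
              omega
            · clear * - e1 g_p13_22B
              omega
            · clear * - e2 g_p13_22B
              omega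
            · clear * - b_f33_0 b_o0 g_f13_2 g_f22_2 g_p13_22B s1
              omega
            · rcases g_tzmp with g_tzmp | g_tzmp | g_tzmp | g_tzmp
              · clear * - g_t12' g_tzmp
                omega
              · clear * - b_f33_4 g_p13_22B g_tzmp g_tzpm s2
                omega
              · clear * - b_f13_0 b_f22_1 b_f33_0 b_o0 g_f22_2 g_tzmp s1
                omega
              · clear * - b_f13_7 b_f22_4 b_f22_6 b_f33_7 g_tzmp g_tzpm' s3
                omega
            · clear * - b_f33_7 g_p13_22B g_tzpm' s3
              omega
          · rcases g_f22_5 with g_f22_5 | g_f22_5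
            · clear * - b_a1 b_f13_0 b_f13_3 b_f22_4 b_f23_1 b_f33_0 b_f33_3 g_f22_2 g_f22_5 g_f23_3 s2
              omega
            · rcases g_p13_22B with g_p13_22B | g_p13_22B | g_p13_22B | g_p13_22B | g_p13_22B | g_p13_22B
              · clear * - e0 g_p13_22B
                omega
              · clear * - e1 g_p13_22B
                omega
              · clear * - e2 g_p13_22B
                omega
              · rcases g_p11_33A with g_p11_33A | g_p11_33A | g_p11_33A | g_p11_33A | g_p11_33A
                · clear * - e0 e2 g_f13_2 g_f22_2 g_p11_33A g_p13_22B
                  omega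
                · clear * - e3 g_p11_33A
                  omega
                · clear * - b_f11_0 g_p11_33A g_p13_22B s1
                  omega
                · clear * - b_b2 b_f11_0 b_f11_1 b_f13_3 b_f22_4 g_f22_2 g_p11_33A g_p13_22B s2
                  omega
                · clear * - b_b1 b_f11_0 b_f11_1 b_f11_2 b_f13_7 b_f22_4 b_f22_6 b_f23_1 g_f13_2 g_f22_2 g_f23_3 g_p11_33A g_p13_22B g_t12' s3
                  omega
              · rcases g_f13_5 with g_f13_5 | g_f13_5
                · clear * - g_f13_2 g_f13_5 g_f22_5 g_p13_22B g_t12' g_tzpm
                  omega
                · clear * - b_f33_4 b_o2 g_f13_5 g_f22_5 g_p13_22B g_tzpm s2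
                  omega
              · clear * - b_f33_7 g_p13_22B g_tzpm' s3
                omega
      · rcases g_f13_5 with g_f13_5 | g_f13_5
        · rcases g_t23 with ⟨g_t23, g_t23'⟩ | ⟨g_t23, g_t23'⟩
          · rcases g_p13_33A with g_p13_33A | g_p13_33A | g_p13_33A | g_p13_33A | g_p13_33A | g_p13_33A
            · clear * - e0 g_p13_33A
              omega
            · clear * - e1 g_p13_33A
              omega
            · clear * - e3 g_p13_33A
              omega
            · rcases g_tzpm with g_tzpm | g_tzpm | g_tzpm | g_tzpm | ⟨g_tzpm, g_tzpm'⟩
              · clear * - g_t23 g_tzpm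
                omega
              · clear * - b_f13_7 b_f22_4 b_f22_6 b_f33_7 b_o1 g_tzpm s3
                omega
              · rcases g_p22_33A with g_p22_33A | g_p22_33A | g_p22_33A | g_p22_33A | g_p22_33A
                · clear * - e2 g_p22_33A
                  omega
                · clear * - e3 g_p22_33A
                  omega
                · rcases g_f33_2 with g_f33_2 | g_f33_2
                  · rcases g_tpzm with g_tpzm | g_tpzm | g_tpzm | g_tpzm | g_tpzm | g_tpzm | g_tpzm | ⟨g_tpzm, g_tpzm'⟩
                    · clear * - e0 g_tpzm
                      omega
                    · clear * - g_t12' g_tpzm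
                      omega
                    · clear * - g_t23' g_tpzm
                      omega
                    · clear * - b_a1 b_f13_0 g_p22_33A g_tpzm s1
                      omega
                    · clear * - g_t12' g_t23 g_tpzm g_tzpm
                      omega
                    · clear * - b_a4 b_o1 b_o2 g_tpzm
                      omega
                    · rcases g_f22_2 with g_f22_2 | g_f22_2
                      · clear * - b_a1 g_f22_2 g_f33_2 g_p22_33A
                        omega
                      · rcases g_p13_22B with g_p13_22B | g_p13_22B | g_p13_22B | g_p13_22B | g_p13_22B | g_p13_22B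
                        · clear * - e0 g_p13_22B
                          omega
                        · clear * - e1 g_p13_22B
                          omega
                        · clear * - e2 g_p13_22B
                          omega
                        · clear * - g_f22_2 g_p13_22B g_p22_33A g_t12' g_t23 g_tzpm s1
                          omega
                        · rcases g_f22_5 with g_f22_5 | g_f22_5
                          · clear * - b_a1 b_f33_3 g_f13_2 g_f13_5 g_f22_2 g_f22_5 g_f33_2 g_p13_22B g_p22_33A g_t23 s2
                            omega
                          · clear * - b_a1 b_f33_3 g_f13_2 g_f13_5 g_f22_2 g_f22_5 g_f33_2 g_p13_22B g_p22_33A g_t23 s2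
                            omega
                        · clear * - b_f33_7 g_p13_22B g_tpzm s3
                          omega
                    · clear * - b_f13_0 g_p22_33A g_tpzm s1
                      omega
                  · rcases g_tpmm with g_tpmm | g_tpmm | g_tpmm | g_tpmm | g_tpmm
                    · clear * - e0 g_tpmm
                      omega
                    · clear * - b_f13_3 b_f22_4 b_f33_4 g_f33_2 g_p13_33A g_t23 g_tpmm s2
                      omega
                    · clear * - b_f13_0 b_f13_3 b_f22_4 b_f33_0 b_f33_4 b_o1 g_f33_2 g_t23 g_tpmm g_tzpm s2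
                      omega
                    · clear * - b_f13_3 b_f22_4 b_f33_4 g_f33_2 g_p13_33A g_t23 g_tpmm g_tzpm s2
                      omega
                    · clear * - b_f13_4 b_f22_4 b_f33_4 g_f13_2 g_f33_2 g_p13_33A g_t23 g_tpmm s2
                      omega
                · rcases g_f22_2 with g_f22_2 | g_f22_2
                  · rcases g_tpzm with g_tpzm | g_tpzm | g_tpzm | g_tpzm | g_tpzm | g_tpzm | g_tpzm | ⟨g_tpzm, g_tpzm'⟩
                    · clear * - e0 g_tpzm
                      omega
                    · clear * - g_t12' g_tpzm
                      omega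
                    · clear * - g_t23' g_tpzm
                      omega
                    · clear * - b_a1 b_o0 g_tpzm
                      omega
                    · clear * - g_t12' g_t23 g_tpzm g_tzpm
                      omega
                    · clear * - b_a4 b_o1 b_o2 g_tpzm
                      omega
                    · rcases g_tpmz with g_tpmz | g_tpmz | g_tpmz | g_tpmz | g_tpmz | g_tpmz
                      · clear * - e0 g_tpmz
                        omega
                      · clear * - b_f13_0 b_f13_3 b_f22_1 b_f23_0 g_f22_2 g_f23_3 g_p22_33A g_tpmz s2
                        omega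
                      · clear * - b_f13_4 b_f22_1 b_f23_0 g_f22_2 g_f23_3 g_p22_33A g_tpmz g_tpzm s2
                        omega
                      · clear * - b_a1 b_f13_0 b_f13_3 g_p22_33A g_tpmz g_tzpm s2
                        omega
                      · clear * - b_a1 b_f13_0 b_f13_3 b_f22_1 g_f22_2 g_p22_33A g_tpmz g_tzpm s2
                        omega
                      · clear * - b_f13_7 b_f22_4 b_f22_6 b_f33_7 g_tpmz g_tpzm s3
                        omega
                    · clear * - b_f13_0 b_f13_3 g_p22_33A g_tpzm g_tzpm s2
                      omega
                  · rcases g_tpzm with g_tpzm | g_tpzm | g_tpzm | g_tpzm | g_tpzm | g_tpzm | g_tpzm | ⟨g_tpzm, g_tpzm'⟩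
                    · clear * - e0 g_tpzm
                      omega
                    · clear * - g_t12' g_tpzm
                      omega
                    · clear * - g_t23' g_tpzm
                      omega
                    · clear * - b_a1 b_o0 g_tpzm
                      omega
                    · clear * - g_t12' g_t23 g_tpzm g_tzpm
                      omega
                    · clear * - b_a4 b_o1 b_o2 g_tpzm
                      omega
                    · rcases g_p13_22B with g_p13_22B | g_p13_22B | g_p13_22B | g_p13_22B | g_p13_22B | g_p13_22B
                      · clear * - e0 g_p13_22B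
                        omega
                      · clear * - e1 g_p13_22B
                        omega
                      · clear * - e2 g_p13_22B
                        omega
                      · clear * - b_o1 g_f13_2 g_f22_2 g_p13_22B g_t12' g_t23 g_tzpm
                        omega
                      · rcases g_f22_5 with g_f22_5 | g_f22_5
                        · clear * - g_f22_2 g_f22_5 g_p13_22B g_p22_33A g_t12' g_t23 s2
                          omega
                        · clear * - g_f22_5 g_p13_22B g_p22_33A s2
                          omega
                      · clear * - b_f33_7 g_p13_22B g_tpzm s3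
                        omega
                    · clear * - b_f13_0 b_f13_3 g_p22_33A g_tpzm g_tzpm s2
                      omega
                · clear * - b_f13_7 g_p22_33A s3
                  omega
              · clear * - b_f13_4 b_f22_4 b_f33_4 b_o1 b_o2 g_tzpm s2
                omega
              · rcases g_p13_22B with g_p13_22B | g_p13_22B | g_p13_22B | g_p13_22B | g_p13_22B | g_p13_22B
                · clear * - e0 g_p13_22B
                  omega
                · clear * - e1 g_p13_22B
                  omega
                · clear * - e2 g_p13_22B
                  omega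
                · clear * - b_o0 g_f13_2 g_p13_22B g_p13_33A s1
                  omega
                · rcases g_f22_5 with g_f22_5 | g_f22_5
                  · clear * - b_b3 b_f33_3 g_f13_2 g_f13_5 g_f22_5 g_p13_22B g_p13_33A g_tzpm s1 s2
                    omega
                  · clear * - b_f33_3 g_f13_2 g_f13_5 g_f22_5 g_p13_22B g_p13_33A g_tzpm s2
                    omega
                · clear * - b_f33_7 g_p13_22B g_tzpm' s3
                  omega
            · clear * - b_f22_4 g_p13_33A s2
              omega
            · rcases g_f22_2 with g_f22_2 | g_f22_2
              · rcases g_f13_8 with g_f13_8 | g_f13_8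
                · clear * - b_b3 b_f13_7 b_f22_4 b_f22_6 b_o0 g_f13_2 g_f13_5 g_f13_8 g_p13_33A s3
                  omega
                · rcases g_p13_22B with g_p13_22B | g_p13_22B | g_p13_22B | g_p13_22B | g_p13_22B | g_p13_22B
                  · clear * - e0 g_p13_22B
                    omega
                  · clear * - e1 g_p13_22B
                    omega
                  · clear * - e2 g_p13_22B
                    omega
                  · clear * - b_a1 b_o0 g_f13_2 g_f22_2 g_p13_22B
                    omega
                  · rcases g_tzmp with g_tzmp | g_tzmp | g_tzmp | g_tzmp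
                    · clear * - g_t12' g_tzmp
                      omega
                    · clear * - b_f33_4 b_o1 g_p13_22B g_tzmp s2
                      omega
                    · clear * - b_a1 b_f22_1 b_o0 g_f22_2 g_tzmp
                      omega
                    · clear * - b_b3 b_f22_6 b_o0 g_f13_2 g_f13_5 g_p13_22B g_p13_33A g_tzmp s3
                      omega
                  · clear * - g_f13_8 g_p13_22B g_p13_33A s3
                    omega
              · rcases g_p22_33A with g_p22_33A | g_p22_33A | g_p22_33A | g_p22_33A | g_p22_33A
                · clear * - e2 g_p22_33A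
                  omega
                · clear * - e3 g_p22_33A
                  omega
                · rcases g_p11_13B with g_p11_13B | g_p11_13B | g_p11_13B | g_p11_13B | g_p11_13B | g_p11_13B
                  · rcases g_p13_22B with g_p13_22B | g_p13_22B | g_p13_22B | g_p13_22B | g_p13_22B | g_p13_22B
                    · clear * - e0 g_p13_22B
                      omega
                    · clear * - e1 g_p13_22B
                      omega
                    · clear * - e2 g_p13_22B
                      omega
                    · clear * - e2 g_f22_2 g_p11_13B g_p13_22B g_p22_33A s1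
                      omega
                    · rcases g_f22_5 with g_f22_5 | g_f22_5
                      · clear * - b_b3 e2 g_f13_5 g_f22_2 g_f22_5 g_p11_13B g_p13_22B g_p22_33A s1
                        omega
                      · clear * - b_b3 g_f13_5 g_f22_5 g_p13_22B g_p22_33A s1
                        omega
                    · rcases g_f13_8 with g_f13_8 | g_f13_8
                      · clear * - b_b3 b_b5 g_f13_5 g_f13_8 g_p13_22B g_p13_33A g_p22_33A s1 s3
                        omega
                      · clear * - g_f13_8 g_p13_22B g_p13_33A s3
                        omega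
                  · clear * - e0 g_p11_13B
                    omega
                  · clear * - e1 g_p11_13B
                    omega
                  · clear * - b_f11_0 g_p11_13B g_p22_33A s1
                    omega
                  · clear * - b_b3 b_f11_0 b_f11_1 g_f13_5 g_p11_13B g_p22_33A s1
                    omega
                  · rcases g_f13_8 with g_f13_8 | g_f13_8
                    · clear * - b_b3 b_f13_7 b_f22_4 b_f22_6 g_f13_5 g_f13_8 g_p13_33A g_p22_33A s1 s3
                      omega
                    · clear * - b_b3 b_f11_0 b_f11_1 b_f11_2 b_f22_4 b_f22_6 g_f13_8 g_p11_13B g_p13_33A s3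
                      omega
                · rcases g_p13_22B with g_p13_22B | g_p13_22B | g_p13_22B | g_p13_22B | g_p13_22B | g_p13_22B
                  · clear * - e0 g_p13_22B
                    omega
                  · clear * - e1 g_p13_22B
                    omega
                  · clear * - e2 g_p13_22B
                    omega
                  · rcases g_p11_33A with g_p11_33A | g_p11_33A | g_p11_33A | g_p11_33A | g_p11_33A
                    · clear * - b_o0 e2 g_f13_2 g_f22_2 g_p11_33A g_p13_22B
                      omega
                    · clear * - e3 g_p11_33A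
                      omega
                    · clear * - b_f11_0 g_p11_33A g_p13_22B s1
                      omega
                    · clear * - b_b2 b_f11_0 b_f11_1 b_f13_3 b_f22_4 g_f22_2 g_p11_33A g_p13_22B s2
                      omega
                    · clear * - b_b3 b_f11_0 b_f11_1 b_f11_2 b_f13_7 b_f22_4 b_f22_6 g_p11_33A s3
                      omega
                  · rcases g_f22_5 with g_f22_5 | g_f22_5
                    · clear * - g_f22_2 g_f22_5 g_p13_22B g_p22_33A g_t12' g_t23 s2
                      omega
                    · clear * - g_f22_5 g_p13_22B g_p22_33A s2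
                      omega
                  · rcases g_f13_8 with g_f13_8 | g_f13_8
                    · clear * - b_b5 g_f13_8 g_p13_22B g_p13_33A g_p22_33A s2 s3
                      omega
                    · clear * - g_f13_8 g_p13_22B g_p13_33A s3
                      omega
                · clear * - b_f13_7 g_p22_33A s3
                  omega
          · rcases g_tzmp with g_tzmp | g_tzmp | g_tzmp | g_tzmp
            · clear * - g_t12' g_tzmp
              omega
            · rcases g_f22_2 with g_f22_2 | g_f22_2
              · rcases g_p13_22B with g_p13_22B | g_p13_22B | g_p13_22B | g_p13_22B | g_p13_22B | g_p13_22B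
                · clear * - e0 g_p13_22B
                  omega
                · clear * - e1 g_p13_22B
                  omega
                · clear * - e2 g_p13_22B
                  omega
                · clear * - b_f33_0 b_o0 g_f13_2 g_f22_2 g_p13_22B s1
                  omega
                · clear * - b_f33_4 b_o1 g_p13_22B g_tzmp s2
                  omega
                · rcases g_tzpm with g_tzpm | g_tzpm | g_tzpm | g_tzpm | ⟨g_tzpm, g_tzpm'⟩
                  · clear * - b_a1 b_f22_1 b_o1 g_f22_2 g_tzpm
                    omega
                  · clear * - b_f13_7 b_f22_4 b_f22_6 b_f33_7 b_o1 g_tzpm s3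
                    omega
                  · rcases g_tpmm with g_tpmm | g_tpmm | g_tpmm | g_tpmm | g_tpmm
                    · clear * - e0 g_tpmm
                      omega
                    · clear * - b_f13_0 b_f13_3 b_f22_4 b_f33_4 g_tpmm g_tzmp s2
                      omega
                    · clear * - b_a1 b_f13_0 b_f13_3 b_f22_4 b_f33_4 b_o1 g_tpmm g_tzmp g_tzpm s2
                      omega
                    · clear * - b_a1 b_f13_0 b_f13_3 b_f22_1 b_f22_4 b_f33_4 b_o1 g_f22_2 g_tpmm g_tzmp g_tzpm s2
                      omega
                    · clear * - b_f33_7 g_p13_22B g_tpmm s3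
                      omega
                  · clear * - b_a4 b_f33_7 b_o1 g_p13_22B g_tzpm s3
                    omega
                  · clear * - b_f33_7 g_p13_22B g_tzpm' s3
                    omega
              · rcases g_tpmm with g_tpmm | g_tpmm | g_tpmm | g_tpmm | g_tpmm
                · clear * - e0 g_tpmm
                  omega
                · clear * - b_f13_0 b_f13_3 b_f22_4 b_f33_4 g_tpmm g_tzmp s2
                  omega
                · clear * - b_a1 b_o0 g_tpmm
                  omega
                · rcases g_p13_22B with g_p13_22B | g_p13_22B | g_p13_22B | g_p13_22B | g_p13_22B | g_p13_22B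
                  · clear * - e0 g_p13_22B
                    omega
                  · clear * - e1 g_p13_22B
                    omega
                  · clear * - e2 g_p13_22B
                    omega
                  · clear * - b_o0 g_f13_2 g_f22_2 g_p13_22B g_t23
                    omega
                  · clear * - b_f13_0 b_f22_1 b_f33_1 b_f33_4 b_o0 g_p13_22B g_tpmm g_tzmp s1 s2
                    omega
                  · rcases g_tzpm with g_tzpm | g_tzpm | g_tzpm | g_tzpm | ⟨g_tzpm, g_tzpm'⟩
                    · clear * - b_f13_0 b_f22_1 b_f33_1 g_tpmm g_tzmp g_tzpm s1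
                      omega
                    · clear * - b_f13_0 b_f22_1 b_f33_1 b_f33_7 b_o0 g_p13_22B g_t23' g_tpmm g_tzmp g_tzpm s1 s3
                      omega
                    · clear * - b_f13_0 b_f13_3 b_f22_1 b_f22_4 b_f33_1 b_f33_4 g_tpmm g_tzmp g_tzpm s1 s2
                      omega
                    · clear * - b_f13_0 b_f22_1 b_f33_1 b_f33_7 b_o0 g_p13_22B g_tpmm g_tzpm s1 s3
                      omega
                    · clear * - b_f33_7 g_p13_22B g_tzpm' s3
                      omega
                · rcases g_p13_22B with g_p13_22B | g_p13_22B | g_p13_22B | g_p13_22B | g_p13_22B | g_p13_22B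
                  · clear * - e0 g_p13_22B
                    omega
                  · clear * - e1 g_p13_22B
                    omega
                  · clear * - e2 g_p13_22B
                    omega
                  · clear * - b_o0 g_f13_2 g_f22_2 g_p13_22B g_t23
                    omega
                  · clear * - b_f33_4 b_o1 g_p13_22B g_tzmp s2
                    omega
                  · clear * - b_f33_7 g_p13_22B g_tpmm s3
                    omega
            · clear * - g_t23 g_tzmp
              omega
            · rcases g_p13_33A with g_p13_33A | g_p13_33A | g_p13_33A | g_p13_33A | g_p13_33A | g_p13_33A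
              · clear * - e0 g_p13_33A
                omega
              · clear * - e1 g_p13_33A
                omega
              · clear * - e3 g_p13_33A
                omega
              · rcases g_tpmm with g_tpmm | g_tpmm | g_tpmm | g_tpmm | g_tpmm
                · clear * - e0 g_tpmm
                  omega
                · rcases g_p22_33A with g_p22_33A | g_p22_33A | g_p22_33A | g_p22_33A | g_p22_33A
                  · clear * - e2 g_p22_33A
                    omega
                  · clear * - e3 g_p22_33A
                    omega
                  · rcases g_tpzm with g_tpzm | g_tpzm | g_tpzm | g_tpzm | g_tpzm | g_tpzm | g_tpzm | ⟨g_tpzm, g_tpzm'⟩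
                    · clear * - e0 g_tpzm
                      omega
                    · clear * - g_t12' g_tpzm
                      omega
                    · clear * - b_b3 b_f13_0 b_f13_7 b_f22_4 b_f22_6 b_f33_7 g_p22_33A g_tpmm g_tpzm s1 s3
                      omega
                    · clear * - b_a1 b_f13_0 g_p22_33A g_tpzm s1
                      omega
                    · clear * - g_t23 g_tpzm
                      omega
                    · clear * - b_b3 b_f13_0 b_f13_3 b_f13_7 b_f22_4 b_f22_6 b_f33_4 b_f33_7 g_p22_33A g_tpmm g_tpzm g_tzmp s1 s2 s3
                      omega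
                    · clear * - b_f13_7 b_f22_4 b_f22_6 b_f33_7 g_tpzm g_tzmp s3
                      omega
                    · clear * - b_f13_0 g_p22_33A g_tpzm s1
                      omega
                  · rcases g_tpzm with g_tpzm | g_tpzm | g_tpzm | g_tpzm | g_tpzm | g_tpzm | g_tpzm | ⟨g_tpzm, g_tpzm'⟩
                    · clear * - e0 g_tpzm
                      omega
                    · clear * - g_t12' g_tpzm
                      omega
                    · clear * - b_f13_0 b_f13_3 b_f13_7 b_f22_4 b_f22_6 b_f33_7 g_p22_33A g_tpmm g_tpzm s2 s3
                      omega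
                    · clear * - b_a1 b_o0 g_tpzm
                      omega
                    · clear * - g_t23 g_tpzm
                      omega
                    · clear * - b_f13_0 b_f13_3 b_f13_7 b_f22_4 b_f22_6 b_f33_4 b_f33_7 g_p22_33A g_tpmm g_tpzm g_tzmp s2 s3
                      omega
                    · clear * - b_f13_7 b_f22_4 b_f22_6 b_f33_7 g_tpzm g_tzmp s3
                      omega
                    · clear * - b_f13_0 b_f13_3 g_p22_33A g_tpmm g_tpzm' s2
                      omega
                  · clear * - b_f13_7 g_p22_33A s3
                    omega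
                · clear * - b_a1 b_o0 g_tpmm
                  omega
                · clear * - b_f22_1 g_p13_33A g_tpmm s1
                  omega
                · clear * - b_f13_7 b_f22_4 b_f22_6 b_f33_7 g_tpmm g_tzmp s3
                  omega
              · clear * - b_f22_4 g_p13_33A s2
                omega
              · clear * - b_f22_4 b_f22_6 g_p13_33A g_tzmp s3
                omega
        · rcases g_tzpm with g_tzpm | g_tzpm | g_tzpm | g_tzpm | ⟨g_tzpm, g_tzpm'⟩
          · rcases g_p13_22B with g_p13_22B | g_p13_22B | g_p13_22B | g_p13_22B | g_p13_22B | g_p13_22B
            · clear * - e0 g_p13_22B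
              omega
            · clear * - e1 g_p13_22B
              omega
            · clear * - e2 g_p13_22B
              omega
            · rcases g_t23 with ⟨g_t23, g_t23'⟩ | ⟨g_t23, g_t23'⟩
              · clear * - g_t23 g_tzpm
                omega
              · rcases g_f22_2 with g_f22_2 | g_f22_2
                · clear * - b_f33_0 b_o0 g_f13_2 g_f22_2 g_p13_22B s1
                  omega
                · clear * - b_o0 g_f13_2 g_f22_2 g_p13_22B g_t23
                  omega
            · rcases g_f22_5 with g_f22_5 | g_f22_5
              · clear * - b_b3 b_f13_0 b_f33_1 b_o1 b_o2 g_f13_5 g_f22_5 g_p13_22B g_tzpm s1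
                omega
              · clear * - b_f33_4 b_o1 b_o2 g_f13_5 g_f22_5 g_p13_22B s2
                omega
            · rcases g_f13_8 with g_f13_8 | g_f13_8
              · clear * - b_a4 b_f13_7 b_f22_4 b_f22_6 b_f33_7 b_o1 g_f13_5 g_f13_8 s3
                omega
              · rcases g_p13_33A with g_p13_33A | g_p13_33A | g_p13_33A | g_p13_33A | g_p13_33A | g_p13_33A
                · clear * - e0 g_p13_33A
                  omega
                · clear * - e1 g_p13_33A
                  omega
                · clear * - e3 g_p13_33A
                  omega
                · rcases g_tpmm with g_tpmm | g_tpmm | g_tpmm | g_tpmm | g_tpmm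
                  · clear * - e0 g_tpmm
                    omega
                  · clear * - b_f13_0 b_f13_3 b_f22_4 b_f33_4 b_f33_7 g_f13_5 g_p13_22B g_tpmm s2 s3
                    omega
                  · clear * - b_f13_0 b_f22_1 b_f33_0 b_o1 g_tpmm g_tzpm s1
                    omega
                  · clear * - b_f22_1 g_p13_33A g_tpmm s1
                    omega
                  · clear * - b_f33_7 g_p13_22B g_tpmm s3
                    omega
                · clear * - b_f22_4 g_p13_33A s2
                  omega
                · clear * - g_f13_8 g_p13_22B g_p13_33A s3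
                  omega
          · clear * - b_f13_7 b_f22_4 b_f22_6 b_f33_7 b_o1 g_tzpm s3
            omega
          · rcases g_tpmm with g_tpmm | g_tpmm | g_tpmm | g_tpmm | g_tpmm
            · clear * - e0 g_tpmm
              omega
            · clear * - b_f13_0 b_f13_3 b_f22_4 b_f33_4 b_o2 g_f13_5 g_tpmm s2
              omega
            · clear * - b_a1 b_f13_0 b_f13_3 b_f22_4 b_f33_4 b_o1 b_o2 g_f13_5 g_tpmm g_tzpm s2
              omega
            · clear * - b_a2 b_f13_0 b_f13_3 b_f22_4 b_f33_4 b_o2 g_f13_5 g_tpmm g_tzpm s2
              omega
            · rcases g_tpmz with g_tpmz | g_tpmz | g_tpmz | g_tpmz | g_tpmz | g_tpmz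
              · clear * - e0 g_tpmz
                omega
              · clear * - b_f13_0 b_f13_3 b_f22_4 b_f33_4 b_o2 g_f13_5 g_tpmz s2
                omega
              · clear * - b_f13_4 b_f22_4 b_f33_4 g_tpmm g_tpmz s2
                omega
              · clear * - b_a1 b_f13_0 b_f13_3 b_f22_4 b_f33_4 b_o1 b_o2 g_f13_5 g_tpmz g_tzpm s2
                omega
              · clear * - b_a2 b_f13_0 b_f13_3 b_f22_4 b_f33_4 b_o2 g_f13_5 g_tpmz g_tzpm s2
                omega
              · clear * - b_f13_7 b_f22_4 b_f22_6 b_f33_7 g_tpmm g_tpmz s3
                omega
          · clear * - b_f13_4 b_f22_4 b_f33_4 b_o1 b_o2 g_tzpm s2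
            omega
          · rcases g_p13_22B with g_p13_22B | g_p13_22B | g_p13_22B | g_p13_22B | g_p13_22B | g_p13_22B
            · clear * - e0 g_p13_22B
              omega
            · clear * - e1 g_p13_22B
              omega
            · clear * - e2 g_p13_22B
              omega
            · rcases g_f22_2 with g_f22_2 | g_f22_2
              · clear * - b_f33_0 b_o0 g_f13_2 g_f22_2 g_p13_22B s1
                omega
              · rcases g_p11_33A with g_p11_33A | g_p11_33A | g_p11_33A | g_p11_33A | g_p11_33A
                · clear * - e0 e2 g_f13_2 g_f22_2 g_p11_33A g_p13_22B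
                  omega
                · clear * - e3 g_p11_33A
                  omega
                · clear * - b_f11_0 g_p11_33A g_p13_22B s1
                  omega
                · clear * - b_b2 b_f11_0 b_f11_1 b_f13_3 b_f22_4 g_f22_2 g_p11_33A g_p13_22B s2
                  omega
                · clear * - b_b3 b_f11_0 b_f11_1 b_f11_2 b_f13_7 b_f22_4 b_f22_6 g_p11_33A s3
                  omega
            · rcases g_f22_2 with g_f22_2 | g_f22_2
              · clear * - b_f22_1 b_f23_0 g_f22_2 g_f23_3 g_tzpm
                omega
              · rcases g_f22_5 with g_f22_5 | g_f22_5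
                · clear * - b_a2 b_f13_0 b_f13_3 b_f33_4 b_o2 g_f13_5 g_f22_2 g_f22_5 g_p13_22B g_tzpm s2
                  omega
                · clear * - b_f33_4 b_o2 g_f13_5 g_f22_5 g_p13_22B g_tzpm s2
                  omega
            · clear * - b_f33_7 g_p13_22B g_tzpm' s3
              omega
      · clear * - b_a4 b_f23_1 b_o2 g_f23_3
        omega
    · rcases g_f22_5 with g_f22_5 | g_f22_5
      · rcases g_f22_2 with g_f22_2 | g_f22_2
        · clear * - b_f13_0 b_f22_4 b_f33_0 b_o0 g_f22_2 g_f22_5 g_t12' s1
          omega
        · clear * - b_b2 b_f22_4 g_f22_2 g_f22_5 g_t12'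
          omega
      · rcases g_f22_2 with g_f22_2 | g_f22_2
        · rcases g_tzpm with g_tzpm | g_tzpm | g_tzpm | g_tzpm | ⟨g_tzpm, g_tzpm'⟩
          · clear * - b_a1 b_f22_1 b_o1 g_f22_2 g_tzpm
            omega
          · clear * - b_f13_7 b_f22_4 b_f22_6 b_f33_7 b_o1 g_tzpm s3
            omega
          · clear * - g_t12' g_tzpm
            omega
          · clear * - b_f13_4 b_f22_4 b_f33_4 b_o1 b_o2 g_tzpm s2
            omega
          · rcases g_p13_22B with g_p13_22B | g_p13_22B | g_p13_22B | g_p13_22B | g_p13_22B | g_p13_22B
            · clear * - e0 g_p13_22B
              omega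
            · clear * - e1 g_p13_22B
              omega
            · clear * - e2 g_p13_22B
              omega
            · clear * - b_f33_0 b_o0 g_f13_2 g_f22_2 g_p13_22B s1
              omega
            · rcases g_f13_5 with g_f13_5 | g_f13_5
              · clear * - b_o0 g_f13_2 g_f13_5 g_f22_5 g_p13_22B g_t12'
                omega
              · clear * - b_f33_4 b_o2 g_f13_5 g_f22_5 g_p13_22B g_tzpm s2
                omega
            · clear * - b_f33_7 g_p13_22B g_tzpm' s3
              omega
        · rcases g_f13_5 with g_f13_5 | g_f13_5
          · rcases g_f33_2 with g_f33_2 | g_f33_2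
            · rcases g_p11_33B with g_p11_33B | g_p11_33B | g_p11_33B | g_p11_33B | g_p11_33B
              · clear * - g_p11_33B g_t12
                omega
              · clear * - e3 g_p11_33B
                omega
              · clear * - b_a1 b_f11_0 b_o0 g_f33_2 g_p11_33B
                omega
              · rcases g_tpzm with g_tpzm | g_tpzm | g_tpzm | g_tpzm | g_tpzm | g_tpzm | g_tpzm | ⟨g_tpzm, g_tpzm'⟩
                · clear * - e0 g_tpzm
                  omega
                · clear * - b_f11_0 b_f11_1 b_f13_0 b_f13_3 b_f22_4 b_o1 g_p11_33B g_t12' g_tpzm s2
                  omega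
                · clear * - b_f13_7 b_f22_4 b_f22_6 b_f33_7 b_o1 g_tpzm s3
                  omega
                · clear * - b_a1 b_f11_0 b_f11_1 b_f13_0 b_f13_3 b_f22_4 b_o1 g_p11_33B g_tpzm s2
                  omega
                · clear * - b_a2 b_f11_0 b_f11_1 b_f13_0 b_f13_3 b_f22_4 b_o1 g_p11_33B g_tpzm s2
                  omega
                · clear * - b_f11_0 b_f11_1 b_f13_4 b_f22_4 b_o1 g_p11_33B g_t12' g_tpzm s2
                  omega
                · rcases g_f33_5 with g_f33_5 | g_f33_5
                  · clear * - b_a1 b_f11_0 b_f11_1 b_f13_0 b_f13_3 b_f22_4 b_o1 g_f33_2 g_f33_5 g_p11_33B g_t12' s2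
                    omega
                  · clear * - b_f11_0 b_f11_1 b_f13_4 b_f22_4 b_o1 g_f33_5 g_p11_33B g_t12' g_tpzm s2
                    omega
                · clear * - b_f11_0 b_f11_1 b_f13_0 b_f13_3 b_f22_4 b_o1 g_p11_33B g_tpzm s2
                  omega
              · rcases g_tzpm with g_tzpm | g_tzpm | g_tzpm | g_tzpm | ⟨g_tzpm, g_tzpm'⟩
                · rcases g_p11_13B with g_p11_13B | g_p11_13B | g_p11_13B | g_p11_13B | g_p11_13B | g_p11_13B
                  · clear * - g_p11_13B g_t12
                    omega
                  · clear * - e0 g_p11_13B
                    omega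
                  · clear * - e1 g_p11_13B
                    omega
                  · rcases g_t23 with ⟨g_t23, g_t23'⟩ | ⟨g_t23, g_t23'⟩
                    · clear * - g_t23 g_tzpm
                      omega
                    · rcases g_p13_33A with g_p13_33A | g_p13_33A | g_p13_33A | g_p13_33A | g_p13_33A | g_p13_33A
                      · clear * - e0 g_p13_33A
                        omega
                      · clear * - e1 g_p13_33A
                        omega
                      · clear * - e3 g_p13_33A
                        omega
                      · clear * - b_f11_0 b_f22_1 b_o1 g_f13_2 g_p11_13B g_p13_33A g_tzpm s1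
                        omega
                      · clear * - b_f22_4 g_p13_33A s2
                        omega
                      · rcases g_tzmp with g_tzmp | g_tzmp | g_tzmp | g_tzmp
                        · clear * - g_t12' g_t23 g_tzmp g_tzpm
                          omega
                        · clear * - b_f11_0 b_f22_1 b_f33_1 b_o1 g_p11_13B g_tzmp g_tzpm s1
                          omega
                        · clear * - g_t23 g_tzmp
                          omega
                        · clear * - b_f22_4 b_f22_6 g_p13_33A g_tzmp s3
                          omega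
                  · clear * - b_b2 b_f11_0 b_f11_1 b_o1 g_f13_2 g_f13_5 g_p11_13B g_t12' g_tzpm
                    omega
                  · rcases g_f13_8 with g_f13_8 | g_f13_8
                    · clear * - b_b5 b_f11_0 b_f11_1 b_f11_2 b_o0 g_f13_2 g_f13_5 g_f13_8 g_p11_13B g_t12'
                      omega
                    · rcases g_t23 with ⟨g_t23, g_t23'⟩ | ⟨g_t23, g_t23'⟩
                      · clear * - g_t23 g_tzpm
                        omega
                      · clear * - b_f11_0 b_f11_1 b_f11_2 g_f13_8 g_p11_13B g_t12' g_t23'
                        omega
                · clear * - b_f13_7 b_f22_4 b_f22_6 b_f33_7 b_o1 g_tzpm s3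
                  omega
                · clear * - g_t12' g_tzpm
                  omega
                · clear * - b_f13_4 b_o0 g_f13_2 g_f13_5 g_t12' g_tzpm
                  omega
                · clear * - b_f11_0 b_f11_1 b_f11_2 b_f13_7 b_f22_4 b_f22_6 g_p11_33B g_t12' g_tzpm' s3
                  omega
            · rcases g_t23 with ⟨g_t23, g_t23'⟩ | ⟨g_t23, g_t23'⟩
              · rcases g_tzpm with g_tzpm | g_tzpm | g_tzpm | g_tzpm | ⟨g_tzpm, g_tzpm'⟩
                · clear * - g_t23 g_tzpm
                  omega
                · clear * - b_f13_7 b_f22_4 b_f22_6 b_f33_7 b_o1 g_tzpm s3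
                  omega
                · clear * - g_t12' g_tzpm
                  omega
                · clear * - b_f13_4 b_f22_4 b_f33_4 b_o1 b_o2 g_tzpm s2
                  omega
                · rcases g_tmzp with g_tmzp | g_tmzp | g_tmzp | g_tmzp | g_tmzp | g_tmzp
                  · clear * - b_f13_4 b_f22_4 b_f33_0 b_f33_4 g_f33_2 g_t23 g_tmzp g_tzpm' s2
                    omega
                  · clear * - g_t23 g_tmzp
                    omega
                  · clear * - b_f13_4 b_f22_4 b_f33_4 g_tmzp g_tzpm' s2
                    omega
                  · clear * - g_t12 g_tmzp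
                    omega
                  · clear * - g_t12' g_tmzp
                    omega
                  · clear * - b_f13_7 b_f22_4 b_f22_6 b_f33_7 g_tmzp g_tzpm' s3
                    omega
              · rcases g_f13_8 with g_f13_8 | g_f13_8
                · clear * - b_f13_7 b_o0 g_f13_2 g_f13_5 g_f13_8 g_t12' g_t23'
                  omega
                · rcases g_p11_22B with g_p11_22B | g_p11_22B | g_p11_22B | g_p11_22B | g_p11_22B
                  · clear * - g_p11_22B g_t12
                    omega
                  · clear * - e2 g_p11_22B
                    omega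
                  · rcases g_p13_33A with g_p13_33A | g_p13_33A | g_p13_33A | g_p13_33A | g_p13_33A | g_p13_33A
                    · clear * - e0 g_p13_33A
                      omega
                    · clear * - e1 g_p13_33A
                      omega
                    · clear * - e3 g_p13_33A
                      omega
                    · clear * - b_f11_0 g_p11_22B g_p13_33A s1
                      omega
                    · clear * - b_f22_4 g_p13_33A s2
                      omega
                    · rcases g_p13_22B with g_p13_22B | g_p13_22B | g_p13_22B | g_p13_22B | g_p13_22B | g_p13_22B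
                      · clear * - e0 g_p13_22B
                        omega
                      · clear * - e1 g_p13_22B
                        omega
                      · clear * - e2 g_p13_22B
                        omega
                      · clear * - b_o0 g_f13_2 g_f22_2 g_p13_22B g_t23
                        omega
                      · clear * - b_o0 g_f13_2 g_f13_5 g_f22_5 g_p13_22B g_t12'
                        omega
                      · clear * - g_f13_8 g_p13_22B g_p13_33A s3
                        omega
                  · rcases g_p13_33A with g_p13_33A | g_p13_33A | g_p13_33A | g_p13_33A | g_p13_33A | g_p13_33A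
                    · clear * - e0 g_p13_33A
                      omega
                    · clear * - e1 g_p13_33A
                      omega
                    · clear * - e3 g_p13_33A
                      omega
                    · rcases g_p11_13B with g_p11_13B | g_p11_13B | g_p11_13B | g_p11_13B | g_p11_13B | g_p11_13B
                      · clear * - g_p11_13B g_t12
                        omega
                      · clear * - e0 g_p11_13B
                        omega
                      · clear * - e1 g_p11_13B
                        omega
                      · clear * - b_f11_0 b_f11_1 b_f13_3 b_f22_1 b_f33_4 b_o1 g_f13_2 g_f33_2 g_p11_13B g_p11_22B g_p13_33A s1 s2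
                        omega
                      · clear * - b_f11_0 b_f11_1 b_f22_1 b_f22_4 b_f33_4 b_o1 g_f13_2 g_f13_5 g_f33_2 g_p11_13B g_p13_33A g_t12' s1 s2
                        omega
                      · clear * - b_f11_0 b_f11_1 b_f11_2 g_f13_8 g_p11_13B g_t12' g_t23'
                        omega
                    · clear * - b_f22_4 g_p13_33A s2
                      omega
                    · rcases g_p13_22B with g_p13_22B | g_p13_22B | g_p13_22B | g_p13_22B | g_p13_22B | g_p13_22B
                      · clear * - e0 g_p13_22B
                        omega
                      · clear * - e1 g_p13_22B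
                        omega
                      · clear * - e2 g_p13_22B
                        omega
                      · clear * - b_o0 g_f13_2 g_f22_2 g_p13_22B g_t23
                        omega
                      · clear * - b_o0 g_f13_2 g_f13_5 g_f22_5 g_p13_22B g_t12'
                        omega
                      · clear * - g_f13_8 g_p13_22B g_p13_33A s3
                        omega
                  · clear * - b_f11_0 b_f11_1 b_f11_2 b_f22_6 g_f22_5 g_p11_22B g_t12' g_t23'
                    omega
          · rcases g_tzpm with g_tzpm | g_tzpm | g_tzpm | g_tzpm | ⟨g_tzpm, g_tzpm'⟩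
            · rcases g_t23 with ⟨g_t23, g_t23'⟩ | ⟨g_t23, g_t23'⟩
              · clear * - g_t23 g_tzpm
                omega
              · rcases g_p11_33B with g_p11_33B | g_p11_33B | g_p11_33B | g_p11_33B | g_p11_33B
                · clear * - g_p11_33B g_t12
                  omega
                · clear * - e3 g_p11_33B
                  omega
                · clear * - b_f11_0 b_f13_0 b_f22_1 b_o1 g_p11_33B g_tzpm s1
                  omega
                · rcases g_f33_5 with g_f33_5 | g_f33_5
                  · clear * - b_f11_0 b_f11_1 b_f13_0 b_f22_1 b_o1 g_f33_5 g_p11_33B g_t12' g_tzpm s1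
                    omega
                  · rcases g_tpmm with g_tpmm | g_tpmm | g_tpmm | g_tpmm | g_tpmm
                    · clear * - e0 g_tpmm
                      omega
                    · clear * - b_f11_0 b_f11_1 b_f13_0 b_f22_1 b_f33_1 b_o1 g_f33_5 g_p11_33B g_t12' g_tpmm g_tzpm s1
                      omega
                    · clear * - b_a1 b_f11_0 b_f11_1 b_f13_0 b_f22_1 b_f33_1 b_o1 g_f33_5 g_p11_33B g_t12' g_tpmm g_tzpm s1
                      omega
                    · clear * - b_f11_0 b_f11_1 b_f13_0 b_f22_1 b_f33_1 b_o1 g_f33_5 g_p11_33B g_t12' g_tpmm g_tzpm s1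
                      omega
                    · clear * - b_f11_0 b_f11_1 b_f13_4 b_f22_4 b_o1 g_f33_5 g_p11_33B g_t12' g_tpmm s2
                      omega
                · rcases g_f13_8 with g_f13_8 | g_f13_8
                  · clear * - b_a5 b_f13_7 b_f22_4 b_f33_4 b_o1 g_f13_5 g_f13_8 g_t23' s2
                    omega
                  · rcases g_p11_13B with g_p11_13B | g_p11_13B | g_p11_13B | g_p11_13B | g_p11_13B | g_p11_13B
                    · clear * - g_p11_13B g_t12
                      omega
                    · clear * - e0 g_p11_13B
                      omega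
                    · clear * - e1 g_p11_13B
                      omega
                    · rcases g_f33_8 with g_f33_8 | g_f33_8
                      · clear * - b_f11_0 b_f11_1 b_f11_2 b_f13_3 b_f22_4 b_o1 g_f33_8 g_p11_13B g_p11_33B g_t23' s2
                        omega
                      · clear * - b_f11_0 b_f11_1 b_f11_2 b_f13_3 b_f22_1 b_f33_1 b_o1 g_f13_5 g_f33_8 g_p11_13B g_p11_33B g_t23' g_tzpm s1
                        omega
                    · clear * - b_a4 b_f11_0 b_f11_1 b_f11_2 b_f13_7 b_f22_4 b_f22_6 b_o1 g_f13_5 g_p11_13B g_p11_33B g_t12' s3
                      omega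
                    · clear * - b_f11_0 b_f11_1 b_f11_2 g_f13_8 g_p11_13B g_t12' g_t23'
                      omega
            · clear * - b_f13_7 b_f22_4 b_f22_6 b_f33_7 b_o1 g_tzpm s3
              omega
            · clear * - g_t12' g_tzpm
              omega
            · clear * - b_f13_4 b_f22_4 b_f33_4 b_o1 b_o2 g_tzpm s2
              omega
            · rcases g_p11_13B with g_p11_13B | g_p11_13B | g_p11_13B | g_p11_13B | g_p11_13B | g_p11_13B
              · clear * - g_p11_13B g_t12
                omega
              · clear * - e0 g_p11_13B
                omega
              · clear * - e1 g_p11_13B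
                omega
              · rcases g_p11_33B with g_p11_33B | g_p11_33B | g_p11_33B | g_p11_33B | g_p11_33B
                · clear * - g_p11_33B g_t12
                  omega
                · clear * - e3 g_p11_33B
                  omega
                · rcases g_f33_2 with g_f33_2 | g_f33_2
                  · clear * - b_f11_0 b_f13_0 b_f22_0 b_o0 g_f33_2 g_p11_33B s1
                    omega
                  · clear * - b_f11_0 b_f13_0 b_f13_4 b_f22_1 b_f22_4 b_f33_4 b_o0 g_f33_2 g_p11_33B g_tzpm g_tzpm' s1 s2
                    omega
                · clear * - b_f11_0 b_f11_1 b_f13_3 b_f22_4 g_p11_13B g_p11_33B g_tzpm s2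
                  omega
                · clear * - b_f11_0 b_f11_1 b_f11_2 b_f13_3 b_f13_7 b_f22_4 b_f22_6 b_f33_4 g_f13_5 g_p11_13B g_p11_33B g_tzpm g_tzpm' s2 s3
                  omega
              · clear * - b_f11_0 b_f11_1 b_f22_4 b_f33_4 b_o2 g_f13_5 g_p11_13B g_t12' g_tzpm s2
                omega
              · clear * - b_f11_0 b_f11_1 b_f11_2 b_f22_4 b_f22_6 b_f33_7 g_p11_13B g_t12' g_tzpm' s3
                omega
  · clear * - b_a2 b_f13_0 b_f13_4 b_f22_4 b_f33_4 b_o2 g_f13_2 s2
    omega

end Pool.Agent.Helper78.TQ
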