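import Pool.Agent.Helper89.TQ.Ctx

set_option autoImplicit false
set_option linter.all false
set_option maxHeartbeats 4000000
set_option maxRecDepth 10000

namespace Pool.Agent.Helper78.TQ

open Pool.Agent.Helper89.TQ

theorem c0_13_22_33_k3 {n1 n2 n3 A1 A2 A3 B1 B2 B3 m11_1 m11_2 m11_3 m13_1 m13_2 m13_3 m22_1 m22_2 m22_3 m23_1 m23_2 m23_3 m33_1 m33_2 m33_3 : ℤ}
    (C : Ctx0 n1 n2 n3 A1 A2 A3 B1 B2 B3 m11_1 m11_2 m11_3 m13_1 m13_2 m13_3 m22_1 m22_2 m22_3 m23_1 m23_2 m23_3 m33_1 m33_2 m33_3)
    (e0 : 0 < A1)
    (e1 : 0 < B3)
    (e2 : 0 < B2)
    (e3 : 0 < A3)
    (s1 : 3 * A1 + 0 * B1 ≤ m13_1 + m22_1 + m33_1)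
    (s2 : 3 * A2 + 0 * B2 ≤ m13_2 + m22_2 + m33_2)
    (s3 : 3 * A3 + 0 * B3 ≤ m13_3 + m22_3 + m33_3) : F1 n1 n2 n3 A1 A2 A3 B1 B2 B3 ∨ F2 n1 n2 n3 A1 A2 A3 B1 B2 B3 := by
  by_contra hcon
  have g_t23 : (A1 < A2 ∧ A3 < A2 + n3) ∨ (B1 < B2 ∧ B3 < B2 + n3) := by
    have h := C.t23
    clear * - h
    omega
  have g_f13_2 : (m13_1 = -1 + A1) ∨ (m13_1 = -1 + B3) := by
    have h := C.f13_2
    clear * - h
    omega
  have g_f13_8 : (m13_3 = m13_2 + n3) ∨ (m13_3 = -1 + B3) := by
    have h := C.f13_8
    clear * - h
    omega
  have g_f22_2 : (m22_1 = n1) ∨ (m22_1 = -1 + B2) := by
    have h := C.f22_2
    clear * - h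
    omega
  have g_f22_5 : (m22_2 = m22_1 + n2) ∨ (m22_2 = -1 + B2) := by
    have h := C.f22_5
    clear * - h
    omega
  have g_f23_3 : (m23_1 = n1) ∨ (m23_1 = -1 + A2) ∨ (m23_1 = -1 + B3) := by
    have h := C.f23_3
    clear * - h
    omega
  have g_f23_7 : (m23_2 = m23_1 + n2) ∨ (m23_2 = -1 + A2) ∨ (m23_2 = -1 + B3) := by
    have h := C.f23_7
    clear * - h
    omega
  have g_f23_10 : (m23_3 = m23_2 + n3) ∨ (m23_3 = -1 + B3) := by
    have h := C.f23_10
    clear * - h
    omega
  have g_f33_2 : (m33_1 = n1) ∨ (m33_1 = -1 + A3) := by
    have h := C.f33_2
    clear * - h
    omega
  have g_f33_5 : (m33_2 = m33_1 + n2) ∨ (m33_2 = -1 + A3) := by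
    have h := C.f33_5
    clear * - h
    omega
  have g_f33_8 : (m33_3 = m33_2 + n3) ∨ (m33_3 = -1 + A3) := by
    have h := C.f33_8
    clear * - h
    omega
  have g_p11_23B : (0 ≥ B1) ∨ (0 ≥ A2) ∨ (0 ≥ B3) ∨ (2 * B1 > m11_1 + m23_1) ∨ (2 * B2 > m11_2 + m23_2) ∨ (2 * B3 > m11_3 + m23_3) := by
    have h := C.p11_23B
    clear * - h
    omega
  have g_p13_22A : (0 ≥ A1) ∨ (0 ≥ B3) ∨ (0 ≥ B2) ∨ (2 * A1 > m13_1 + m22_1) ∨ (2 * A2 > m13_2 + m22_2) ∨ (2 * A3 > m13_3 + m22_3) := by
    have h := C.p13_22A
    clear * - h
    omega
  have g_p13_22B : (0 ≥ A1) ∨ (0 ≥ B3) ∨ (0 ≥ B2) ∨ (2 * B1 > m13_1 + m22_1) ∨ (2 * B2 > m13_2 + m22_2) ∨ (2 * B3 > m13_3 + m22_3) := by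
    have h := C.p13_22B
    clear * - h
    omega
  have g_p13_23A : (0 ≥ A1) ∨ (0 ≥ B3) ∨ (0 ≥ A2) ∨ (2 * A1 > m13_1 + m23_1) ∨ (2 * A2 > m13_2 + m23_2) ∨ (2 * A3 > m13_3 + m23_3) := by
    have h := C.p13_23A
    clear * - h
    omega
  have g_p13_33A : (0 ≥ A1) ∨ (0 ≥ B3) ∨ (0 ≥ A3) ∨ (2 * A1 > m13_1 + m33_1) ∨ (2 * A2 > m13_2 + m33_2) ∨ (2 * A3 > m13_3 + m33_3) := by
    have h := C.p13_33A
    clear * - h
    omega
  have g_p22_33A : (0 ≥ B2) ∨ (0 ≥ A3) ∨ (2 * A1 > m22_1 + m33_1) ∨ (2 * A2 > m22_2 + m33_2) ∨ (2 * A3 > m22_3 + m33_3) := by
    have h := C.p22_33A
    clear * - h
    omega
  have g_p23_33A : (0 ≥ A2) ∨ (0 ≥ B3) ∨ (0 ≥ A3) ∨ (2 * A1 > m23_1 + m33_1) ∨ (2 * A2 > m23_2 + m33_2) ∨ (2 * A3 > m23_3 + m33_3) := by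
    have h := C.p23_33A
    clear * - h
    omega
  have g_tzmp : (1 + A2 > A1 + n2) ∨ (2 + A2 > A3) ∨ (1 + B1 > B2) ∨ (2 + B3 > B2 + n3) := by
    have h := C.tzmp
    clear * - h
    omega
  have g_tzpm : (1 + A1 > A2) ∨ (2 + A3 > A2 + n3) ∨ (1 + B2 > B1 + n2) ∨ (2 + B2 > B3) ∨ (A2 ≥ 1 + B2 ∧ A3 ≥ -1 + B3) := by
    have h := C.tzpm
    clear * - h
    omega
  have g_tpmm : (1 > A1) ∨ (2 + A2 > A1 + n2) ∨ (1 + B1 > n1) ∨ (2 + B1 > B2) ∨ (A3 ≥ -1 + B3) := by
    have h := C.tpmm
    clear * - h
    omega
  have g_tpmz : (1 > A1) ∨ (2 + A2 > A1 + n2) ∨ (1 + A2 > A3) ∨ (1 + B1 > n1) ∨ (2 + B1 > B2) ∨ (1 + B3 > B2 + n3) := by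
    have h := C.tpmz
    clear * - h
    omega
  have g_tpzm : (1 > A1) ∨ (1 + A2 > A1 + n2) ∨ (1 + A3 > A2 + n3) ∨ (1 + B1 > n1) ∨ (1 + B1 > B2) ∨ (1 + B2 > B3) ∨ (A3 ≥ -1 + B3) ∨ (1 + B1 ≥ A1 ∧ B2 ≥ A2) := by
    have h := C.tpzm
    clear * - h
    omega
  have g_F2 : (1 > A1) ∨ (1 + 2 * A1 > n1) ∨ (3 > n2) ∨ (n3 < 3 + 2 * A1) ∨ (n3 > 3 + 2 * A1) ∨ (-A1 + A2 < 1) ∨ (-A1 + A2 > 1) ∨ (-A2 + A3 < 1 + A1) ∨ (-A2 + A3 > 1 + A1) ∨ (B1 < 0) ∨ (B1 > 0) ∨ (-B1 + B2 < 1) ∨ (-B1 + B2 > 1) ∨ (-B2 + B3 < 2 + 2 * A1) ∨ (-B2 + B3 > 2 + 2 * A1) := by
    have h : ¬ F2 n1 n2 n3 A1 A2 A3 B1 B2 B3 := fun h => hcon (Or.inr h)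
    unfold F2 at h
    clear * - h
    omega
  have b_a1 := C.a1
  have b_a2 := C.a2
  have b_a3 := C.a3
  have b_a4 := C.a4
  have b_a5 := C.a5
  have b_b0 := C.b0
  have b_b3 := C.b3
  have b_b4 := C.b4
  have b_b5 := C.b5
  have b_o0 := C.o0
  have b_o1 := C.o1
  have b_o2 := C.o2
  have b_f11_0 := C.f11_0
  have b_f11_1 := C.f11_1
  have b_f11_2 := C.f11_2
  have b_f13_0 := C.f13_0
  have b_f13_3 := C.f13_3
  have b_f13_4 := C.f13_4
  have b_f13_7 := C.f13_7
  have b_f22_0 := C.f22_0
  have b_f22_1 := C.f22_1
  have b_f22_4 := C.f22_4
  have b_f22_6 := C.f22_6
  have b_f23_0 := C.f23_0
  have b_f23_1 := C.f23_1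
  have b_f23_5 := C.f23_5
  have b_f23_8 := C.f23_8
  have b_f23_9 := C.f23_9
  have b_f33_0 := C.f33_0
  have b_f33_1 := C.f33_1
  have b_f33_3 := C.f33_3
  have b_f33_4 := C.f33_4
  have b_f33_7 := C.f33_7
  clear C
  rcases g_f13_2 with g_f13_2 | g_f13_2
  · rcases g_t23 with ⟨g_t23, g_t23'⟩ | ⟨g_t23, g_t23'⟩
    · rcases g_f23_3 with g_f23_3 | g_f23_3 | g_f23_3
      · rcases g_f23_10 with g_f23_10 | g_f23_10
        · rcases g_f23_7 with g_f23_7 | g_f23_7 | g_f23_7
          · clear * - b_a1 b_a3 b_b5 b_f23_9 b_o1 g_f23_10 g_f23_3 g_f23_7
            omega
          · rcases g_tzpm with g_tzpm | g_tzpm | g_tzpm | g_tzpm | ⟨g_tzpm, g_tzpm'⟩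
            · clear * - g_t23 g_tzpm
              omega
            · clear * - b_b5 b_f13_7 b_f22_4 b_f22_6 b_f33_7 b_o1 g_tzpm s3
              omega
            · rcases g_tpmm with g_tpmm | g_tpmm | g_tpmm | g_tpmm | g_tpmm
              · clear * - e0 g_tpmm
                omega
              · rcases g_p22_33A with g_p22_33A | g_p22_33A | g_p22_33A | g_p22_33A | g_p22_33A
                · clear * - e2 g_p22_33A
                  omega
                · clear * - e3 g_p22_33A
                  omega
                · clear * - b_f13_0 g_p22_33A s1
                  omega
                · clear * - b_f13_0 b_f13_3 g_p22_33A g_tpmm s2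
                  omega
                · rcases g_f33_8 with g_f33_8 | g_f33_8
                  · clear * - b_b3 b_b5 b_f13_0 b_f13_3 b_f13_7 b_f22_6 b_o0 g_f33_8 g_p22_33A g_tpmm s2 s3
                    omega
                  · rcases g_p13_33A with g_p13_33A | g_p13_33A | g_p13_33A | g_p13_33A | g_p13_33A | g_p13_33A
                    · clear * - e0 g_p13_33A
                      omega
                    · clear * - e1 g_p13_33A
                      omega
                    · clear * - e3 g_p13_33A
                      omega
                    · clear * - b_b3 b_b5 b_f13_3 b_f13_7 b_f22_6 b_f33_3 b_o0 g_f33_8 g_p13_33A g_p22_33A g_tpmm s2 s3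
                      omega
                    · clear * - b_b3 b_b5 b_f13_7 b_f22_6 b_o0 g_f33_8 g_p13_33A g_p22_33A g_tpmm s2 s3
                      omega
                    · clear * - g_f33_8 g_p13_33A g_p22_33A s3
                      omega
              · clear * - b_a1 b_o0 g_tpmm
                omega
              · clear * - b_a3 b_f13_0 b_f22_0 b_f23_1 b_f33_0 g_f23_3 g_tpmm g_tzpm s1
                omega
              · clear * - b_f13_7 b_f22_4 b_f22_6 b_f23_9 b_f33_7 b_o1 g_f23_10 g_f23_7 g_tpmm s3
                omega
            · clear * - b_a4 b_f13_7 b_f22_4 b_f22_6 b_f23_9 b_f33_7 b_o1 g_f23_10 g_f23_7 g_tzpm s3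
              omega
            · clear * - b_b5 b_f23_9 g_f23_10 g_f23_7 g_tzpm
              omega
          · clear * - b_a4 b_f23_9 g_f23_10 g_f23_7 g_t23'
            omega
        · rcases g_f33_2 with g_f33_2 | g_f33_2
          · rcases g_p22_33A with g_p22_33A | g_p22_33A | g_p22_33A | g_p22_33A | g_p22_33A
            · clear * - e2 g_p22_33A
              omega
            · clear * - e3 g_p22_33A
              omega
            · clear * - b_f13_0 g_p22_33A s1
              omega
            · rcases g_p13_22A with g_p13_22A | g_p13_22A | g_p13_22A | g_p13_22A | g_p13_22A | g_p13_22A
              · clear * - e0 g_p13_22A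
                omega
              · clear * - e1 g_p13_22A
                omega
              · clear * - e2 g_p13_22A
                omega
              · rcases g_f23_7 with g_f23_7 | g_f23_7 | g_f23_7
                · clear * - b_a3 b_f23_5 b_f33_0 g_f23_3 g_f23_7 g_p13_22A s1
                  omega
                · rcases g_f22_2 with g_f22_2 | g_f22_2
                  · clear * - b_f33_0 g_f13_2 g_f22_2 g_p13_22A s1
                    omega
                  · rcases g_p13_23A with g_p13_23A | g_p13_23A | g_p13_23A | g_p13_23A | g_p13_23A | g_p13_23A
                    · clear * - e0 g_p13_23A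
                      omega
                    · clear * - e1 g_p13_23A
                      omega
                    · clear * - b_f23_1 b_f33_0 e0 g_f23_3 g_p13_22A g_p13_23A s1
                      omega
                    · clear * - b_f33_0 g_f13_2 g_f23_3 g_p13_22A g_p13_23A s1
                      omega
                    · clear * - g_f23_7 g_p13_23A g_p22_33A s2
                      omega
                    · rcases g_f13_8 with g_f13_8 | g_f13_8
                      · clear * - b_f22_4 b_f22_6 b_f23_1 b_f33_0 b_f33_7 b_o2 g_f13_2 g_f13_8 g_f22_2 g_f23_10 g_f23_3 g_p13_22A g_p13_23A g_p22_33A s1 s2 s3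
                        omega
                      · clear * - b_o2 g_f13_8 g_f23_10 g_p13_23A
                        omega
                · clear * - b_a4 b_f23_5 b_o2 g_f23_7
                  omega
              · rcases g_f13_8 with g_f13_8 | g_f13_8
                · clear * - b_b5 b_f13_7 b_o1 g_f13_8 g_p22_33A s2
                  omega
                · rcases g_f23_7 with g_f23_7 | g_f23_7 | g_f23_7
                  · clear * - b_a1 b_f13_0 b_f13_3 b_f23_5 g_f23_3 g_f23_7 g_p22_33A s2
                    omega
                  · rcases g_p13_23A with g_p13_23A | g_p13_23A | g_p13_23A | g_p13_23A | g_p13_23A | g_p13_23A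
                    · clear * - e0 g_p13_23A
                      omega
                    · clear * - e1 g_p13_23A
                      omega
                    · clear * - b_f13_0 b_f22_0 b_f23_1 b_f33_0 e0 g_f23_3 g_p13_23A s1
                      omega
                    · clear * - b_f22_0 b_f33_0 g_f13_2 g_f23_3 g_p13_23A s1
                      omega
                    · clear * - g_f23_7 g_p13_23A g_p22_33A s2
                      omega
                    · clear * - b_o2 g_f13_8 g_f23_10 g_p13_23A
                      omega
                  · clear * - b_f23_5 b_f33_4 b_o2 g_f23_7 g_p13_22A s2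
                    omega
              · clear * - b_f33_7 g_p13_22A s3
                omega
            · rcases g_p13_23A with g_p13_23A | g_p13_23A | g_p13_23A | g_p13_23A | g_p13_23A | g_p13_23A
              · clear * - e0 g_p13_23A
                omega
              · clear * - e1 g_p13_23A
                omega
              · clear * - b_f13_0 b_f22_0 b_f23_1 b_f33_0 e0 g_f23_3 g_p13_23A s1
                omega
              · clear * - b_f22_0 b_f33_0 g_f13_2 g_f23_3 g_p13_23A s1
                omega
              · rcases g_f33_8 with g_f33_8 | g_f33_8
                · clear * - b_b5 b_f13_7 b_f22_6 b_f23_8 b_o1 g_f23_10 g_f33_8 g_p13_23A g_p22_33A s2 s3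
                  omega
                · rcases g_p13_33A with g_p13_33A | g_p13_33A | g_p13_33A | g_p13_33A | g_p13_33A | g_p13_33A
                  · clear * - e0 g_p13_33A
                    omega
                  · clear * - e1 g_p13_33A
                    omega
                  · clear * - e3 g_p13_33A
                    omega
                  · clear * - b_f22_0 g_f13_2 g_f33_2 g_p13_33A s1
                    omega
                  · clear * - b_b5 b_f13_7 b_f22_6 b_o1 g_f33_8 g_p13_33A g_p22_33A s2 s3
                    omega
                  · clear * - g_f33_8 g_p13_33A g_p22_33A s3
                    omega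
              · clear * - b_f13_7 g_f23_10 g_p13_23A g_p22_33A s3
                omega
          · rcases g_f23_7 with g_f23_7 | g_f23_7 | g_f23_7
            · clear * - b_f13_0 b_f13_3 b_f22_1 b_f22_4 b_f23_1 b_f23_5 b_f33_0 b_f33_4 b_o1 g_f23_3 g_f23_7 g_f33_2 s1 s2
              omega
            · rcases g_f13_8 with g_f13_8 | g_f13_8
              · clear * - b_b5 b_f13_7 b_f22_4 b_f23_1 b_f33_0 b_f33_4 b_o1 g_f13_8 g_f23_3 g_f33_2 s2
                omega
              · rcases g_p13_22A with g_p13_22A | g_p13_22A | g_p13_22A | g_p13_22A | g_p13_22A | g_p13_22A
                · clear * - e0 g_p13_22A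
                  omega
                · clear * - e1 g_p13_22A
                  omega
                · clear * - e2 g_p13_22A
                  omega
                · rcases g_p13_23A with g_p13_23A | g_p13_23A | g_p13_23A | g_p13_23A | g_p13_23A | g_p13_23A
                  · clear * - e0 g_p13_23A
                    omega
                  · clear * - e1 g_p13_23A
                    omega
                  · clear * - b_f23_1 b_f33_0 e0 g_f23_3 g_p13_22A g_p13_23A s1
                    omega
                  · clear * - b_f33_0 g_f13_2 g_f23_3 g_p13_22A g_p13_23A s1
                    omega
                  · clear * - b_f22_4 b_f23_1 b_f33_0 b_f33_4 b_o1 g_f23_3 g_f23_7 g_f33_2 g_p13_23A s2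
                    omega
                  · clear * - b_f13_4 b_f22_4 b_f23_1 b_f33_0 b_f33_4 b_o1 g_f13_8 g_f23_10 g_f23_3 g_f33_2 g_p13_23A s2
                    omega
                · clear * - b_f23_1 b_f33_0 b_f33_4 g_f23_3 g_f33_2 g_p13_22A s2
                  omega
                · clear * - b_b5 b_f13_4 b_f22_4 b_f22_6 b_f23_1 b_f33_0 b_f33_4 b_o1 g_f13_8 g_f23_3 g_f33_2 g_p13_22A s2
                  omega
            · clear * - b_f13_4 b_f22_4 b_f23_1 b_f23_5 b_f33_0 b_f33_4 b_o1 g_f23_3 g_f23_7 g_f33_2 s2
              omega
      · rcases g_f22_2 with g_f22_2 | g_f22_2
        · rcases g_p13_22A with g_p13_22A | g_p13_22A | g_p13_22A | g_p13_22A | g_p13_22A | g_p13_22A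
          · clear * - e0 g_p13_22A
            omega
          · clear * - e1 g_p13_22A
            omega
          · clear * - e2 g_p13_22A
            omega
          · clear * - b_f33_0 g_f13_2 g_f22_2 g_p13_22A s1
            omega
          · rcases g_f23_7 with g_f23_7 | g_f23_7 | g_f23_7
            · clear * - b_b3 b_f13_0 b_f22_1 b_f23_5 b_f33_0 b_o0 g_f22_2 g_f23_3 g_f23_7 s1
              omega
            · rcases g_p23_33A with g_p23_33A | g_p23_33A | g_p23_33A | g_p23_33A | g_p23_33A | g_p23_33A
              · clear * - e0 g_p23_33A g_t23
                omega
              · clear * - e1 g_p23_33A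
                omega
              · clear * - e3 g_p23_33A
                omega
              · clear * - b_f13_0 b_f22_1 b_o1 g_f23_3 g_p23_33A s1
                omega
              · clear * - g_f23_7 g_p13_22A g_p23_33A s2
                omega
              · rcases g_f33_8 with g_f33_8 | g_f33_8
                · clear * - b_f33_7 g_f33_8 g_p13_22A g_t23' s2
                  omega
                · rcases g_f23_10 with g_f23_10 | g_f23_10
                  · clear * - b_b5 b_f13_7 b_f22_4 b_f22_6 b_o1 g_f23_10 g_f23_7 g_f33_8 g_p23_33A s3
                    omega
                  · rcases g_p22_33A with g_p22_33A | g_p22_33A | g_p22_33A | g_p22_33A | g_p22_33A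
                    · clear * - e2 g_p22_33A
                      omega
                    · clear * - e3 g_p22_33A
                      omega
                    · clear * - b_f13_0 g_p22_33A s1
                      omega
                    · rcases g_f22_5 with g_f22_5 | g_f22_5
                      · clear * - b_f13_0 b_f13_3 b_f33_0 g_f22_2 g_f22_5 g_p13_22A g_p22_33A s1 s2
                        omega
                      · clear * - b_f22_1 b_f23_0 g_f22_2 g_f22_5 g_f23_3 g_p13_22A g_p22_33A s2
                        omega
                    · clear * - b_f13_7 g_f23_10 g_f33_8 g_p22_33A g_p23_33A s3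
                      omega
            · clear * - b_f23_5 b_f33_4 b_o2 g_f23_7 g_p13_22A s2
              omega
          · clear * - b_f33_7 g_p13_22A s3
            omega
        · rcases g_f22_5 with g_f22_5 | g_f22_5
          · clear * - b_a3 b_f22_4 g_f22_2 g_f22_5 g_t23
            omega
          · rcases g_p22_33A with g_p22_33A | g_p22_33A | g_p22_33A | g_p22_33A | g_p22_33A
            · clear * - e2 g_p22_33A
              omega
            · clear * - e3 g_p22_33A
              omega
            · clear * - b_f13_0 g_p22_33A s1
              omega
            · rcases g_f23_7 with g_f23_7 | g_f23_7 | g_f23_7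
              · clear * - b_f13_0 b_f13_3 b_f23_5 g_f23_3 g_f23_7 g_p22_33A g_t23 s2
                omega
              · rcases g_f23_10 with g_f23_10 | g_f23_10
                · rcases g_tpmm with g_tpmm | g_tpmm | g_tpmm | g_tpmm | g_tpmm
                  · clear * - e0 g_tpmm
                    omega
                  · clear * - b_f13_0 b_f13_3 g_p22_33A g_tpmm s2
                    omega
                  · clear * - b_a1 b_o0 g_tpmm
                    omega
                  · clear * - b_b5 b_f23_9 b_o0 g_f23_10 g_f23_7 g_t23 g_tpmm
                    omega
                  · clear * - b_f13_7 b_f22_4 b_f22_6 b_f23_9 b_f33_7 b_o1 g_f23_10 g_f23_7 g_tpmm s3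
                    omega
                · rcases g_p13_33A with g_p13_33A | g_p13_33A | g_p13_33A | g_p13_33A | g_p13_33A | g_p13_33A
                  · clear * - e0 g_p13_33A
                    omega
                  · clear * - e1 g_p13_33A
                    omega
                  · clear * - e3 g_p13_33A
                    omega
                  · rcases g_f33_2 with g_f33_2 | g_f33_2
                    · clear * - b_f22_0 g_f13_2 g_f33_2 g_p13_33A s1
                      omega
                    · clear * - b_a4 b_f22_1 b_o1 g_f13_2 g_f33_2 g_p13_33A s1
                      omega
                  · clear * - b_f22_4 b_o1 g_p13_33A s2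
                    omega
                  · rcases g_f33_2 with g_f33_2 | g_f33_2
                    · rcases g_p11_23B with g_p11_23B | g_p11_23B | g_p11_23B | g_p11_23B | g_p11_23B | g_p11_23B
                      · rcases g_tzpm with g_tzpm | g_tzpm | g_tzpm | g_tzpm | ⟨g_tzpm, g_tzpm'⟩
                        · clear * - g_t23 g_tzpm
                          omega
                        · clear * - b_f22_4 b_f22_6 b_o1 g_p13_33A g_tzpm s3
                          omega
                        · rcases g_tpzm with g_tpzm | g_tpzm | g_tpzm | g_tpzm | g_tpzm | g_tpzm | g_tpzm | ⟨g_tpzm, g_tpzm'⟩
                          · clear * - e0 g_tpzm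
                            omega
                          · clear * - b_f13_0 b_f13_3 g_p22_33A g_tpzm s2
                            omega
                          · clear * - g_t23' g_tpzm
                            omega
                          · clear * - b_f13_0 b_f13_3 b_f22_1 b_f23_0 b_f33_0 b_o1 g_f23_3 g_p22_33A g_tpzm g_tzpm s1 s2
                            omega
                          · clear * - e2 g_p11_23B g_tpzm
                            omega
                          · clear * - b_f13_4 b_o1 g_p22_33A g_tpzm s2
                            omega
                          · rcases g_tpmz with g_tpmz | g_tpmz | g_tpmz | g_tpmz | g_tpmz | g_tpmz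
                            · clear * - e0 g_tpmz
                              omega
                            · clear * - b_f13_0 b_f13_3 g_p22_33A g_tpmz s2
                              omega
                            · clear * - b_f13_4 g_p22_33A g_tpmz g_tpzm s2
                              omega
                            · clear * - b_a1 b_f13_0 b_f13_3 b_o1 g_p22_33A g_tpmz g_tzpm s2
                              omega
                            · clear * - b_f13_0 b_f13_3 g_p22_33A g_t23 g_tpmz g_tzpm s2
                              omega
                            · clear * - b_f22_4 b_f22_6 g_p13_33A g_tpmz g_tpzm s3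
                              omega
                          · clear * - b_f13_0 b_f13_3 b_o1 g_p22_33A g_tpzm g_tzpm s2
                            omega
                        · clear * - b_f13_4 b_o1 g_p22_33A g_tzpm s2
                          omega
                        · rcases g_tpmz with g_tpmz | g_tpmz | g_tpmz | g_tpmz | g_tpmz | g_tpmz
                          · clear * - e0 g_tpmz
                            omega
                          · clear * - b_f13_0 b_f13_3 g_p22_33A g_tpmz s2
                            omega
                          · clear * - b_f13_4 g_p22_33A g_tpmz g_tzpm' s2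
                            omega
                          · clear * - b_a1 e0 g_p11_23B g_tpmz
                            omega
                          · rcases g_p13_23A with g_p13_23A | g_p13_23A | g_p13_23A | g_p13_23A | g_p13_23A | g_p13_23A
                            · clear * - e0 g_p13_23A
                              omega
                            · clear * - e1 g_p13_23A
                              omega
                            · clear * - e0 g_p13_23A g_t23
                              omega
                            · rcases g_f33_5 with g_f33_5 | g_f33_5
                              · clear * - b_f13_0 b_f13_3 b_f22_1 g_f22_5 g_f23_3 g_f33_5 g_p13_23A g_p22_33A s1 s2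
                                omega
                              · rcases g_F2 with g_F2 | g_F2 | g_F2 | g_F2 | g_F2 | g_F2 | g_F2 | g_F2 | g_F2 | g_F2 | g_F2 | g_F2 | g_F2 | g_F2 | g_F2
                                · clear * - e0 g_F2
                                  omega
                                · clear * - b_f13_0 b_f22_1 b_f33_0 g_F2 g_p11_23B g_tpmz s1
                                  omega
                                · clear * - b_f13_0 b_f13_3 g_F2 g_p22_33A g_t23 s2
                                  omega
                                · clear * - b_f13_0 b_f13_7 b_f22_1 b_f22_4 b_f22_6 b_f33_1 b_f33_7 g_F2 g_p11_23B g_tpmz g_tzpm' s1 s3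
                                  omega
                                · rcases g_tzmp with g_tzmp | g_tzmp | g_tzmp | g_tzmp
                                  · clear * - b_f13_0 b_f13_3 g_p22_33A g_tzmp s2
                                    omega
                                  · clear * - b_f13_4 b_f22_4 b_f33_4 e0 g_p11_23B g_t23 g_tpmz g_tzmp g_tzpm' s2
                                    omega
                                  · clear * - e2 g_p11_23B g_tzmp
                                    omega
                                  · clear * - e2 g_F2 g_f13_2 g_f22_5 g_f23_3 g_f33_5 g_p13_23A g_p22_33A g_tzmp g_tzpm'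
                                    omega
                                · clear * - g_F2 g_t23
                                  omega
                                · clear * - g_F2 g_f13_2 g_f23_3 g_p13_23A
                                  omega
                                · clear * - b_f22_1 b_f33_1 g_F2 g_f23_3 g_p11_23B g_p13_23A g_tpmz s1
                                  omega
                                · clear * - e2 g_F2 g_f13_2 g_f22_5 g_f23_3 g_f33_5 g_p13_23A g_p22_33A
                                  omega
                                · clear * - b_b0 g_F2
                                  omega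
                                · clear * - g_F2 g_p11_23B
                                  omega
                                · clear * - e2 g_F2 g_p11_23B
                                  omega
                                · clear * - g_F2 g_tpmz
                                  omega
                                · clear * - b_f13_0 b_f22_1 b_f33_1 b_o2 g_F2 g_p11_23B g_tpmz s1
                                  omega
                                · clear * - e2 g_F2 g_f13_2 g_f22_5 g_f23_3 g_f33_5 g_p13_23A g_p22_33A g_tzpm'
                                  omega
                            · clear * - g_f23_7 g_p13_23A g_p22_33A s2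
                              omega
                            · rcases g_f13_8 with g_f13_8 | g_f13_8
                              · clear * - b_f22_4 b_f22_6 b_f33_7 b_o2 e0 g_f13_8 g_f23_10 g_p11_23B g_p13_23A g_p22_33A g_t23 g_tpmz s2 s3
                                omega
                              · clear * - b_o2 g_f13_8 g_f23_10 g_p13_23A
                                omega
                          · clear * - b_f13_7 b_f22_4 b_f22_6 b_f33_7 g_tpmz g_tzpm' s3
                            omega
                      · clear * - e0 g_p11_23B g_t23
                        omega
                      · clear * - e1 g_p11_23B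
                        omega
                      · clear * - b_f11_0 b_o0 g_f23_3 g_p11_23B g_t23
                        omega
                      · rcases g_f33_5 with g_f33_5 | g_f33_5
                        · clear * - b_a1 b_b3 b_f11_0 b_f11_1 b_f13_0 b_f13_3 g_f22_5 g_f23_7 g_f33_2 g_f33_5 g_p11_23B g_p22_33A s2
                          omega
                        · rcases g_f13_8 with g_f13_8 | g_f13_8
                          · clear * - b_a4 b_b5 b_f13_7 g_f13_8 g_f22_5 g_f33_5 g_p22_33A s2
                            omega
                          · rcases g_f33_8 with g_f33_8 | g_f33_8
                            · clear * - b_b4 b_f22_4 b_f22_6 g_f13_8 g_f33_5 g_f33_8 g_p13_33A s3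
                              omega
                            · rcases g_tpmz with g_tpmz | g_tpmz | g_tpmz | g_tpmz | g_tpmz | g_tpmz
                              · clear * - e0 g_tpmz
                                omega
                              · clear * - b_f13_0 b_f13_3 g_p22_33A g_tpmz s2
                                omega
                              · clear * - b_f13_4 b_f22_4 b_f33_4 b_o1 g_f13_8 g_f33_8 g_p13_33A g_tpmz s2
                                omega
                              · clear * - b_a1 b_o0 g_tpmz
                                omega
                              · clear * - b_f11_0 b_f11_1 b_f13_0 b_f13_3 b_o0 g_f23_7 g_p11_23B g_p22_33A g_t23 g_tpmz s2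
                                omega
                              · clear * - b_f22_4 b_f22_6 g_f13_8 g_f33_8 g_p13_33A g_tpmz s3
                                omega
                      · rcases g_f13_8 with g_f13_8 | g_f13_8
                        · clear * - b_b5 b_f13_7 b_o1 g_f13_8 g_p22_33A s2
                          omega
                        · rcases g_f33_8 with g_f33_8 | g_f33_8
                          · rcases g_f33_5 with g_f33_5 | g_f33_5
                            · clear * - b_b3 b_f11_0 b_f11_1 b_f11_2 b_f13_0 b_f13_3 b_f22_0 b_f22_4 b_f22_6 b_o1 g_f13_8 g_f23_10 g_f33_2 g_f33_5 g_f33_8 g_p11_23B g_p13_33A s1 s2 s3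
                              omega
                            · clear * - b_b3 b_f11_0 b_f11_1 b_f11_2 b_f13_4 b_f22_4 b_f22_6 b_o1 g_f13_8 g_f23_10 g_f33_5 g_f33_8 g_p11_23B g_p13_33A s2 s3
                              omega
                          · rcases g_tpmz with g_tpmz | g_tpmz | g_tpmz | g_tpmz | g_tpmz | g_tpmz
                            · clear * - e0 g_tpmz
                              omega
                            · clear * - b_f13_0 b_f13_3 g_p22_33A g_tpmz s2
                              omega
                            · clear * - b_f13_4 b_f22_4 b_f33_4 b_o1 g_f13_8 g_f33_8 g_p13_33A g_tpmz s2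
                              omega
                            · clear * - b_a1 b_o0 g_tpmz
                              omega
                            · clear * - b_f11_0 b_f11_1 b_f11_2 b_f13_0 b_f13_3 b_f22_4 b_f22_6 g_f13_8 g_f23_10 g_f33_8 g_p11_23B g_p13_33A g_p22_33A g_t23 g_tpmz s2 s3
                              omega
                            · clear * - b_f22_4 b_f22_6 g_f13_8 g_f33_8 g_p13_33A g_tpmz s3
                              omega
                    · rcases g_tpmz with g_tpmz | g_tpmz | g_tpmz | g_tpmz | g_tpmz | g_tpmz
                      · clear * - e0 g_tpmz
                        omega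
                      · clear * - b_f13_0 b_f13_3 g_p22_33A g_tpmz s2
                        omega
                      · rcases g_f13_8 with g_f13_8 | g_f13_8
                        · clear * - b_b5 b_f13_7 b_f22_4 b_f33_4 b_o1 g_f13_8 g_tpmz s2
                          omega
                        · rcases g_f33_8 with g_f33_8 | g_f33_8
                          · clear * - b_b5 b_f13_4 b_f22_4 b_f33_4 b_o1 g_f13_8 g_f33_8 g_p13_33A g_tpmz s2
                            omega
                          · clear * - b_f13_4 b_f22_4 b_f33_4 b_o1 g_f13_8 g_f33_8 g_p13_33A g_tpmz s2
                            omega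
                      · clear * - b_a4 b_f13_0 b_f22_1 b_f33_0 b_o0 b_o1 g_f33_2 g_tpmz s1
                        omega
                      · rcases g_f33_8 with g_f33_8 | g_f33_8
                        · rcases g_f33_5 with g_f33_5 | g_f33_5
                          · clear * - b_b5 b_f13_0 b_f13_3 b_f13_4 b_f22_4 b_f22_6 b_f33_7 b_o0 g_f33_2 g_f33_5 g_f33_8 g_p13_33A g_t23 g_tpmz s2 s3
                            omega
                          · clear * - b_b5 b_f13_4 b_f22_4 b_f22_6 b_f33_7 b_o0 g_f33_5 g_f33_8 g_p13_33A g_t23 g_tpmz s2 s3
                            omega
                        · rcases g_f13_8 with g_f13_8 | g_f13_8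
                          · clear * - b_f22_4 b_f22_6 b_o0 g_f13_8 g_f33_8 g_p13_33A g_p22_33A g_t23 g_tpmz s2 s3
                            omega
                          · rcases g_f33_5 with g_f33_5 | g_f33_5
                            · clear * - b_f13_0 b_f13_3 b_f22_1 b_f33_4 g_f22_5 g_f33_2 g_f33_5 g_p22_33A s1 s2
                              omega
                            · rcases g_p11_23B with g_p11_23B | g_p11_23B | g_p11_23B | g_p11_23B | g_p11_23B | g_p11_23B
                              · rcases g_p13_23A with g_p13_23A | g_p13_23A | g_p13_23A | g_p13_23A | g_p13_23A | g_p13_23A
                                · clear * - e0 g_p13_23A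
                                  omega
                                · clear * - e1 g_p13_23A
                                  omega
                                · clear * - e2 e3 g_f22_5 g_f33_5 g_p13_23A g_p22_33A
                                  omega
                                · rcases g_F2 with g_F2 | g_F2 | g_F2 | g_F2 | g_F2 | g_F2 | g_F2 | g_F2 | g_F2 | g_F2 | g_F2 | g_F2 | g_F2 | g_F2 | g_F2
                                  · clear * - e0 g_F2
                                    omega
                                  · clear * - b_f13_0 b_f22_1 b_f33_0 g_F2 g_p11_23B g_tpmz s1
                                    omega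
                                  · clear * - b_f13_0 b_f13_3 b_f22_1 b_f33_1 g_F2 g_f22_5 g_f33_5 g_p22_33A s1 s2
                                    omega
                                  · clear * - b_f13_0 b_f22_1 b_f22_4 b_f22_6 b_f33_1 g_F2 g_p11_23B g_p13_33A g_tpmz s1 s3
                                    omega
                                  · rcases g_p13_22B with g_p13_22B | g_p13_22B | g_p13_22B | g_p13_22B | g_p13_22B | g_p13_22B
                                    · clear * - e0 g_p13_22B
                                      omega
                                    · clear * - e1 g_p13_22B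
                                      omega
                                    · clear * - e2 g_p13_22B
                                      omega
                                    · clear * - e0 e2 g_f13_2 g_f22_2 g_p11_23B g_p13_22B
                                      omega
                                    · clear * - e3 g_f22_5 g_f33_5 g_p11_23B g_p13_22B g_p22_33A g_tpmz s2
                                      omega
                                    · clear * - b_f22_6 e2 g_F2 g_f13_2 g_f13_8 g_f22_5 g_f23_3 g_f33_5 g_f33_8 g_p13_22B g_p13_23A g_p13_33A g_p22_33A
                                      omega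
                                  · clear * - g_F2 g_t23
                                    omega
                                  · clear * - g_F2 g_f13_2 g_f23_3 g_p13_23A
                                    omega
                                  · clear * - b_f22_1 b_f33_1 g_F2 g_f23_3 g_p11_23B g_p13_23A g_tpmz s1
                                    omega
                                  · clear * - e2 g_F2 g_f13_2 g_f22_5 g_f23_3 g_f33_5 g_p13_23A g_p22_33A
                                    omega
                                  · clear * - b_b0 g_F2
                                    omega
                                  · clear * - g_F2 g_p11_23B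
                                    omega
                                  · clear * - e2 g_F2 g_p11_23B
                                    omega
                                  · clear * - g_F2 g_tpmz
                                    omega
                                  · clear * - b_f13_0 b_f22_1 b_f33_1 b_o2 g_F2 g_p11_23B g_tpmz s1
                                    omega
                                  · clear * - e2 g_F2 g_f13_2 g_f13_8 g_f22_5 g_f23_3 g_f33_5 g_f33_8 g_p13_23A g_p13_33A g_p22_33A
                                    omega
                                · clear * - g_f23_7 g_p13_23A g_p22_33A s2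
                                  omega
                                · clear * - b_o2 g_f13_8 g_f23_10 g_p13_23A
                                  omega
                              · clear * - e2 e3 g_f22_5 g_f33_5 g_p11_23B g_p22_33A
                                omega
                              · clear * - e1 g_p11_23B
                                omega
                              · clear * - b_f11_0 b_f13_0 b_f22_1 b_f33_1 b_o0 g_f22_5 g_f23_3 g_f33_5 g_p11_23B g_p22_33A s1
                                omega
                              · clear * - b_f11_0 b_f11_1 b_f13_0 b_f13_3 b_f22_1 b_f33_1 b_o0 g_f22_5 g_f23_7 g_f33_5 g_p11_23B g_p22_33A g_tpmz s1 s2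
                                omega
                              · clear * - b_b5 b_f11_0 b_f11_1 b_f11_2 b_f13_0 b_f13_3 b_f22_1 b_f33_1 g_f22_5 g_f23_10 g_f33_5 g_p11_23B g_p22_33A g_tpmz s1 s2
                                omega
                      · rcases g_f13_8 with g_f13_8 | g_f13_8
                        · clear * - b_b5 b_f13_7 b_o1 g_f13_8 g_p22_33A s2
                          omega
                        · rcases g_f33_8 with g_f33_8 | g_f33_8
                          · rcases g_f33_5 with g_f33_5 | g_f33_5
                            · clear * - b_f13_0 b_f13_3 b_f13_4 b_f22_4 b_f22_6 b_o1 g_f13_8 g_f33_2 g_f33_5 g_f33_8 g_p13_33A g_t23 g_tpmz s2 s3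
                              omega
                            · clear * - b_f13_4 b_f22_4 b_f22_6 b_o1 g_f13_8 g_f33_5 g_f33_8 g_p13_33A g_tpmz s2 s3
                              omega
                          · clear * - b_f22_4 b_f22_6 g_f13_8 g_f33_8 g_p13_33A g_tpmz s3
                            omega
              · clear * - b_a4 b_f23_5 b_o2 g_f23_7
                omega
            · rcases g_f33_8 with g_f33_8 | g_f33_8
              · rcases g_f33_5 with g_f33_5 | g_f33_5
                · rcases g_f33_2 with g_f33_2 | g_f33_2
                  · clear * - b_b5 b_f13_0 b_f13_3 b_f13_7 b_f22_0 b_f22_6 b_o1 g_f22_5 g_f33_2 g_f33_5 g_f33_8 g_p22_33A s1 s2 s3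
                    omega
                  · clear * - b_b5 b_f13_0 b_f13_3 b_f13_4 b_f13_7 b_f22_1 b_f22_6 b_o1 g_f22_5 g_f33_2 g_f33_5 g_f33_8 g_p22_33A s1 s2 s3
                    omega
                · clear * - b_b5 b_f13_4 b_f13_7 b_f22_6 b_o1 g_f22_5 g_f33_5 g_f33_8 g_p22_33A s2 s3
                  omega
              · clear * - b_b5 b_f13_7 b_f22_6 g_f22_5 g_f33_8 g_p22_33A s3
                omega
      · clear * - b_a4 b_f23_1 b_o2 g_f23_3
        omega
    · rcases g_f23_7 with g_f23_7 | g_f23_7 | g_f23_7
      · rcases g_f23_3 with g_f23_3 | g_f23_3 | g_f23_3
        · clear * - b_a1 b_a3 b_f23_5 g_f23_3 g_f23_7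
          omega
        · clear * - b_b3 b_f23_5 g_f23_3 g_f23_7 g_t23
          omega
        · clear * - b_a2 b_a4 b_b3 b_f13_0 b_f13_3 b_f22_4 b_f23_5 b_f33_4 b_o0 b_o2 g_f23_3 g_f23_7 s2
          omega
      · rcases g_f23_3 with g_f23_3 | g_f23_3 | g_f23_3
        · rcases g_f23_10 with g_f23_10 | g_f23_10
          · clear * - b_f23_9 b_o1 g_f23_10 g_f23_7 g_t23'
            omega
          · rcases g_f33_2 with g_f33_2 | g_f33_2
            · rcases g_p22_33A with g_p22_33A | g_p22_33A | g_p22_33A | g_p22_33A | g_p22_33A
              · clear * - e2 g_p22_33A
                omega
              · clear * - e3 g_p22_33A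
                omega
              · clear * - b_f13_0 g_p22_33A s1
                omega
              · rcases g_p13_23A with g_p13_23A | g_p13_23A | g_p13_23A | g_p13_23A | g_p13_23A | g_p13_23A
                · clear * - e0 g_p13_23A
                  omega
                · clear * - e1 g_p13_23A
                  omega
                · clear * - b_f13_0 b_f22_1 b_f23_1 b_f33_0 b_o1 e0 g_f23_3 g_p13_23A s1
                  omega
                · clear * - b_f22_0 b_f33_0 g_f13_2 g_f23_3 g_p13_23A s1
                  omega
                · clear * - g_f23_7 g_p13_23A g_p22_33A s2
                  omega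
                · rcases g_f13_8 with g_f13_8 | g_f13_8
                  · clear * - b_f22_4 b_f22_6 b_f33_7 b_o1 b_o2 g_f13_8 g_f23_10 g_p13_23A g_p22_33A s2 s3
                    omega
                  · clear * - b_o2 g_f13_8 g_f23_10 g_p13_23A
                    omega
              · rcases g_p13_23A with g_p13_23A | g_p13_23A | g_p13_23A | g_p13_23A | g_p13_23A | g_p13_23A
                · clear * - e0 g_p13_23A
                  omega
                · clear * - e1 g_p13_23A
                  omega
                · clear * - b_f13_0 b_f22_0 b_f23_1 b_f33_0 e0 g_f23_3 g_p13_23A s1
                  omega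
                · clear * - b_f22_0 b_f33_0 g_f13_2 g_f23_3 g_p13_23A s1
                  omega
                · rcases g_f33_8 with g_f33_8 | g_f33_8
                  · clear * - b_f13_7 b_f22_6 b_o1 g_f23_7 g_f33_8 g_p13_23A g_p22_33A g_t23' s2 s3
                    omega
                  · rcases g_p13_33A with g_p13_33A | g_p13_33A | g_p13_33A | g_p13_33A | g_p13_33A | g_p13_33A
                    · clear * - e0 g_p13_33A
                      omega
                    · clear * - e1 g_p13_33A
                      omega
                    · clear * - e3 g_p13_33A
                      omega
                    · clear * - b_f22_0 g_f13_2 g_f33_2 g_p13_33A s1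
                      omega
                    · clear * - b_f13_7 b_f22_6 b_o1 g_f33_8 g_p13_33A g_p22_33A g_t23' s2 s3
                      omega
                    · clear * - g_f33_8 g_p13_33A g_p22_33A s3
                      omega
                · clear * - b_f13_7 g_f23_10 g_p13_23A g_p22_33A s3
                  omega
            · rcases g_f13_8 with g_f13_8 | g_f13_8
              · clear * - b_f13_7 b_f22_4 b_f23_1 b_f33_0 b_f33_4 b_o1 g_f13_8 g_f23_3 g_f33_2 g_t23' s2
                omega
              · rcases g_p13_22A with g_p13_22A | g_p13_22A | g_p13_22A | g_p13_22A | g_p13_22A | g_p13_22A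
                · clear * - e0 g_p13_22A
                  omega
                · clear * - e1 g_p13_22A
                  omega
                · clear * - e2 g_p13_22A
                  omega
                · rcases g_p13_23A with g_p13_23A | g_p13_23A | g_p13_23A | g_p13_23A | g_p13_23A | g_p13_23A
                  · clear * - e0 g_p13_23A
                    omega
                  · clear * - e1 g_p13_23A
                    omega
                  · clear * - b_f23_1 b_f33_0 e0 g_f23_3 g_p13_22A g_p13_23A s1
                    omega
                  · clear * - b_f33_0 g_f13_2 g_f23_3 g_p13_22A g_p13_23A s1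
                    omega
                  · clear * - b_f22_4 b_f23_1 b_f33_0 b_f33_4 b_o1 g_f23_3 g_f23_7 g_f33_2 g_p13_23A s2
                    omega
                  · clear * - b_f13_4 b_f22_4 b_f23_1 b_f33_0 b_f33_4 b_o1 g_f13_8 g_f23_10 g_f23_3 g_f33_2 g_p13_23A s2
                    omega
                · clear * - b_f23_1 b_f33_0 b_f33_4 g_f23_3 g_f33_2 g_p13_22A s2
                  omega
                · clear * - b_f13_4 b_f22_4 b_f22_6 b_f23_1 b_f33_0 b_f33_4 b_o1 g_f13_8 g_f23_3 g_f33_2 g_p13_22A g_t23' s2
                  omega
        · rcases g_f22_2 with g_f22_2 | g_f22_2
          · rcases g_f23_10 with g_f23_10 | g_f23_10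
            · clear * - b_f23_9 b_o1 g_f23_10 g_f23_7 g_t23'
              omega
            · rcases g_p13_22A with g_p13_22A | g_p13_22A | g_p13_22A | g_p13_22A | g_p13_22A | g_p13_22A
              · clear * - e0 g_p13_22A
                omega
              · clear * - e1 g_p13_22A
                omega
              · clear * - e2 g_p13_22A
                omega
              · clear * - b_f33_0 g_f13_2 g_f22_2 g_p13_22A s1
                omega
              · rcases g_p23_33A with g_p23_33A | g_p23_33A | g_p23_33A | g_p23_33A | g_p23_33A | g_p23_33A
                · clear * - b_a2 e0 g_p23_33A
                  omega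
                · clear * - e1 g_p23_33A
                  omega
                · clear * - e3 g_p23_33A
                  omega
                · clear * - b_f13_0 b_f22_1 b_o1 g_f23_3 g_p23_33A s1
                  omega
                · clear * - g_f23_7 g_p13_22A g_p23_33A s2
                  omega
                · rcases g_p22_33A with g_p22_33A | g_p22_33A | g_p22_33A | g_p22_33A | g_p22_33A
                  · clear * - e2 g_p22_33A
                    omega
                  · clear * - e3 g_p22_33A
                    omega
                  · clear * - b_f13_0 g_p22_33A s1
                    omega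
                  · rcases g_f22_5 with g_f22_5 | g_f22_5
                    · clear * - b_f13_0 b_f13_3 b_f33_0 g_f22_2 g_f22_5 g_p13_22A g_p22_33A s1 s2
                      omega
                    · clear * - b_f22_1 b_f23_0 g_f22_2 g_f22_5 g_f23_3 g_p13_22A g_p22_33A s2
                      omega
                  · rcases g_f33_8 with g_f33_8 | g_f33_8
                    · clear * - b_a5 b_f33_7 g_f33_8 g_p13_22A s2
                      omega
                    · clear * - b_f13_7 g_f23_10 g_f33_8 g_p22_33A g_p23_33A s3
                      omega
              · clear * - b_f33_7 g_p13_22A s3
                omega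
          · rcases g_f22_5 with g_f22_5 | g_f22_5
            · clear * - b_b3 b_f22_4 g_f22_2 g_f22_5 g_t23
              omega
            · rcases g_tzpm with g_tzpm | g_tzpm | g_tzpm | g_tzpm | ⟨g_tzpm, g_tzpm'⟩
              · rcases g_p22_33A with g_p22_33A | g_p22_33A | g_p22_33A | g_p22_33A | g_p22_33A
                · clear * - e2 g_p22_33A
                  omega
                · clear * - e3 g_p22_33A
                  omega
                · clear * - b_f13_0 g_p22_33A s1
                  omega
                · rcases g_f33_5 with g_f33_5 | g_f33_5
                  · clear * - b_f13_0 b_f13_3 b_f22_1 g_f22_5 g_f33_5 g_p22_33A g_tzpm s1 s2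
                    omega
                  · clear * - b_f13_0 b_f22_1 b_f33_1 g_f22_5 g_f33_5 g_p22_33A g_tzpm s1
                    omega
                · rcases g_f33_8 with g_f33_8 | g_f33_8
                  · rcases g_f33_5 with g_f33_5 | g_f33_5
                    · clear * - b_f13_0 b_f13_3 b_f13_7 b_f22_1 b_f22_6 b_o1 g_f22_5 g_f33_5 g_f33_8 g_p22_33A g_t23' g_tzpm s1 s2 s3
                      omega
                    · clear * - b_f13_4 b_f13_7 b_f22_6 b_o1 g_f22_5 g_f33_5 g_f33_8 g_p22_33A g_t23' s2 s3
                      omega
                  · clear * - b_f13_7 b_f22_6 g_f22_5 g_f33_8 g_p22_33A g_t23' s3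
                    omega
              · clear * - b_o1 b_o2 g_t23' g_tzpm
                omega
              · rcases g_f33_5 with g_f33_5 | g_f33_5
                · rcases g_p22_33A with g_p22_33A | g_p22_33A | g_p22_33A | g_p22_33A | g_p22_33A
                  · clear * - e2 g_p22_33A
                    omega
                  · clear * - e3 g_p22_33A
                    omega
                  · clear * - b_f13_0 g_p22_33A s1
                    omega
                  · rcases g_p13_23A with g_p13_23A | g_p13_23A | g_p13_23A | g_p13_23A | g_p13_23A | g_p13_23A
                    · clear * - e0 g_p13_23A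
                      omega
                    · clear * - e1 g_p13_23A
                      omega
                    · clear * - b_b0 b_o1 g_p13_23A g_t23
                      omega
                    · clear * - b_f13_0 b_f13_3 b_f22_1 g_f22_5 g_f23_3 g_f33_5 g_p13_23A g_p22_33A s1 s2
                      omega
                    · clear * - g_f23_7 g_p13_23A g_p22_33A s2
                      omega
                    · rcases g_f13_8 with g_f13_8 | g_f13_8
                      · clear * - b_f13_7 b_o1 g_f13_8 g_p22_33A g_t23' s2
                        omega
                      · rcases g_f23_10 with g_f23_10 | g_f23_10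
                        · clear * - b_f22_4 b_f22_6 b_f33_7 b_o1 g_f23_10 g_f23_7 g_p13_23A s3
                          omega
                        · clear * - b_o2 g_f13_8 g_f23_10 g_p13_23A
                          omega
                  · rcases g_f33_8 with g_f33_8 | g_f33_8
                    · rcases g_f33_2 with g_f33_2 | g_f33_2
                      · clear * - b_f13_0 b_f13_3 b_f13_7 b_f22_0 b_f22_6 b_o1 g_f22_5 g_f33_2 g_f33_5 g_f33_8 g_p22_33A g_t23' s1 s2 s3
                        omega
                      · clear * - b_f13_0 b_f13_3 b_f13_4 b_f13_7 b_f22_1 b_f22_6 b_o1 g_f22_5 g_f33_2 g_f33_5 g_f33_8 g_p22_33A g_t23' s1 s2 s3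
                        omega
                    · clear * - b_f13_7 b_f22_6 g_f22_5 g_f33_8 g_p22_33A g_t23' s3
                      omega
                · rcases g_f33_8 with g_f33_8 | g_f33_8
                  · clear * - b_a4 b_f13_7 b_f22_4 b_f22_6 b_f33_7 b_o1 g_f33_5 g_f33_8 g_t23' s3
                    omega
                  · rcases g_p22_33A with g_p22_33A | g_p22_33A | g_p22_33A | g_p22_33A | g_p22_33A
                    · clear * - e2 g_p22_33A
                      omega
                    · clear * - e3 g_p22_33A
                      omega
                    · clear * - b_f13_0 g_p22_33A s1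
                      omega
                    · rcases g_tpmz with g_tpmz | g_tpmz | g_tpmz | g_tpmz | g_tpmz | g_tpmz
                      · clear * - e0 g_tpmz
                        omega
                      · clear * - b_f13_0 b_f13_3 g_p22_33A g_tpmz s2
                        omega
                      · rcases g_tpmm with g_tpmm | g_tpmm | g_tpmm | g_tpmm | g_tpmm
                        · clear * - e0 g_tpmm
                          omega
                        · clear * - b_f13_0 b_f13_3 b_f22_4 b_f33_4 b_o1 g_tpmm g_tpmz s2
                          omega
                        · clear * - b_a1 b_f13_0 b_f13_3 b_f22_4 b_f33_4 b_o1 g_tpmm g_tpmz g_tzpm s2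
                          omega
                        · clear * - b_a2 b_f13_0 b_f13_3 b_f22_4 b_f33_4 b_o1 g_tpmm g_tpmz g_tzpm s2
                          omega
                        · clear * - b_f13_4 b_f22_4 b_f33_4 b_o1 g_tpmm g_tpmz s2
                          omega
                      · clear * - b_a1 b_o0 g_tpmz
                        omega
                      · clear * - b_f13_0 b_f13_3 b_f22_1 b_f33_1 g_f22_5 g_f33_5 g_p22_33A g_tpmz g_tzpm s1 s2
                        omega
                      · clear * - g_t23' g_tpmz
                        omega
                    · clear * - b_f22_6 b_o2 g_f22_5 g_f33_8 g_p22_33A g_t23'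
                      omega
              · clear * - b_f13_4 b_f22_4 b_f33_4 b_o1 b_o2 g_tzpm s2
                omega
              · rcases g_p22_33A with g_p22_33A | g_p22_33A | g_p22_33A | g_p22_33A | g_p22_33A
                · clear * - e2 g_p22_33A
                  omega
                · clear * - e3 g_p22_33A
                  omega
                · clear * - b_f13_0 g_p22_33A s1
                  omega
                · rcases g_f23_10 with g_f23_10 | g_f23_10
                  · clear * - b_f23_9 g_f23_10 g_f23_7 g_t23' g_tzpm
                    omega
                  · rcases g_tzmp with g_tzmp | g_tzmp | g_tzmp | g_tzmp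
                    · clear * - b_f13_0 b_f13_3 g_p22_33A g_tzmp s2
                      omega
                    · clear * - b_f13_4 b_f22_4 b_f33_4 g_tzmp g_tzpm g_tzpm' s2
                      omega
                    · clear * - g_t23 g_tzmp
                      omega
                    · rcases g_p13_23A with g_p13_23A | g_p13_23A | g_p13_23A | g_p13_23A | g_p13_23A | g_p13_23A
                      · clear * - e0 g_p13_23A
                        omega
                      · clear * - e1 g_p13_23A
                        omega
                      · clear * - b_a2 e0 g_p13_23A
                        omega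
                      · rcases g_f33_5 with g_f33_5 | g_f33_5
                        · clear * - b_f13_0 b_f13_3 b_f22_1 g_f22_5 g_f23_3 g_f33_5 g_p13_23A g_p22_33A s1 s2
                          omega
                        · rcases g_F2 with g_F2 | g_F2 | g_F2 | g_F2 | g_F2 | g_F2 | g_F2 | g_F2 | g_F2 | g_F2 | g_F2 | g_F2 | g_F2 | g_F2 | g_F2
                          · clear * - e0 g_F2
                            omega
                          · rcases g_tpmz with g_tpmz | g_tpmz | g_tpmz | g_tpmz | g_tpmz | g_tpmz
                            · clear * - e0 g_tpmz
                              omega
                            · clear * - b_f13_0 b_f13_3 g_p22_33A g_tpmz s2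
                              omega
                            · clear * - b_f22_1 b_f33_1 g_f13_2 g_f23_3 g_p13_23A g_tpmz g_tzpm s1
                              omega
                            · clear * - b_a1 g_f13_2 g_f23_3 g_p13_23A g_t23 g_tpmz g_tzpm
                              omega
                            · rcases g_p11_23B with g_p11_23B | g_p11_23B | g_p11_23B | g_p11_23B | g_p11_23B | g_p11_23B
                              · clear * - b_f13_0 b_f22_1 b_f33_0 g_F2 g_p11_23B g_tpmz s1
                                omega
                              · clear * - b_f13_0 b_f22_1 b_f33_0 g_F2 g_p11_23B g_tzpm s1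
                                omega
                              · clear * - e1 g_p11_23B
                                omega
                              · clear * - b_f11_0 g_f23_3 g_p11_23B g_t23 g_tzpm
                                omega
                              · clear * - b_f11_0 b_f11_1 b_f13_0 b_f13_3 b_f22_1 b_f33_1 g_f22_5 g_f23_7 g_f33_5 g_p11_23B g_p22_33A g_tpmz g_tzpm s1 s2
                                omega
                              · clear * - b_f11_0 b_f11_1 b_f11_2 b_f13_0 b_f13_3 b_f22_1 b_f33_1 g_f22_5 g_f23_10 g_f33_5 g_p11_23B g_p22_33A g_t23' g_tpmz s1 s2
                                omega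
                            · clear * - g_t23' g_tpmz
                              omega
                          · clear * - b_f13_0 b_f13_3 b_f22_1 b_f33_1 g_F2 g_f22_5 g_f33_5 g_p22_33A s1 s2
                            omega
                          · rcases g_tpmz with g_tpmz | g_tpmz | g_tpmz | g_tpmz | g_tpmz | g_tpmz
                            · clear * - e0 g_tpmz
                              omega
                            · clear * - b_f13_0 b_f13_3 g_p22_33A g_tpmz s2
                              omega
                            · clear * - b_b4 b_f13_4 b_f22_4 b_f33_4 g_tpmz g_tzpm' s2
                              omega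
                            · clear * - b_a1 b_o0 g_tpmz
                              omega
                            · rcases g_p11_23B with g_p11_23B | g_p11_23B | g_p11_23B | g_p11_23B | g_p11_23B | g_p11_23B
                              · clear * - b_f13_0 b_f22_1 b_f33_1 b_o2 g_F2 g_p11_23B g_t23' g_tpmz s1
                                omega
                              · clear * - b_b0 g_p11_23B g_t23 g_tzpm
                                omega
                              · clear * - e1 g_p11_23B
                                omega
                              · clear * - b_f11_0 g_f23_3 g_p11_23B g_t23 g_tzpm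
                                omega
                              · clear * - b_f11_0 b_f11_1 b_f13_0 b_f13_3 b_f22_1 b_f33_1 g_f22_5 g_f23_7 g_f33_5 g_p11_23B g_p22_33A g_tpmz g_tzpm s1 s2
                                omega
                              · clear * - b_f11_0 b_f11_1 b_f11_2 b_f13_0 b_f13_3 b_f22_1 b_f33_1 g_f22_5 g_f23_10 g_f33_5 g_p11_23B g_p22_33A g_t23' g_tpmz s1 s2
                                omega
                            · clear * - g_t23' g_tpmz
                              omega
                          · clear * - b_b0 g_F2 g_f13_2 g_f22_5 g_f23_3 g_f33_5 g_p13_23A g_p22_33A g_t23 g_tzmp g_tzpm'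
                            omega
                          · clear * - b_f13_0 b_f22_1 b_f33_1 g_F2 g_f22_5 g_f33_5 g_p22_33A s1
                            omega
                          · clear * - g_F2 g_f13_2 g_f23_3 g_p13_23A
                            omega
                          · rcases g_tpmz with g_tpmz | g_tpmz | g_tpmz | g_tpmz | g_tpmz | g_tpmz
                            · clear * - e0 g_tpmz
                              omega
                            · clear * - b_f13_0 b_f13_3 g_p22_33A g_tpmz s2
                              omega
                            · clear * - b_f13_4 b_f22_4 b_f33_4 g_tpmz g_tzpm g_tzpm' s2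
                              omega
                            · clear * - b_f22_1 b_f33_0 b_o0 g_f23_3 g_p13_23A g_tpmz g_tzpm s1
                              omega
                            · rcases g_p11_23B with g_p11_23B | g_p11_23B | g_p11_23B | g_p11_23B | g_p11_23B | g_p11_23B
                              · clear * - b_f22_1 b_f33_1 g_F2 g_f23_3 g_p11_23B g_p13_23A g_tpmz s1
                                omega
                              · clear * - b_a2 e0 g_p11_23B
                                omega
                              · clear * - e1 g_p11_23B
                                omega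
                              · clear * - b_f11_0 g_f23_3 g_p11_23B g_t23 g_tzpm
                                omega
                              · clear * - b_f11_0 b_f11_1 b_f13_0 b_f13_3 b_f22_1 b_f33_1 g_f22_5 g_f23_7 g_f33_5 g_p11_23B g_p22_33A g_tpmz g_tzpm s1 s2
                                omega
                              · clear * - b_f11_0 b_f11_1 b_f11_2 b_f13_0 b_f13_3 b_f22_1 b_f33_1 g_f22_5 g_f23_10 g_f33_5 g_p11_23B g_p22_33A g_t23' g_tpmz s1 s2
                                omega
                            · clear * - g_t23' g_tpmz
                              omega
                          · clear * - b_b0 g_F2 g_f13_2 g_f22_5 g_f23_3 g_f33_5 g_p13_23A g_p22_33A g_t23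
                            omega
                          · clear * - b_b0 g_F2
                            omega
                          · rcases g_tpmz with g_tpmz | g_tpmz | g_tpmz | g_tpmz | g_tpmz | g_tpmz
                            · clear * - e0 g_tpmz
                              omega
                            · clear * - b_f13_0 b_f13_3 g_p22_33A g_tpmz s2
                              omega
                            · clear * - b_f13_4 b_f22_4 b_f33_4 g_tpmz g_tzpm g_tzpm' s2
                              omega
                            · clear * - b_f22_1 b_f33_0 b_o0 g_f23_3 g_p13_23A g_tpmz g_tzpm s1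
                              omega
                            · rcases g_p11_23B with g_p11_23B | g_p11_23B | g_p11_23B | g_p11_23B | g_p11_23B | g_p11_23B
                              · clear * - g_F2 g_p11_23B
                                omega
                              · clear * - g_F2 g_p11_23B g_t23 g_tzpm
                                omega
                              · clear * - e1 g_p11_23B
                                omega
                              · clear * - b_f11_0 g_f23_3 g_p11_23B g_t23 g_tzpm
                                omega
                              · clear * - b_f11_0 b_f11_1 b_f13_0 b_f13_3 b_f22_1 b_f33_1 g_f22_5 g_f23_7 g_f33_5 g_p11_23B g_p22_33A g_tpmz g_tzpm s1 s2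
                                omega
                              · clear * - b_f11_0 b_f11_1 b_f11_2 b_f13_0 b_f13_3 b_f22_1 b_f33_1 g_f22_5 g_f23_10 g_f33_5 g_p11_23B g_p22_33A g_t23' g_tpmz s1 s2
                                omega
                            · clear * - g_t23' g_tpmz
                              omega
                          · clear * - g_F2 g_t23
                            omega
                          · rcases g_tpmz with g_tpmz | g_tpmz | g_tpmz | g_tpmz | g_tpmz | g_tpmz
                            · clear * - e0 g_tpmz
                              omega
                            · clear * - b_f13_0 b_f13_3 g_p22_33A g_tpmz s2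
                              omega
                            · clear * - b_f13_4 b_f22_4 b_f33_4 g_tpmz g_tzpm g_tzpm' s2
                              omega
                            · clear * - b_f22_1 b_f33_0 g_F2 g_f13_2 g_f23_3 g_p13_23A g_tpmz g_tzpm s1
                              omega
                            · clear * - g_F2 g_tpmz
                              omega
                            · clear * - g_t23' g_tpmz
                              omega
                          · rcases g_tpmz with g_tpmz | g_tpmz | g_tpmz | g_tpmz | g_tpmz | g_tpmz
                            · clear * - e0 g_tpmz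
                              omega
                            · clear * - b_f13_0 b_f13_3 g_p22_33A g_tpmz s2
                              omega
                            · clear * - b_f22_1 b_f33_1 g_f13_2 g_f23_3 g_p13_23A g_tpmz g_tzpm s1
                              omega
                            · clear * - b_a1 b_o0 g_tpmz
                              omega
                            · rcases g_p11_23B with g_p11_23B | g_p11_23B | g_p11_23B | g_p11_23B | g_p11_23B | g_p11_23B
                              · clear * - b_f13_0 b_f22_1 b_f33_1 b_o2 g_F2 g_p11_23B g_tpmz s1
                                omega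
                              · clear * - b_b0 g_p11_23B g_t23 g_tzpm
                                omega
                              · clear * - e1 g_p11_23B
                                omega
                              · clear * - b_f11_0 g_f23_3 g_p11_23B g_t23 g_tzpm
                                omega
                              · clear * - b_f11_0 b_f11_1 b_f13_0 b_f13_3 b_f22_1 b_f33_1 g_f22_5 g_f23_7 g_f33_5 g_p11_23B g_p22_33A g_tpmz g_tzpm s1 s2
                                omega
                              · clear * - b_f11_0 b_f11_1 b_f11_2 b_f13_0 b_f13_3 b_f22_1 b_f33_1 g_f22_5 g_f23_10 g_f33_5 g_p11_23B g_p22_33A g_t23' g_tpmz s1 s2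
                                omega
                            · clear * - g_t23' g_tpmz
                              omega
                          · clear * - b_b0 g_F2 g_f13_2 g_f22_5 g_f23_3 g_f33_5 g_p13_23A g_p22_33A g_t23 g_tzpm'
                            omega
                      · clear * - g_f23_7 g_p13_23A g_p22_33A s2
                        omega
                      · clear * - b_f22_4 b_f22_6 b_f33_7 g_f23_10 g_p13_23A g_tzmp s3
                        omega
                · clear * - b_f13_7 g_p22_33A g_tzpm' s3
                  omega
        · clear * - b_a4 b_f23_1 b_o2 g_f23_3
          omega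
      · clear * - b_a4 b_f23_5 b_o2 g_f23_7
        omega
  · clear * - b_a2 b_a4 b_f13_0 b_o2 g_f13_2
    omega

end Pool.Agent.Helper78.TQ
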