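import Pool.Agent.Helper89.TQ.Ctx

set_option autoImplicit false
set_option linter.all false
set_option maxHeartbeats 4000000
set_option maxRecDepth 10000

namespace Pool.Agent.Helper78.TQ

open Pool.Agent.Helper89.TQ

theorem c0_13_23_33_k2 {n1 n2 n3 A1 A2 A3 B1 B2 B3 m11_1 m11_2 m11_3 m13_1 m13_2 m13_3 m22_1 m22_2 m22_3 m23_1 m23_2 m23_3 m33_1 m33_2 m33_3 : ℤ}
    (C : Ctx0 n1 n2 n3 A1 A2 A3 B1 B2 B3 m11_1 m11_2 m11_3 m13_1 m13_2 m13_3 m22_1 m22_2 m22_3 m23_1 m23_2 m23_3 m33_1 m33_2 m33_3)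
    (e0 : 0 < A1)
    (e1 : 0 < B3)
    (e2 : 0 < A2)
    (e3 : 0 < A3)
    (s1 : 2 * A1 + 1 * B1 ≤ m13_1 + m23_1 + m33_1)
    (s2 : 2 * A2 + 1 * B2 ≤ m13_2 + m23_2 + m33_2)
    (s3 : 2 * A3 + 1 * B3 ≤ m13_3 + m23_3 + m33_3) : False := by
  have g_t12 : (0 < A1 ∧ A2 < A1 + n2) ∨ (0 < B1 ∧ B2 < B1 + n2) := by
    have h := C.t12
    clear * - h
    omega
  have g_t23 : (A1 < A2 ∧ A3 < A2 + n3) ∨ (B1 < B2 ∧ B3 < B2 + n3) := by
    have h := C.t23
    clear * - h
    omega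
  have g_f23_3 : (m23_1 = n1) ∨ (m23_1 = -1 + A2) ∨ (m23_1 = -1 + B3) := by
    have h := C.f23_3
    clear * - h
    omega
  have g_f33_2 : (m33_1 = n1) ∨ (m33_1 = -1 + A3) := by
    have h := C.f33_2
    clear * - h
    omega
  have g_p13_33A : (0 ≥ A1) ∨ (0 ≥ B3) ∨ (0 ≥ A3) ∨ (2 * A1 > m13_1 + m33_1) ∨ (2 * A2 > m13_2 + m33_2) ∨ (2 * A3 > m13_3 + m33_3) := by
    have h := C.p13_33A
    clear * - h
    omega
  have g_p23_33A : (0 ≥ A2) ∨ (0 ≥ B3) ∨ (0 ≥ A3) ∨ (2 * A1 > m23_1 + m33_1) ∨ (2 * A2 > m23_2 + m33_2) ∨ (2 * A3 > m23_3 + m33_3) := by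
    have h := C.p23_33A
    clear * - h
    omega
  have g_tzpm : (1 + A1 > A2) ∨ (2 + A3 > A2 + n3) ∨ (1 + B2 > B1 + n2) ∨ (2 + B2 > B3) ∨ (A2 ≥ 1 + B2 ∧ A3 ≥ -1 + B3) := by
    have h := C.tzpm
    clear * - h
    omega
  have g_tpzm : (1 > A1) ∨ (1 + A2 > A1 + n2) ∨ (1 + A3 > A2 + n3) ∨ (1 + B1 > n1) ∨ (1 + B1 > B2) ∨ (1 + B2 > B3) ∨ (A3 ≥ -1 + B3) ∨ (1 + B1 ≥ A1 ∧ B2 ≥ A2) := by
    have h := C.tpzm
    clear * - h
    omega
  have b_a1 := C.a1
  have b_a4 := C.a4
  have b_b2 := C.b2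
  have b_b3 := C.b3
  have b_b5 := C.b5
  have b_o0 := C.o0
  have b_o1 := C.o1
  have b_f13_0 := C.f13_0
  have b_f13_3 := C.f13_3
  have b_f13_7 := C.f13_7
  have b_f23_1 := C.f23_1
  have b_f23_5 := C.f23_5
  have b_f23_9 := C.f23_9
  have b_f33_0 := C.f33_0
  have b_f33_1 := C.f33_1
  have b_f33_7 := C.f33_7
  clear C
  rcases g_p23_33A with g_p23_33A | g_p23_33A | g_p23_33A | g_p23_33A | g_p23_33A | g_p23_33A
  · clear * - e2 g_p23_33A
    omega
  · clear * - e1 g_p23_33A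
    omega
  · clear * - e3 g_p23_33A
    omega
  · rcases g_f33_2 with g_f33_2 | g_f33_2
    · rcases g_f23_3 with g_f23_3 | g_f23_3 | g_f23_3
      · clear * - b_a1 g_f23_3 g_f33_2 g_p23_33A
        omega
      · rcases g_tpzm with g_tpzm | g_tpzm | g_tpzm | g_tpzm | g_tpzm | g_tpzm | g_tpzm | ⟨g_tpzm, g_tpzm'⟩
        · clear * - e0 g_tpzm
          omega
        · rcases g_t12 with ⟨g_t12, g_t12'⟩ | ⟨g_t12, g_t12'⟩
          · clear * - g_t12' g_tpzm
            omega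
          · clear * - b_a1 b_b2 g_f23_3 g_f33_2 g_p23_33A g_t12' g_tpzm
            omega
        · clear * - b_b5 b_f13_7 b_f23_9 b_f33_7 b_o1 g_tpzm s3
          omega
        · clear * - b_a1 b_f13_0 g_p23_33A g_tpzm s1
          omega
        · rcases g_t23 with ⟨g_t23, g_t23'⟩ | ⟨g_t23, g_t23'⟩
          · clear * - b_a1 g_f23_3 g_f33_2 g_p23_33A g_t23
            omega
          · clear * - g_t23 g_tpzm
            omega
        · clear * - b_a1 b_f13_7 b_f23_9 b_f33_1 b_f33_7 b_o1 g_f23_3 g_f33_2 g_p23_33A g_tpzm s3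
          omega
        · clear * - b_f13_7 b_f23_9 b_f33_7 g_tpzm s3
          omega
        · clear * - b_f13_0 g_p23_33A g_tpzm s1
          omega
      · clear * - b_a1 b_f13_7 b_f23_9 b_f33_1 b_f33_7 g_f23_3 g_f33_2 g_p23_33A s3
        omega
    · rcases g_f23_3 with g_f23_3 | g_f23_3 | g_f23_3
      · clear * - b_a1 b_a4 b_f23_1 g_f23_3 g_f33_2 g_p23_33A
        omega
      · rcases g_tpzm with g_tpzm | g_tpzm | g_tpzm | g_tpzm | g_tpzm | g_tpzm | g_tpzm | ⟨g_tpzm, g_tpzm'⟩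
        · clear * - e0 g_tpzm
          omega
        · rcases g_t12 with ⟨g_t12, g_t12'⟩ | ⟨g_t12, g_t12'⟩
          · clear * - g_t12' g_tpzm
            omega
          · clear * - b_a4 b_b2 g_f23_3 g_f33_2 g_p23_33A g_t12' g_tpzm
            omega
        · clear * - b_b5 b_f13_7 b_f23_9 b_f33_7 b_o1 g_tpzm s3
          omega
        · clear * - b_a1 b_f13_0 g_p23_33A g_tpzm s1
          omega
        · rcases g_t23 with ⟨g_t23, g_t23'⟩ | ⟨g_t23, g_t23'⟩
          · clear * - b_a4 g_f23_3 g_f33_2 g_p23_33A g_t23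
            omega
          · clear * - g_t23 g_tpzm
            omega
        · clear * - b_a4 b_f13_7 b_f23_9 b_f33_7 b_o1 g_tpzm s3
          omega
        · clear * - b_f13_7 b_f23_9 b_f33_7 g_tpzm s3
          omega
        · clear * - b_f13_0 g_p23_33A g_tpzm s1
          omega
      · clear * - b_a4 b_f13_7 b_f23_1 b_f23_9 b_f33_7 g_f23_3 s3
        omega
  · rcases g_t23 with ⟨g_t23, g_t23'⟩ | ⟨g_t23, g_t23'⟩
    · rcases g_tzpm with g_tzpm | g_tzpm | g_tzpm | g_tzpm | ⟨g_tzpm, g_tzpm'⟩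
      · clear * - g_t23 g_tzpm
        omega
      · clear * - b_b5 b_f13_7 b_f23_9 b_f33_7 b_o1 g_tzpm s3
        omega
      · rcases g_t12 with ⟨g_t12, g_t12'⟩ | ⟨g_t12, g_t12'⟩
        · rcases g_tpzm with g_tpzm | g_tpzm | g_tpzm | g_tpzm | g_tpzm | g_tpzm | g_tpzm | ⟨g_tpzm, g_tpzm'⟩
          · clear * - e0 g_tpzm
            omega
          · clear * - g_t12' g_tpzm
            omega
          · clear * - g_t23' g_tpzm
            omega
          · clear * - b_a1 b_o0 g_tpzm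
            omega
          · clear * - g_t12' g_t23 g_tpzm g_tzpm
            omega
          · clear * - b_a4 b_f13_7 b_f23_9 b_f33_7 b_o1 g_tpzm s3
            omega
          · clear * - b_f13_7 b_f23_9 b_f33_7 g_tpzm s3
            omega
          · clear * - b_f13_0 b_f13_3 g_p23_33A g_tpzm g_tzpm s2
            omega
        · clear * - g_t12' g_tzpm
          omega
      · clear * - b_a4 b_f13_7 b_f23_9 b_f33_7 b_o1 g_tzpm s3
        omega
      · clear * - b_f13_7 b_f23_9 b_f33_7 g_tzpm' s3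
        omega
    · rcases g_tzpm with g_tzpm | g_tzpm | g_tzpm | g_tzpm | ⟨g_tzpm, g_tzpm'⟩
      · rcases g_tpzm with g_tpzm | g_tpzm | g_tpzm | g_tpzm | g_tpzm | g_tpzm | g_tpzm | ⟨g_tpzm, g_tpzm'⟩
        · clear * - e0 g_tpzm
          omega
        · clear * - b_b3 g_t23 g_tpzm g_tzpm
          omega
        · clear * - b_f13_7 b_f23_9 b_f33_7 b_o1 g_t23' g_tpzm s3
          omega
        · clear * - b_f13_0 b_f23_1 b_f33_0 g_tpzm g_tzpm s1
          omega
        · clear * - g_t23 g_tpzm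
          omega
        · clear * - b_a4 b_f13_7 b_f23_9 b_f33_7 b_o1 g_tpzm s3
          omega
        · clear * - b_f13_7 b_f23_9 b_f33_7 g_tpzm s3
          omega
        · rcases g_p13_33A with g_p13_33A | g_p13_33A | g_p13_33A | g_p13_33A | g_p13_33A | g_p13_33A
          · clear * - e0 g_p13_33A
            omega
          · clear * - e1 g_p13_33A
            omega
          · clear * - e3 g_p13_33A
            omega
          · clear * - b_f23_1 g_p13_33A g_tpzm g_tzpm s1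
            omega
          · clear * - b_f23_5 g_p13_33A g_tpzm' s2
            omega
          · clear * - b_f23_9 g_p13_33A s3
            omega
      · clear * - b_f13_7 b_f23_9 b_f33_7 b_o1 g_t23' g_tzpm s3
        omega
      · rcases g_tpzm with g_tpzm | g_tpzm | g_tpzm | g_tpzm | g_tpzm | g_tpzm | g_tpzm | ⟨g_tpzm, g_tpzm'⟩
        · clear * - e0 g_tpzm
          omega
        · rcases g_t12 with ⟨g_t12, g_t12'⟩ | ⟨g_t12, g_t12'⟩
          · clear * - g_t12' g_tpzm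
            omega
          · clear * - g_t12' g_tzpm
            omega
        · clear * - b_f13_7 b_f23_9 b_f33_7 b_o1 g_t23' g_tpzm s3
          omega
        · clear * - b_a1 b_f13_0 b_f13_3 g_p23_33A g_tpzm g_tzpm s2
          omega
        · clear * - g_t23 g_tpzm
          omega
        · clear * - b_a4 b_f13_7 b_f23_9 b_f33_7 b_o1 g_tpzm s3
          omega
        · clear * - b_f13_7 b_f23_9 b_f33_7 g_tpzm s3
          omega
        · clear * - b_f13_0 b_f13_3 g_p23_33A g_tpzm g_tzpm s2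
          omega
      · clear * - b_a4 b_f13_7 b_f23_9 b_f33_7 b_o1 g_tzpm s3
        omega
      · clear * - b_f13_7 b_f23_9 b_f33_7 g_tzpm' s3
        omega
  · clear * - b_f13_7 g_p23_33A s3
    omega

end Pool.Agent.Helper78.TQ
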