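import Pool.Agent.Helper89.TQ.Ctx

set_option autoImplicit false
set_option linter.all false
set_option maxHeartbeats 4000000
set_option maxRecDepth 10000

namespace Pool.Agent.Helper78.TQ

open Pool.Agent.Helper89.TQ

theorem c2_11_13_22_k0 {n1 n2 n3 A1 A2 A3 B1 B2 B3 m11_1 m11_2 m11_3 m12_1 m12_2 m12_3 m13_1 m13_2 m13_3 m22_1 m22_2 m22_3 m33_1 m33_2 m33_3 : ℤ}
    (C : Ctx2 n1 n2 n3 A1 A2 A3 B1 B2 B3 m11_1 m11_2 m11_3 m12_1 m12_2 m12_3 m13_1 m13_2 m13_3 m22_1 m22_2 m22_3 m33_1 m33_2 m33_3)
    (e0 : 0 < B1)
    (e1 : 0 < A1)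
    (e2 : 0 < B3)
    (e3 : 0 < A2)
    (s1 : 0 * A1 + 3 * B1 ≤ m11_1 + m13_1 + m22_1)
    (s2 : 0 * A2 + 3 * B2 ≤ m11_2 + m13_2 + m22_2)
    (s3 : 0 * A3 + 3 * B3 ≤ m11_3 + m13_3 + m22_3) : False := by
  have g_t23 : (A1 < A2 ∧ A3 < A2 + n3) ∨ (B1 < B2 ∧ B3 < B2 + n3) := by
    have h := C.t23
    clear * - h
    omega
  have g_f12_2 : (m12_1 = -1 + A1) ∨ (m12_1 = -1 + B2) := by
    have h := C.f12_2
    clear * - h
    omega
  have g_f12_5 : (m12_2 = m12_1 + n2) ∨ (m12_2 = -1 + B2) := by
    have h := C.f12_5
    clear * - h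
    omega
  have g_f13_8 : (m13_3 = m13_2 + n3) ∨ (m13_3 = -1 + B3) := by
    have h := C.f13_8
    clear * - h
    omega
  have g_f22_2 : (m22_1 = n1) ∨ (m22_1 = -1 + A2) := by
    have h := C.f22_2
    clear * - h
    omega
  have g_f33_2 : (m33_1 = n1) ∨ (m33_1 = -1 + A3) := by
    have h := C.f33_2
    clear * - h
    omega
  have g_f33_5 : (m33_2 = m33_1 + n2) ∨ (m33_2 = -1 + A3) := by
    have h := C.f33_5
    clear * - h
    omega
  have g_f33_8 : (m33_3 = m33_2 + n3) ∨ (m33_3 = -1 + A3) := by
    have h := C.f33_8
    clear * - h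
    omega
  have g_p11_12B : (0 ≥ B1) ∨ (0 ≥ A1) ∨ (0 ≥ B2) ∨ (2 * B1 > m11_1 + m12_1) ∨ (2 * B2 > m11_2 + m12_2) ∨ (2 * B3 > m11_3 + m12_3) := by
    have h := C.p11_12B
    clear * - h
    omega
  have g_p11_13B : (0 ≥ B1) ∨ (0 ≥ A1) ∨ (0 ≥ B3) ∨ (2 * B1 > m11_1 + m13_1) ∨ (2 * B2 > m11_2 + m13_2) ∨ (2 * B3 > m11_3 + m13_3) := by
    have h := C.p11_13B
    clear * - h
    omega
  have g_p11_22B : (0 ≥ B1) ∨ (0 ≥ A2) ∨ (2 * B1 > m11_1 + m22_1) ∨ (2 * B2 > m11_2 + m22_2) ∨ (2 * B3 > m11_3 + m22_3) := by
    have h := C.p11_22B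
    clear * - h
    omega
  have g_p11_33B : (0 ≥ B1) ∨ (0 ≥ A3) ∨ (2 * B1 > m11_1 + m33_1) ∨ (2 * B2 > m11_2 + m33_2) ∨ (2 * B3 > m11_3 + m33_3) := by
    have h := C.p11_33B
    clear * - h
    omega
  have g_p12_33A : (0 ≥ A1) ∨ (0 ≥ B2) ∨ (0 ≥ A3) ∨ (2 * A1 > m12_1 + m33_1) ∨ (2 * A2 > m12_2 + m33_2) ∨ (2 * A3 > m12_3 + m33_3) := by
    have h := C.p12_33A
    clear * - h
    omega
  have g_p22_33A : (0 ≥ A2) ∨ (0 ≥ A3) ∨ (2 * A1 > m22_1 + m33_1) ∨ (2 * A2 > m22_2 + m33_2) ∨ (2 * A3 > m22_3 + m33_3) := by
    have h := C.p22_33A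
    clear * - h
    omega
  have g_tzmp : (1 + A2 > A1 + n2) ∨ (2 + A2 > A3) ∨ (1 + B1 > B2) ∨ (2 + B3 > B2 + n3) := by
    have h := C.tzmp
    clear * - h
    omega
  have g_tzpm : (1 + A1 > A2) ∨ (2 + A3 > A2 + n3) ∨ (1 + B2 > B1 + n2) ∨ (2 + B2 > B3) := by
    have h := C.tzpm
    clear * - h
    omega
  have g_tpmm : (1 > A1) ∨ (2 + A2 > A1 + n2) ∨ (1 + B1 > n1) ∨ (2 + B1 > B2) ∨ (A2 ≥ -1 + B2 ∧ A3 ≥ -1 + B3) ∨ (1 + B1 ≥ A1) := by
    have h := C.tpmm
    clear * - h
    omega
  have b_a1 := C.a1
  have b_a2 := C.a2
  have b_a4 := C.a4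
  have b_b1 := C.b1
  have b_b2 := C.b2
  have b_b3 := C.b3
  have b_b4 := C.b4
  have b_o0 := C.o0
  have b_o1 := C.o1
  have b_o2 := C.o2
  have b_f11_0 := C.f11_0
  have b_f11_1 := C.f11_1
  have b_f11_2 := C.f11_2
  have b_f12_0 := C.f12_0
  have b_f12_4 := C.f12_4
  have b_f12_6 := C.f12_6
  have b_f13_0 := C.f13_0
  have b_f13_3 := C.f13_3
  have b_f13_4 := C.f13_4
  have b_f13_7 := C.f13_7
  have b_f22_0 := C.f22_0
  have b_f22_1 := C.f22_1
  have b_f22_4 := C.f22_4
  have b_f22_6 := C.f22_6
  have b_f33_4 := C.f33_4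
  have b_f33_7 := C.f33_7
  clear C
  rcases g_f12_2 with g_f12_2 | g_f12_2
  · rcases g_f12_5 with g_f12_5 | g_f12_5
    · clear * - b_f11_0 b_f11_1 b_f12_4 b_f13_0 b_f13_3 b_f22_4 b_o0 b_o1 g_f12_2 g_f12_5 s2
      omega
    · rcases g_f33_2 with g_f33_2 | g_f33_2
      · rcases g_f33_5 with g_f33_5 | g_f33_5
        · rcases g_p11_33B with g_p11_33B | g_p11_33B | g_p11_33B | g_p11_33B | g_p11_33B
          · clear * - e0 g_p11_33B
            omega
          · clear * - b_a1 b_f11_0 b_f11_1 b_f13_0 b_f13_3 b_f22_1 b_f22_4 b_f33_4 b_o1 e0 e3 g_f33_2 g_f33_5 g_p11_33B s1 s2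
            omega
          · clear * - b_a1 b_f11_0 b_o0 g_f33_2 g_p11_33B
            omega
          · clear * - b_a1 b_f13_0 b_f13_3 b_f22_4 b_o1 g_f33_2 g_f33_5 g_p11_33B s2
            omega
          · rcases g_f33_8 with g_f33_8 | g_f33_8
            · clear * - b_a1 b_f11_0 b_f11_1 b_f13_0 b_f13_3 b_f13_7 b_f22_4 b_f22_6 b_o0 b_o1 g_f33_2 g_f33_5 g_f33_8 g_p11_33B s2 s3
              omega
            · rcases g_tzmp with g_tzmp | g_tzmp | g_tzmp | g_tzmp
              · clear * - b_f11_0 b_f11_1 b_f13_0 b_f13_3 b_f22_4 b_o0 b_o1 g_tzmp s2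
                omega
              · clear * - b_a1 b_f11_0 b_f11_1 b_f13_0 b_f13_3 b_f22_4 b_f33_4 b_o0 b_o1 g_f33_2 g_f33_5 g_tzmp s2
                omega
              · clear * - b_a2 b_f11_0 b_f13_0 b_f22_1 b_o1 g_tzmp s1
                omega
              · rcases g_p11_12B with g_p11_12B | g_p11_12B | g_p11_12B | g_p11_12B | g_p11_12B | g_p11_12B
                · clear * - e0 g_p11_12B
                  omega
                · clear * - e1 g_p11_12B
                  omega
                · clear * - b_o1 e3 g_p11_12B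
                  omega
                · rcases g_p22_33A with g_p22_33A | g_p22_33A | g_p22_33A | g_p22_33A | g_p22_33A
                  · clear * - e3 g_p22_33A
                    omega
                  · clear * - b_a1 b_f11_0 b_f11_1 b_f11_2 b_f13_0 b_f13_7 b_f22_1 b_f22_4 b_f22_6 b_f33_4 b_o1 e0 g_f33_2 g_f33_5 g_p22_33A g_tzmp s1 s3
                    omega
                  · clear * - b_a1 b_f11_0 b_f13_0 g_f12_2 g_f33_2 g_p11_12B g_p22_33A s1
                    omega
                  · clear * - b_b1 b_f11_0 b_f11_1 b_f11_2 b_f13_7 b_f22_6 b_o1 g_f33_2 g_f33_5 g_p22_33A g_tzmp s3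
                    omega
                  · clear * - b_f13_7 g_f33_8 g_p11_33B g_p22_33A s3
                    omega
                · clear * - b_f11_2 b_f13_7 b_f22_4 b_f22_6 b_o1 g_f12_5 g_p11_12B g_tzmp s3
                  omega
                · clear * - b_f12_6 b_f13_7 b_f22_4 b_f22_6 b_o1 g_f12_5 g_p11_12B s3
                  omega
        · rcases g_tpmm with g_tpmm | g_tpmm | g_tpmm | g_tpmm | ⟨g_tpmm, g_tpmm'⟩ | g_tpmm
          · clear * - e1 g_tpmm
            omega
          · clear * - b_b3 b_o0 b_o1 g_tpmm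
            omega
          · clear * - b_a1 b_o0 g_tpmm
            omega
          · clear * - b_a2 b_f11_0 b_f13_0 b_f22_1 b_o1 g_tpmm s1
            omega
          · rcases g_f33_8 with g_f33_8 | g_f33_8
            · rcases g_t23 with ⟨g_t23, g_t23'⟩ | ⟨g_t23, g_t23'⟩
              · clear * - b_a4 b_f33_7 g_f33_5 g_f33_8 g_t23'
                omega
              · clear * - b_a4 b_f33_7 b_o2 g_f33_5 g_f33_8 g_t23' g_tpmm
                omega
            · rcases g_t23 with ⟨g_t23, g_t23'⟩ | ⟨g_t23, g_t23'⟩
              · rcases g_p11_33B with g_p11_33B | g_p11_33B | g_p11_33B | g_p11_33B | g_p11_33B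
                · clear * - e0 g_p11_33B
                  omega
                · clear * - b_a4 b_o0 e0 g_p11_33B g_t23
                  omega
                · clear * - b_a1 b_f11_0 b_f13_0 b_f22_0 g_f33_2 g_p11_33B s1
                  omega
                · clear * - b_f13_4 b_f22_4 b_o1 g_f33_5 g_p11_33B g_tpmm' s2
                  omega
                · rcases g_p11_13B with g_p11_13B | g_p11_13B | g_p11_13B | g_p11_13B | g_p11_13B | g_p11_13B
                  · clear * - e0 g_p11_13B
                    omega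
                  · clear * - e1 g_p11_13B
                    omega
                  · clear * - e2 g_p11_13B
                    omega
                  · clear * - b_f11_0 b_f11_1 b_f11_2 b_f13_3 b_f22_4 b_o1 g_f33_8 g_p11_13B g_p11_33B g_t23' g_tpmm' s2
                    omega
                  · clear * - b_f22_4 b_o1 g_p11_13B s2
                    omega
                  · clear * - b_b3 b_f11_0 b_f11_1 b_f11_2 b_f22_4 b_f22_6 b_o1 g_f33_8 g_p11_13B g_p11_33B g_tpmm' s3
                    omega
              · rcases g_p11_33B with g_p11_33B | g_p11_33B | g_p11_33B | g_p11_33B | g_p11_33B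
                · clear * - e0 g_p11_33B
                  omega
                · clear * - b_a2 b_a4 b_f11_0 b_f13_0 b_f22_1 e0 g_p11_33B s1
                  omega
                · clear * - b_a1 b_f11_0 b_o0 g_f33_2 g_p11_33B
                  omega
                · clear * - b_f13_4 b_f22_4 b_o1 g_f33_5 g_p11_33B g_tpmm' s2
                  omega
                · rcases g_p11_13B with g_p11_13B | g_p11_13B | g_p11_13B | g_p11_13B | g_p11_13B | g_p11_13B
                  · clear * - e0 g_p11_13B
                    omega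
                  · clear * - e1 g_p11_13B
                    omega
                  · clear * - e2 g_p11_13B
                    omega
                  · clear * - b_f11_0 b_f11_1 b_f11_2 b_f13_3 b_f22_4 b_o1 g_f33_8 g_p11_13B g_p11_33B g_t23' g_tpmm' s2
                    omega
                  · clear * - b_f22_4 b_o1 g_p11_13B s2
                    omega
                  · clear * - b_b3 b_f11_0 b_f11_1 b_f11_2 b_f22_4 b_f22_6 b_o1 g_f33_8 g_p11_13B g_p11_33B g_tpmm' s3
                    omega
          · rcases g_t23 with ⟨g_t23, g_t23'⟩ | ⟨g_t23, g_t23'⟩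
            · rcases g_p11_33B with g_p11_33B | g_p11_33B | g_p11_33B | g_p11_33B | g_p11_33B
              · clear * - e0 g_p11_33B
                omega
              · clear * - b_a4 b_f11_0 b_f13_0 b_f22_1 e0 g_p11_33B g_tpmm s1
                omega
              · clear * - b_f13_0 b_f22_0 g_f33_2 g_p11_33B g_tpmm s1
                omega
              · rcases g_tzpm with g_tzpm | g_tzpm | g_tzpm | g_tzpm
                · clear * - g_t23 g_tzpm
                  omega
                · clear * - b_a4 b_f11_2 b_f13_4 b_f13_7 b_f22_4 b_f22_6 g_f33_5 g_p11_33B g_tzpm s2 s3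
                  omega
                · clear * - b_f11_0 b_f11_1 b_f13_0 b_f13_3 b_f22_4 b_o1 g_tpmm g_tzpm s2
                  omega
                · clear * - b_a4 b_f13_4 b_f22_4 g_f33_5 g_p11_33B g_tzpm s2
                  omega
              · rcases g_tzpm with g_tzpm | g_tzpm | g_tzpm | g_tzpm
                · clear * - g_t23 g_tzpm
                  omega
                · rcases g_f33_8 with g_f33_8 | g_f33_8
                  · clear * - b_a4 b_f13_7 b_f22_4 b_f22_6 g_f33_5 g_f33_8 g_p11_33B s3
                    omega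
                  · clear * - b_f13_7 b_f22_4 b_f22_6 g_f33_8 g_p11_33B g_tzpm s3
                    omega
                · clear * - b_f11_0 b_f11_1 b_f13_0 b_f13_3 b_f22_4 b_o1 g_tpmm g_tzpm s2
                  omega
                · rcases g_f33_8 with g_f33_8 | g_f33_8
                  · clear * - b_a4 b_f13_7 b_f22_4 b_f22_6 g_f33_5 g_f33_8 g_p11_33B s3
                    omega
                  · clear * - b_a4 b_f11_2 b_f13_4 b_f13_7 b_f22_4 b_f22_6 g_f33_8 g_p11_33B g_tzpm s2 s3
                    omega
            · rcases g_f33_8 with g_f33_8 | g_f33_8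
              · clear * - b_b4 b_f33_7 g_f33_5 g_f33_8 g_t23'
                omega
              · rcases g_p11_22B with g_p11_22B | g_p11_22B | g_p11_22B | g_p11_22B | g_p11_22B
                · clear * - e0 g_p11_22B
                  omega
                · clear * - e3 g_p11_22B
                  omega
                · clear * - b_f13_0 g_p11_22B g_tpmm s1
                  omega
                · rcases g_tzpm with g_tzpm | g_tzpm | g_tzpm | g_tzpm
                  · clear * - b_f11_0 b_f13_0 b_f22_1 g_tpmm g_tzpm s1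
                    omega
                  · rcases g_p11_33B with g_p11_33B | g_p11_33B | g_p11_33B | g_p11_33B | g_p11_33B
                    · clear * - e0 g_p11_33B
                      omega
                    · clear * - b_a4 b_f11_0 b_f13_0 b_f22_1 e0 g_p11_33B g_tpmm s1
                      omega
                    · clear * - b_f13_0 b_f22_0 g_f33_2 g_p11_33B g_tpmm s1
                      omega
                    · clear * - b_f13_4 b_f22_4 g_f33_5 g_p11_33B g_t23' g_tzpm s2
                      omega
                    · clear * - b_f13_7 b_f22_4 b_f22_6 g_f33_8 g_p11_33B g_tzpm s3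
                      omega
                  · clear * - b_f11_0 b_f11_1 b_f13_0 b_f13_3 b_f22_4 b_o1 g_tpmm g_tzpm s2
                    omega
                  · clear * - b_f13_4 g_p11_22B g_tzpm s2
                    omega
                · clear * - b_f13_7 g_p11_22B s3
                  omega
      · rcases g_tzpm with g_tzpm | g_tzpm | g_tzpm | g_tzpm
        · rcases g_p11_12B with g_p11_12B | g_p11_12B | g_p11_12B | g_p11_12B | g_p11_12B | g_p11_12B
          · clear * - e0 g_p11_12B
            omega
          · clear * - e1 g_p11_12B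
            omega
          · clear * - b_b2 e0 g_p11_12B
            omega
          · clear * - b_f11_0 b_f13_0 b_f22_1 g_f12_2 g_p11_12B g_tzpm s1
            omega
          · rcases g_p11_13B with g_p11_13B | g_p11_13B | g_p11_13B | g_p11_13B | g_p11_13B | g_p11_13B
            · clear * - e0 g_p11_13B
              omega
            · clear * - e1 g_p11_13B
              omega
            · clear * - e2 g_p11_13B
              omega
            · clear * - b_f11_0 b_f11_1 b_f13_3 b_f22_4 b_o1 g_f12_5 g_p11_12B g_p11_13B s2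
              omega
            · clear * - b_f22_4 b_o1 g_p11_13B s2
              omega
            · rcases g_f13_8 with g_f13_8 | g_f13_8
              · clear * - b_f11_2 b_f22_4 b_f22_6 b_o1 g_f13_8 g_p11_13B s2 s3
                omega
              · clear * - b_b3 b_f11_0 b_f11_1 b_f11_2 b_f22_4 b_f22_6 b_o1 g_f13_8 g_p11_13B s3
                omega
          · clear * - b_f12_6 b_f13_7 b_f22_4 b_f22_6 b_o1 g_f12_5 g_p11_12B s3
            omega
        · rcases g_p11_13B with g_p11_13B | g_p11_13B | g_p11_13B | g_p11_13B | g_p11_13B | g_p11_13B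
          · clear * - e0 g_p11_13B
            omega
          · clear * - e1 g_p11_13B
            omega
          · clear * - e2 g_p11_13B
            omega
          · rcases g_f33_5 with g_f33_5 | g_f33_5
            · clear * - b_f11_0 b_f11_1 b_f11_2 b_f13_7 b_f22_1 b_f22_4 b_f22_6 b_f33_4 b_o2 g_f33_2 g_f33_5 g_p11_13B g_tzpm s1 s3
              omega
            · rcases g_p11_22B with g_p11_22B | g_p11_22B | g_p11_22B | g_p11_22B | g_p11_22B
              · clear * - e0 g_p11_22B
                omega
              · clear * - e3 g_p11_22B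
                omega
              · clear * - b_f11_0 g_p11_13B g_p11_22B s1
                omega
              · rcases g_f33_8 with g_f33_8 | g_f33_8
                · clear * - b_f11_2 b_f13_4 b_f13_7 b_f22_6 b_f33_7 g_f33_5 g_f33_8 g_p11_22B s2 s3
                  omega
                · rcases g_p12_33A with g_p12_33A | g_p12_33A | g_p12_33A | g_p12_33A | g_p12_33A | g_p12_33A
                  · clear * - e1 g_p12_33A
                    omega
                  · clear * - b_f22_1 b_o1 e0 g_p11_13B g_p12_33A s1
                    omega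
                  · clear * - b_a4 b_f22_1 e0 g_p11_13B g_p12_33A s1
                    omega
                  · clear * - b_a2 b_f11_2 b_f13_4 b_f13_7 b_f22_6 g_f12_2 g_f33_2 g_p11_22B g_p12_33A g_tzpm s2 s3
                    omega
                  · clear * - b_f11_2 b_f13_4 b_f13_7 b_f22_6 b_o1 g_f12_5 g_f33_5 g_p11_22B g_p12_33A g_tzpm s2 s3
                    omega
                  · clear * - b_f11_2 b_f12_6 b_f13_7 b_f22_6 b_o2 g_f12_5 g_f33_8 g_p11_22B g_p12_33A s3
                    omega
              · clear * - b_f13_7 g_p11_22B s3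
                omega
          · clear * - b_f22_4 b_o1 g_p11_13B s2
            omega
          · clear * - b_f22_4 b_f22_6 b_o2 g_p11_13B g_tzpm s3
            omega
        · rcases g_f13_8 with g_f13_8 | g_f13_8
          · clear * - b_f11_0 b_f11_1 b_f11_2 b_f13_7 b_f22_4 b_f22_6 b_o1 g_f13_8 g_tzpm s2 s3
            omega
          · rcases g_p11_13B with g_p11_13B | g_p11_13B | g_p11_13B | g_p11_13B | g_p11_13B | g_p11_13B
            · clear * - e0 g_p11_13B
              omega
            · clear * - e1 g_p11_13B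
              omega
            · clear * - e2 g_p11_13B
              omega
            · clear * - b_f11_1 b_f13_3 b_f22_4 b_o1 g_p11_13B g_tzpm s2
              omega
            · clear * - b_f22_4 b_o1 g_p11_13B s2
              omega
            · clear * - b_b3 b_f11_0 b_f11_1 b_f11_2 b_f22_4 b_f22_6 b_o1 g_f13_8 g_p11_13B s3
              omega
        · rcases g_p11_22B with g_p11_22B | g_p11_22B | g_p11_22B | g_p11_22B | g_p11_22B
          · clear * - e0 g_p11_22B
            omega
          · clear * - e3 g_p11_22B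
            omega
          · rcases g_f22_2 with g_f22_2 | g_f22_2
            · clear * - b_a1 b_f11_0 b_f13_0 g_f22_2 g_p11_22B s1
              omega
            · clear * - b_a2 b_f11_0 b_f13_0 g_f22_2 g_p11_22B s1
              omega
          · clear * - b_f13_4 g_p11_22B g_tzpm s2
            omega
          · clear * - b_f13_7 g_p11_22B s3
            omega
  · clear * - b_a2 b_f12_0 b_o1 g_f12_2
    omega

end Pool.Agent.Helper78.TQ
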