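import Pool.Agent.Helper89.TQ.Ctx

set_option autoImplicit false
set_option linter.all false
set_option maxHeartbeats 4000000
set_option maxRecDepth 10000

namespace Pool.Agent.Helper78.TQ

open Pool.Agent.Helper89.TQ

theorem c2_11_33_33_k3 {n1 n2 n3 A1 A2 A3 B1 B2 B3 m11_1 m11_2 m11_3 m12_1 m12_2 m12_3 m13_1 m13_2 m13_3 m22_1 m22_2 m22_3 m33_1 m33_2 m33_3 : ℤ}
    (C : Ctx2 n1 n2 n3 A1 A2 A3 B1 B2 B3 m11_1 m11_2 m11_3 m12_1 m12_2 m12_3 m13_1 m13_2 m13_3 m22_1 m22_2 m22_3 m33_1 m33_2 m33_3)
    (e0 : 0 < B1)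
    (e1 : 0 < A3)
    (s1 : 3 * A1 + 0 * B1 ≤ m11_1 + m33_1 + m33_1)
    (s2 : 3 * A2 + 0 * B2 ≤ m11_2 + m33_2 + m33_2)
    (s3 : 3 * A3 + 0 * B3 ≤ m11_3 + m33_3 + m33_3) : False := by
  have g_t23 : (A1 < A2 ∧ A3 < A2 + n3) ∨ (B1 < B2 ∧ B3 < B2 + n3) := by
    have h := C.t23
    clear * - h
    omega
  have g_f12_2 : (m12_1 = -1 + A1) ∨ (m12_1 = -1 + B2) := by
    have h := C.f12_2
    clear * - h
    omega
  have g_f12_5 : (m12_2 = m12_1 + n2) ∨ (m12_2 = -1 + B2) := by
    have h := C.f12_5
    clear * - h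
    omega
  have g_f13_2 : (m13_1 = -1 + A1) ∨ (m13_1 = -1 + B3) := by
    have h := C.f13_2
    clear * - h
    omega
  have g_f13_5 : (m13_2 = m13_1 + n2) ∨ (m13_2 = -1 + B3) := by
    have h := C.f13_5
    clear * - h
    omega
  have g_f13_8 : (m13_3 = m13_2 + n3) ∨ (m13_3 = -1 + B3) := by
    have h := C.f13_8
    clear * - h
    omega
  have g_f22_2 : (m22_1 = n1) ∨ (m22_1 = -1 + A2) := by
    have h := C.f22_2
    clear * - h
    omega
  have g_f22_5 : (m22_2 = m22_1 + n2) ∨ (m22_2 = -1 + A2) := by
    have h := C.f22_5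
    clear * - h
    omega
  have g_f33_5 : (m33_2 = m33_1 + n2) ∨ (m33_2 = -1 + A3) := by
    have h := C.f33_5
    clear * - h
    omega
  have g_f33_8 : (m33_3 = m33_2 + n3) ∨ (m33_3 = -1 + A3) := by
    have h := C.f33_8
    clear * - h
    omega
  have g_p11_22B : (0 ≥ B1) ∨ (0 ≥ A2) ∨ (2 * B1 > m11_1 + m22_1) ∨ (2 * B2 > m11_2 + m22_2) ∨ (2 * B3 > m11_3 + m22_3) := by
    have h := C.p11_22B
    clear * - h
    omega
  have g_p12_22A : (0 ≥ A1) ∨ (0 ≥ B2) ∨ (0 ≥ A2) ∨ (2 * A1 > m12_1 + m22_1) ∨ (2 * A2 > m12_2 + m22_2) ∨ (2 * A3 > m12_3 + m22_3) := by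
    have h := C.p12_22A
    clear * - h
    omega
  have g_p12_33A : (0 ≥ A1) ∨ (0 ≥ B2) ∨ (0 ≥ A3) ∨ (2 * A1 > m12_1 + m33_1) ∨ (2 * A2 > m12_2 + m33_2) ∨ (2 * A3 > m12_3 + m33_3) := by
    have h := C.p12_33A
    clear * - h
    omega
  have g_p13_22A : (0 ≥ A1) ∨ (0 ≥ B3) ∨ (0 ≥ A2) ∨ (2 * A1 > m13_1 + m22_1) ∨ (2 * A2 > m13_2 + m22_2) ∨ (2 * A3 > m13_3 + m22_3) := by
    have h := C.p13_22A
    clear * - h
    omega
  have g_tmpp : (1 + A1 > n1) ∨ (2 + A1 > A2) ∨ (1 > B1) ∨ (2 + B2 > B1 + n2) := by
    have h := C.tmpp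
    clear * - h
    omega
  have b_a2 := C.a2
  have b_a3 := C.a3
  have b_a5 := C.a5
  have b_b3 := C.b3
  have b_b5 := C.b5
  have b_o0 := C.o0
  have b_o1 := C.o1
  have b_o2 := C.o2
  have b_f11_0 := C.f11_0
  have b_f11_1 := C.f11_1
  have b_f11_2 := C.f11_2
  have b_f12_0 := C.f12_0
  have b_f12_4 := C.f12_4
  have b_f12_6 := C.f12_6
  have b_f13_0 := C.f13_0
  have b_f13_3 := C.f13_3
  have b_f13_4 := C.f13_4
  have b_f22_1 := C.f22_1
  have b_f22_4 := C.f22_4
  have b_f22_6 := C.f22_6
  have b_f33_0 := C.f33_0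
  have b_f33_1 := C.f33_1
  have b_f33_4 := C.f33_4
  have b_f33_7 := C.f33_7
  clear C
  rcases g_f12_2 with g_f12_2 | g_f12_2
  · rcases g_f13_2 with g_f13_2 | g_f13_2
    · rcases g_f13_5 with g_f13_5 | g_f13_5
      · rcases g_f12_5 with g_f12_5 | g_f12_5
        · clear * - b_b3 b_f12_4 b_o0 g_f12_2 g_f12_5
          omega
        · rcases g_f22_2 with g_f22_2 | g_f22_2
          · rcases g_f22_5 with g_f22_5 | g_f22_5
            · clear * - b_a3 b_f11_0 b_f22_4 b_f33_0 b_o0 g_f22_2 g_f22_5 s1
              omega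
            · rcases g_p13_22A with g_p13_22A | g_p13_22A | g_p13_22A | g_p13_22A | g_p13_22A | g_p13_22A
              · clear * - b_o0 e0 g_p13_22A
                omega
              · clear * - b_o2 e1 g_p13_22A
                omega
              · clear * - b_f11_0 b_f22_1 b_f33_0 b_o0 e0 g_f22_2 g_p13_22A s1
                omega
              · clear * - b_f11_0 b_f33_0 b_o0 g_f13_2 g_f22_2 g_p13_22A s1
                omega
              · clear * - b_b3 b_o0 b_o1 g_f13_2 g_f13_5 g_f22_5 g_p13_22A
                omega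
              · rcases g_f13_8 with g_f13_8 | g_f13_8
                · clear * - b_a5 b_f11_0 b_f11_1 b_f11_2 b_f22_6 b_f33_7 b_o0 g_f13_2 g_f13_5 g_f13_8 g_f22_5 g_p13_22A s3
                  omega
                · rcases g_t23 with ⟨g_t23, g_t23'⟩ | ⟨g_t23, g_t23'⟩
                  · clear * - b_f22_6 b_o2 g_f13_8 g_f22_5 g_p13_22A g_t23'
                    omega
                  · rcases g_p12_22A with g_p12_22A | g_p12_22A | g_p12_22A | g_p12_22A | g_p12_22A | g_p12_22A
                    · clear * - b_o0 e0 g_p12_22A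
                      omega
                    · clear * - e0 g_p12_22A g_t23
                      omega
                    · clear * - b_f11_0 b_f22_1 b_f33_0 b_o0 e0 g_f22_2 g_p12_22A s1
                      omega
                    · clear * - b_f11_0 b_f33_0 b_o0 g_f12_2 g_f22_2 g_p12_22A s1
                      omega
                    · clear * - b_f22_6 b_o2 g_f12_5 g_f13_8 g_f22_5 g_p12_22A g_p13_22A g_t23'
                      omega
                    · clear * - b_a5 b_f12_6 b_f22_6 b_o2 g_f12_5 g_f22_5 g_p12_22A g_t23'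
                      omega
          · rcases g_f22_5 with g_f22_5 | g_f22_5
            · clear * - b_a2 b_b3 b_f22_4 b_o0 b_o1 g_f22_2 g_f22_5
              omega
            · rcases g_p12_33A with g_p12_33A | g_p12_33A | g_p12_33A | g_p12_33A | g_p12_33A | g_p12_33A
              · clear * - b_o0 e0 g_p12_33A
                omega
              · clear * - b_a2 b_o0 b_o1 e0 g_p12_33A
                omega
              · clear * - e1 g_p12_33A
                omega
              · clear * - b_f11_0 b_o0 g_f12_2 g_p12_33A s1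
                omega
              · rcases g_f33_5 with g_f33_5 | g_f33_5
                · clear * - b_f11_0 b_f11_1 b_o0 b_o1 g_f12_5 g_f33_5 g_p12_33A s1 s2
                  omega
                · rcases g_tmpp with g_tmpp | g_tmpp | g_tmpp | g_tmpp
                  · clear * - b_f11_0 b_f33_0 b_o0 g_tmpp s1
                    omega
                  · clear * - b_f11_0 b_f33_1 b_o0 b_o1 g_f12_5 g_f33_5 g_p12_33A g_tmpp s1
                    omega
                  · clear * - e0 g_tmpp
                    omega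
                  · clear * - b_f11_0 b_f11_1 b_o1 g_f12_5 g_p12_33A g_tmpp s2
                    omega
              · rcases g_t23 with ⟨g_t23, g_t23'⟩ | ⟨g_t23, g_t23'⟩
                · rcases g_p11_22B with g_p11_22B | g_p11_22B | g_p11_22B | g_p11_22B | g_p11_22B
                  · clear * - e0 g_p11_22B
                    omega
                  · clear * - b_o0 e0 g_p11_22B g_t23
                    omega
                  · clear * - b_f11_0 b_o0 g_f22_2 g_p11_22B g_t23
                    omega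
                  · clear * - b_f11_2 b_f12_6 g_f12_5 g_f22_5 g_p11_22B g_p12_33A g_t23' s3
                    omega
                  · clear * - b_b5 b_f12_6 b_f22_6 g_f12_5 g_f22_5 g_p11_22B g_p12_33A g_t23' s3
                    omega
                · rcases g_f33_8 with g_f33_8 | g_f33_8
                  · rcases g_f33_5 with g_f33_5 | g_f33_5
                    · clear * - b_f11_0 b_f11_1 b_f11_2 b_f12_6 b_o0 b_o2 g_f12_5 g_f33_5 g_f33_8 g_p12_33A g_t23' s1 s3
                      omega
                    · clear * - b_f11_0 b_f11_1 b_f11_2 b_f12_6 b_f13_4 b_o0 b_o2 g_f12_5 g_f13_2 g_f13_5 g_f33_5 g_f33_8 g_p12_33A g_t23' s3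
                      omega
                  · clear * - b_f12_6 b_o2 g_f12_5 g_f33_8 g_p12_33A g_t23'
                    omega
      · rcases g_f33_5 with g_f33_5 | g_f33_5
        · clear * - b_f11_0 b_f13_0 b_f13_3 b_f33_4 b_o0 b_o2 g_f13_5 g_f33_5 s1
          omega
        · rcases g_f12_5 with g_f12_5 | g_f12_5
          · clear * - b_b3 b_f12_4 b_o0 g_f12_2 g_f12_5
            omega
          · rcases g_p12_33A with g_p12_33A | g_p12_33A | g_p12_33A | g_p12_33A | g_p12_33A | g_p12_33A
            · clear * - b_o0 e0 g_p12_33A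
              omega
            · clear * - b_a2 b_o0 b_o1 e0 g_p12_33A
              omega
            · clear * - e1 g_p12_33A
              omega
            · clear * - b_f11_0 b_o0 g_f12_2 g_p12_33A s1
              omega
            · rcases g_tmpp with g_tmpp | g_tmpp | g_tmpp | g_tmpp
              · clear * - b_f11_0 b_f33_0 b_o0 g_tmpp s1
                omega
              · clear * - b_f11_0 b_f33_1 b_o0 b_o1 g_f12_5 g_f33_5 g_p12_33A g_tmpp s1
                omega
              · clear * - e0 g_tmpp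
                omega
              · clear * - b_f11_0 b_f11_1 b_o1 g_f12_5 g_p12_33A g_tmpp s2
                omega
            · rcases g_tmpp with g_tmpp | g_tmpp | g_tmpp | g_tmpp
              · clear * - b_f11_0 b_f33_0 b_o0 g_tmpp s1
                omega
              · rcases g_f33_8 with g_f33_8 | g_f33_8
                · clear * - b_a5 b_f11_0 b_f12_6 b_f33_1 b_o0 b_o1 g_f12_5 g_f33_5 g_f33_8 g_p12_33A g_tmpp s1
                  omega
                · rcases g_t23 with ⟨g_t23, g_t23'⟩ | ⟨g_t23, g_t23'⟩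
                  · clear * - b_f12_6 b_o1 g_f12_5 g_f33_8 g_p12_33A g_t23'
                    omega
                  · clear * - b_f12_6 b_o2 g_f12_5 g_f33_8 g_p12_33A g_t23'
                    omega
              · clear * - e0 g_tmpp
                omega
              · clear * - b_f11_0 b_f11_1 b_f11_2 b_f12_6 b_f33_7 g_f12_5 g_p12_33A g_tmpp s3
                omega
    · clear * - b_f11_0 b_f13_0 b_f33_1 b_o0 b_o2 g_f13_2 s1
      omega
  · clear * - b_a2 b_f12_0 b_o1 g_f12_2
    omega

end Pool.Agent.Helper78.TQ
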