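import Pool.Agent.Helper89.TQ.Ctx

set_option autoImplicit false
set_option linter.all false
set_option maxHeartbeats 4000000
set_option maxRecDepth 10000

namespace Pool.Agent.Helper78.TQ

open Pool.Agent.Helper89.TQ

theorem c3_22_22_33_k0 {n1 n2 n3 A1 A2 A3 B1 B2 B3 m11_1 m11_2 m11_3 m22_1 m22_2 m22_3 m23_1 m23_2 m23_3 m33_1 m33_2 m33_3 : ℤ}
    (C : Ctx3 n1 n2 n3 A1 A2 A3 B1 B2 B3 m11_1 m11_2 m11_3 m22_1 m22_2 m22_3 m23_1 m23_2 m23_3 m33_1 m33_2 m33_3)
    (e0 : 0 < B2)
    (e1 : 0 < A3)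
    (s1 : 0 * A1 + 3 * B1 ≤ m22_1 + m22_1 + m33_1)
    (s2 : 0 * A2 + 3 * B2 ≤ m22_2 + m22_2 + m33_2)
    (s3 : 0 * A3 + 3 * B3 ≤ m22_3 + m22_3 + m33_3) : False := by
  have g_t12 : (0 < A1 ∧ A2 < A1 + n2) ∨ (0 < B1 ∧ B2 < B1 + n2) := by
    have h := C.t12
    clear * - h
    omega
  have g_f22_5 : (m22_2 = m22_1 + n2) ∨ (m22_2 = -1 + B2) := by
    have h := C.f22_5
    clear * - h
    omega
  have g_f23_3 : (m23_1 = n1) ∨ (m23_1 = -1 + A2) ∨ (m23_1 = -1 + B3) := by
    have h := C.f23_3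
    clear * - h
    omega
  have g_f23_7 : (m23_2 = m23_1 + n2) ∨ (m23_2 = -1 + A2) ∨ (m23_2 = -1 + B3) := by
    have h := C.f23_7
    clear * - h
    omega
  have g_f23_10 : (m23_3 = m23_2 + n3) ∨ (m23_3 = -1 + B3) := by
    have h := C.f23_10
    clear * - h
    omega
  have g_p11_23B : (0 ≥ B1) ∨ (0 ≥ A2) ∨ (0 ≥ B3) ∨ (2 * B1 > m11_1 + m23_1) ∨ (2 * B2 > m11_2 + m23_2) ∨ (2 * B3 > m11_3 + m23_3) := by
    have h := C.p11_23B
    clear * - h
    omega
  have g_p22_23B : (0 ≥ B2) ∨ (0 ≥ A2) ∨ (0 ≥ B3) ∨ (2 * B1 > m22_1 + m23_1) ∨ (2 * B2 > m22_2 + m23_2) ∨ (2 * B3 > m22_3 + m23_3) := by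
    have h := C.p22_23B
    clear * - h
    omega
  have g_tmzp : (1 + A1 > n1) ∨ (1 + A1 > A2) ∨ (1 + A2 > A3) ∨ (1 > B1) ∨ (1 + B2 > B1 + n2) ∨ (1 + B3 > B2 + n3) := by
    have h := C.tmzp
    clear * - h
    omega
  have g_tmpp : (1 + A1 > n1) ∨ (2 + A1 > A2) ∨ (1 > B1) ∨ (2 + B2 > B1 + n2) := by
    have h := C.tmpp
    clear * - h
    omega
  have g_tzmp : (1 + A2 > A1 + n2) ∨ (2 + A2 > A3) ∨ (1 + B1 > B2) ∨ (2 + B3 > B2 + n3) := by
    have h := C.tzmp
    clear * - h
    omega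
  have b_a1 := C.a1
  have b_a2 := C.a2
  have b_a3 := C.a3
  have b_a4 := C.a4
  have b_b2 := C.b2
  have b_b5 := C.b5
  have b_o0 := C.o0
  have b_o1 := C.o1
  have b_o2 := C.o2
  have b_f11_0 := C.f11_0
  have b_f11_1 := C.f11_1
  have b_f11_2 := C.f11_2
  have b_f22_1 := C.f22_1
  have b_f22_4 := C.f22_4
  have b_f22_6 := C.f22_6
  have b_f23_0 := C.f23_0
  have b_f23_1 := C.f23_1
  have b_f23_5 := C.f23_5
  have b_f23_9 := C.f23_9
  have b_f33_0 := C.f33_0
  have b_f33_3 := C.f33_3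
  have b_f33_4 := C.f33_4
  have b_f33_7 := C.f33_7
  clear C
  rcases g_t12 with ⟨g_t12, g_t12'⟩ | ⟨g_t12, g_t12'⟩
  · rcases g_f23_3 with g_f23_3 | g_f23_3 | g_f23_3
    · rcases g_tzmp with g_tzmp | g_tzmp | g_tzmp | g_tzmp
      · clear * - g_t12' g_tzmp
        omega
      · rcases g_f23_7 with g_f23_7 | g_f23_7 | g_f23_7
        · clear * - b_a1 b_f23_5 g_f23_3 g_f23_7 g_t12'
          omega
        · rcases g_f23_10 with g_f23_10 | g_f23_10
          · clear * - b_f22_4 b_f22_6 b_f23_9 b_f33_4 b_f33_7 b_o2 g_f23_10 g_f23_7 g_tzmp s2 s3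
            omega
          · rcases g_p22_23B with g_p22_23B | g_p22_23B | g_p22_23B | g_p22_23B | g_p22_23B | g_p22_23B
            · clear * - e0 g_p22_23B
              omega
            · clear * - b_f22_4 b_f33_4 e0 g_p22_23B g_tzmp s2
              omega
            · clear * - b_f22_4 b_f33_4 b_o2 e0 g_p22_23B s2
              omega
            · clear * - b_a1 b_f33_0 b_o0 g_f23_3 g_p22_23B s1
              omega
            · clear * - b_f22_4 b_f33_4 g_f23_7 g_p22_23B g_tzmp s2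
              omega
            · clear * - b_f33_7 b_o2 g_f23_10 g_p22_23B s3
              omega
        · clear * - b_a4 b_f23_5 b_o2 g_f23_7
          omega
      · rcases g_tmpp with g_tmpp | g_tmpp | g_tmpp | g_tmpp
        · clear * - b_f22_1 b_f33_0 b_o0 g_tmpp g_tzmp s1
          omega
        · clear * - b_f22_1 b_f23_1 b_f33_0 b_o0 g_f23_3 g_tmpp g_tzmp s1
          omega
        · clear * - b_o0 g_t12 g_tmpp
          omega
        · clear * - b_f22_1 b_f23_1 b_f33_0 b_o0 g_f23_3 g_t12' g_tmpp g_tzmp s1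
          omega
      · clear * - b_f22_4 b_f22_6 b_f33_7 b_o2 g_tzmp s3
        omega
    · rcases g_tmzp with g_tmzp | g_tmzp | g_tmzp | g_tmzp | g_tmzp | g_tmzp
      · clear * - b_f22_1 b_f23_0 b_f33_0 b_o0 b_o1 g_f23_3 g_tmzp s1
        omega
      · clear * - b_b2 b_o0 b_o1 g_tmzp
        omega
      · rcases g_tmpp with g_tmpp | g_tmpp | g_tmpp | g_tmpp
        · clear * - b_b2 b_f22_4 b_f23_0 b_f33_4 b_o0 g_f23_3 g_tmpp g_tmzp s2
          omega
        · clear * - b_b2 b_f22_4 b_f33_4 b_o0 g_tmpp g_tmzp s2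
          omega
        · clear * - b_o0 g_t12 g_tmpp
          omega
        · clear * - b_f22_4 b_f33_4 b_o0 g_t12' g_tmpp g_tmzp s2
          omega
      · clear * - b_o0 g_t12 g_tmzp
        omega
      · clear * - b_o0 b_o1 g_t12' g_tmzp
        omega
      · clear * - b_f22_4 b_f22_6 b_f33_7 b_o2 g_tmzp s3
        omega
    · clear * - b_a4 b_f23_1 b_o2 g_f23_3
      omega
  · rcases g_f23_10 with g_f23_10 | g_f23_10
    · rcases g_f23_7 with g_f23_7 | g_f23_7 | g_f23_7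
      · rcases g_f23_3 with g_f23_3 | g_f23_3 | g_f23_3
        · clear * - b_a1 b_b5 b_f23_9 b_o0 g_f23_10 g_f23_3 g_f23_7 g_t12'
          omega
        · clear * - b_a2 b_b5 b_f23_9 b_o0 g_f23_10 g_f23_3 g_f23_7 g_t12'
          omega
        · clear * - b_b2 b_b5 b_f22_4 b_f23_9 b_f33_4 b_o2 g_f23_10 g_f23_3 g_f23_7 g_t12' s2
          omega
      · clear * - b_b5 b_f23_9 b_o1 g_f23_10 g_f23_7
        omega
      · clear * - b_b5 b_f22_4 b_f23_9 b_f33_4 b_o2 g_f23_10 g_f23_7 s2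
        omega
    · rcases g_f23_3 with g_f23_3 | g_f23_3 | g_f23_3
      · rcases g_f23_7 with g_f23_7 | g_f23_7 | g_f23_7
        · clear * - b_a1 b_a3 b_f23_5 g_f23_3 g_f23_7
          omega
        · rcases g_p22_23B with g_p22_23B | g_p22_23B | g_p22_23B | g_p22_23B | g_p22_23B | g_p22_23B
          · clear * - e0 g_p22_23B
            omega
          · clear * - b_o1 e0 g_p22_23B
            omega
          · clear * - b_f22_4 b_f33_4 b_o2 e0 g_p22_23B s2
            omega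
          · clear * - b_a1 b_f33_0 b_o0 g_f23_3 g_p22_23B s1
            omega
          · rcases g_tzmp with g_tzmp | g_tzmp | g_tzmp | g_tzmp
            · rcases g_p11_23B with g_p11_23B | g_p11_23B | g_p11_23B | g_p11_23B | g_p11_23B | g_p11_23B
              · clear * - g_p11_23B g_t12
                omega
              · clear * - b_f23_1 b_f33_0 b_f33_3 b_o0 g_f23_3 g_f23_7 g_p11_23B g_p22_23B g_t12 g_t12' g_tzmp s2
                omega
              · clear * - b_f23_1 b_f33_0 b_f33_3 b_f33_4 b_o0 b_o2 g_f23_3 g_f23_7 g_p11_23B g_p22_23B g_t12 g_t12' g_tzmp s2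
                omega
              · clear * - b_f11_0 b_f33_0 b_f33_3 b_o0 g_f23_3 g_f23_7 g_p11_23B g_p22_23B g_t12' g_tzmp s2
                omega
              · clear * - b_f11_0 b_f11_1 b_o0 g_f23_7 g_p11_23B g_t12' g_tzmp
                omega
              · clear * - b_f11_0 b_f11_1 b_f11_2 b_f22_6 b_f33_7 b_o0 b_o2 g_f23_10 g_f23_7 g_p11_23B g_p22_23B g_t12' g_tzmp s3
                omega
            · clear * - b_f33_4 b_o1 g_f23_7 g_p22_23B g_tzmp s2
              omega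
            · rcases g_f22_5 with g_f22_5 | g_f22_5
              · clear * - b_f22_1 b_f23_1 b_f33_0 b_f33_3 g_f22_5 g_f23_3 g_f23_7 g_p22_23B g_tzmp s1 s2
                omega
              · clear * - b_f22_1 b_f23_1 b_f33_0 g_f22_5 g_f23_3 g_f23_7 g_p22_23B g_tzmp s1
                omega
            · clear * - b_f22_6 b_f33_7 b_o1 b_o2 g_f23_7 g_p22_23B g_tzmp s3
              omega
          · clear * - b_f33_7 b_o2 g_f23_10 g_p22_23B s3
            omega
        · clear * - b_a4 b_f23_5 b_o2 g_f23_7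
          omega
      · rcases g_tmzp with g_tmzp | g_tmzp | g_tmzp | g_tmzp | g_tmzp | g_tmzp
        · clear * - b_f22_1 b_f23_0 b_f33_0 b_o0 b_o1 g_f23_3 g_tmzp s1
          omega
        · clear * - b_b2 b_o0 b_o1 g_tmzp
          omega
        · rcases g_tmpp with g_tmpp | g_tmpp | g_tmpp | g_tmpp
          · clear * - b_b2 b_f22_4 b_f23_0 b_f33_4 b_o0 g_f23_3 g_tmpp g_tmzp s2
            omega
          · clear * - b_b2 b_f22_4 b_f33_4 b_o0 g_tmpp g_tmzp s2
            omega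
          · clear * - g_t12 g_tmpp
            omega
          · clear * - b_a3 b_f22_4 b_f33_4 b_o0 g_tmpp g_tmzp s2
            omega
        · clear * - g_t12 g_tmzp
          omega
        · clear * - g_t12' g_tmzp
          omega
        · clear * - b_f22_4 b_f22_6 b_f33_7 b_o2 g_tmzp s3
          omega
      · clear * - b_a4 b_f23_1 b_o2 g_f23_3
        omega

end Pool.Agent.Helper78.TQ
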